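import Pool.Agent.SMP.Stmts

/-!
# SMP, module CHB: Chebyshev bounds
-/

set_option autoImplicit false

namespace Pool.Agent.SMP

open Finset Filter

namespace CHB_

lemma card0 (b : ℕ) : (PR 0 b).card = Nat.primeCounting b := by
  rw [← Nat.primesLE_card_eq_primeCounting]
  congr 1
  ext p
  simp only [PR, mem_filter, mem_Ioc, Nat.mem_primesLE]
  constructor
  · rintro ⟨⟨_, h1⟩, h2⟩
    exact ⟨h1, h2⟩
  · rintro ⟨h1, h2⟩
    exact ⟨⟨h2.pos, h1⟩, h2⟩

lemma card_add {a b : ℕ} (h : a ≤ b) : (PR 0 b).card = (PR 0 a).card + (PR a b).card := by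
  have hd : Disjoint (PR 0 a) (PR a b) := by
    rw [Finset.disjoint_left]
    intro p hp hp'
    simp only [PR, mem_filter, mem_Ioc] at hp hp'
    omega
  rw [← Finset.card_union_of_disjoint hd]
  congr 1
  ext p
  simp only [PR, mem_filter, mem_Ioc, mem_union]
  constructor
  · rintro ⟨⟨h0, h1⟩, h2⟩
    rcases le_or_gt p a with h3 | h3
    · exact Or.inl ⟨⟨h0, h3⟩, h2⟩
    · exact Or.inr ⟨⟨h3, h1⟩, h2⟩
  · rintro (⟨⟨h0, h1⟩, h2⟩ | ⟨⟨h0, h1⟩, h2⟩)
    · exact ⟨⟨h0, h1.trans h⟩, h2⟩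
    · exact ⟨⟨by omega, h1⟩, h2⟩

lemma card_le (a : ℕ) : (PR 0 a).card ≤ a := by
  refine (card_filter_le _ _).trans ?_
  simp

lemma th (y : ℕ) : Th (PR 0 y) ≤ 2 * y := by
  have h1 : Th (PR 0 y) = Chebyshev.theta y := by
    unfold Th PR Chebyshev.theta
    rw [Nat.floor_natCast]
  rw [h1]
  refine (Chebyshev.theta_le_log4_mul_x (Nat.cast_nonneg y)).trans ?_
  have h2 : Real.log 4 ≤ 2 := by
    have h3 : Real.log 4 = 2 * Real.log 2 := by
      rw [show (4 : ℝ) = 2 ^ 2 by norm_num, Real.log_pow]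
      norm_num
    have h4 := Real.log_two_lt_d9
    rw [h3]
    linarith
  exact mul_le_mul_of_nonneg_right h2 (Nat.cast_nonneg y)

lemma lower (n : ℕ) : (n : ℝ) * Real.log 2 - Real.log (n + 1) ≤
    ((PR 0 n).card : ℝ) * Real.log n := by
  rw [card0]
  exact (Chebyshev.psi_ge n).trans (Chebyshev.psi_le_primeCounting_mul_log n)

lemma upper : ∀ᶠ y : ℕ in atTop, ((PR 0 y).card : ℝ) * Real.log y ≤ 3 * Real.log 2 * y := by
  have h := Chebyshev.eventually_primeCounting_le (ε := Real.log 2) (Real.log_pos (by norm_num))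
  have h' := (tendsto_natCast_atTop_atTop (R := ℝ)).eventually h
  filter_upwards [h', eventually_ge_atTop 2] with y hy hy2
  rw [Nat.floor_natCast] at hy
  have hl : 0 < Real.log y := Real.log_pos (by exact_mod_cast hy2)
  rw [card0]
  rw [le_div_iff₀ hl] at hy
  have h3 : Real.log 4 = 2 * Real.log 2 := by
    rw [show (4 : ℝ) = 2 ^ 2 by norm_num, Real.log_pow]
    norm_num
  rw [h3] at hy
  linarith

lemma logsq {ε : ℝ} (hε : 0 < ε) : ∀ᶠ y : ℕ in atTop, Real.log y ≤ ε * Real.sqrt y := by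
  have h := (isLittleO_log_rpow_atTop (r := 1 / 2) (by norm_num)).bound hε
  have h' := (tendsto_natCast_atTop_atTop (R := ℝ)).eventually h
  filter_upwards [h', eventually_ge_atTop 1] with y hy hy1
  have h1 : ‖Real.log (y : ℝ)‖ = Real.log y := by
    rw [Real.norm_eq_abs, abs_of_nonneg]
    exact Real.log_nonneg (by exact_mod_cast hy1)
  have h2 : ‖(y : ℝ) ^ (1 / 2 : ℝ)‖ = Real.sqrt y := by
    rw [Real.norm_eq_abs, abs_of_nonneg (Real.rpow_nonneg (Nat.cast_nonneg y) _),
      Real.sqrt_eq_rpow]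
  rw [h1, h2] at hy
  exact hy

end CHB_

theorem chb_proof : Stmt_CHB := by
  intro η K hη hη1
  set ε : ℝ := η / (48 * ((K : ℝ) + 4)) with hε
  have hK : (0 : ℝ) ≤ K := Nat.cast_nonneg K
  have hε0 : 0 < ε := by positivity
  have e1 : ε * (48 * ((K : ℝ) + 4)) = η := by
    rw [hε]
    field_simp
  have hL1 := Real.log_two_gt_d9
  have hL2 := Real.log_two_lt_d9
  obtain ⟨C, hC⟩ := eventually_atTop.1 ((CHB_.logsq hε0).and (CHB_.upper.and
    ((eventually_ge_atTop 16).and ((eventually_ge_atTop ⌈8 / η⌉₊).and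
      (eventually_ge_atTop ⌈1 / η ^ 2⌉₊)))))
  refine ⟨max C 8, le_max_right _ _, fun y hy => ?_⟩
  obtain ⟨hlog, hup, h16, h8, hsq⟩ := hC y ((le_max_left _ _).trans hy)
  have hyR : (16 : ℝ) ≤ y := by exact_mod_cast h16
  have hy8 : 8 / η ≤ (y : ℝ) := (Nat.le_ceil _).trans (by exact_mod_cast h8)
  have hysq : 1 / η ^ 2 ≤ (y : ℝ) := (Nat.le_ceil _).trans (by exact_mod_cast hsq)
  have hy8' : 8 ≤ η * y := by
    rw [div_le_iff₀ hη] at hy8
    linarith
  set r := Real.sqrt y with hr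
  have hrr : r * r = y := Real.mul_self_sqrt (Nat.cast_nonneg y)
  have hr0 : 0 ≤ r := Real.sqrt_nonneg _
  have hr1 : 1 ≤ r := by
    rw [hr]
    exact Real.one_le_sqrt.2 (by linarith)
  have hry : r ≤ y := by nlinarith
  have hηr : 1 ≤ η * r := by
    have h1 : 1 / η ≤ r := by
      rw [hr]
      apply Real.le_sqrt_of_sq_le
      rw [div_pow, one_pow]
      exact hysq
    rw [div_le_iff₀ hη] at h1
    linarith
  set s := Nat.sqrt y with hs
  have hsr : (s : ℝ) ≤ r := Real.nat_sqrt_le_real_sqrt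
  have hs3 : 3 ≤ s := by
    rw [hs, Nat.le_sqrt]
    omega
  have hlogpos : 0 < Real.log y := Real.log_pos (by linarith)
  have hlog1 : Real.log ((y : ℝ) + 1) ≤ 2 * Real.log y := by
    rw [← Real.log_rpow (by linarith)]
    refine Real.log_le_log (by linarith) ?_
    rw [Real.rpow_two]
    nlinarith
  -- lower bound for π(y)
  have hpi : ((K : ℝ) + 2) * r ≤ ((PR 0 y).card : ℝ) := by
    have h1 := CHB_.lower y
    have h2 : ((K : ℝ) + 2) * r * Real.log y ≤ ((PR 0 y).card : ℝ) * Real.log y := by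
      have h3 : ((K : ℝ) + 2) * r * Real.log y ≤ ((K : ℝ) + 2) * r * (ε * r) := by
        gcongr
      have h4 : ((K : ℝ) + 2) * r * (ε * r) = ((K : ℝ) + 2) * ε * y := by
        rw [← hrr]; ring
      have h5 : ((K : ℝ) + 2) * ε * y ≤ 1 / 48 * y := by
        gcongr
        nlinarith
      have h6 : Real.log ((y : ℝ) + 1) ≤ 1 / 24 * y := by
        have h7 : ε * r ≤ 1 / 48 * y := by
          have : ε ≤ 1 / 48 := by nlinarith
          gcongr
        linarith
      have h8 : (1 / 48 + 1 / 24) * (y : ℝ) ≤ (y : ℝ) * Real.log 2 := by nlinarith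
      linarith
    exact le_of_mul_le_mul_right h2 hlogpos
  have hsy : s ≤ y := Nat.sqrt_le_self y
  have hadd := CHB_.card_add hsy
  have hls := CHB_.card_le s
  have haddR : ((PR 0 y).card : ℝ) = (PR 0 s).card + (PR s y).card := by exact_mod_cast hadd
  have hlsR : ((PR 0 s).card : ℝ) ≤ s := by exact_mod_cast hls
  refine ⟨by omega, ?_, ?_, ?_, ?_, ?_, CHB_.th y⟩
  · have h1 : y < (s + 1) * (s + 1) := Nat.lt_succ_sqrt y
    nlinarith
  · calc (s : ℝ) ≤ r := hsr
      _ ≤ (η * r) * r := by nlinarith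
      _ = η * y := by rw [mul_assoc, hrr]
  · have h1 : ((K * s : ℕ) : ℝ) ≤ ((PR s y).card : ℝ) := by
      push_cast
      nlinarith
    exact_mod_cast h1
  · have h1 : ((PR 0 y).card : ℝ) ≤ ((2 * (PR s y).card : ℕ) : ℝ) := by
      push_cast
      nlinarith
    exact_mod_cast h1
  · set n := ⌊η * y⌋₊ with hn
    have hηy0 : 0 ≤ η * (y : ℝ) := by positivity
    have hsn : s ≤ n := by
      rw [hn]
      apply Nat.le_floor
      calc (s : ℝ) ≤ r := hsr
        _ ≤ (η * r) * r := by nlinarith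
        _ = η * y := by rw [mul_assoc, hrr]
    have hny : (n : ℝ) ≤ y := by
      calc (n : ℝ) ≤ η * y := Nat.floor_le hηy0
        _ ≤ 1 * y := by gcongr
        _ = y := one_mul _
    have hn1 : η * y - 1 ≤ n := by
      have := Nat.lt_floor_add_one (η * (y : ℝ))
      linarith
    have hn2 : (1 : ℝ) ≤ n := by linarith
    have hadd' := CHB_.card_add hsn
    have haddR' : ((PR 0 n).card : ℝ) = (PR 0 s).card + (PR s n).card := by exact_mod_cast hadd'
    have h1 := CHB_.lower n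
    have h2 : ((PR 0 n).card : ℝ) * Real.log n ≤ ((PR 0 n).card : ℝ) * Real.log y := by
      gcongr
    have h3 : Real.log ((n : ℝ) + 1) ≤ Real.log ((y : ℝ) + 1) :=
      Real.log_le_log (by linarith) (by linarith)
    have h4 : ε * r ≤ ε * y := by gcongr
    have h5 : (η * y - 1) * Real.log 2 ≤ n * Real.log 2 := by
      gcongr
    have h6 : (s : ℝ) * Real.log y ≤ ε * y := by
      calc (s : ℝ) * Real.log y ≤ r * (ε * r) := by gcongr
        _ = ε * y := by rw [← hrr]; ring
    have hεη : 48 * ε ≤ η := by nlinarith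
    have h7 : 12 * ε * y + 4 * Real.log 2 ≤ η * y * Real.log 2 := by
      have h8 : 12 * ε * y ≤ η * y / 4 := by nlinarith
      nlinarith
    have h8 : η * (((PR 0 y).card : ℝ) * Real.log y) ≤ η * (3 * Real.log 2 * y) := by
      gcongr
    have h9 : η * ((PR 0 y).card : ℝ) * Real.log y ≤ 4 * ((PR s n).card : ℝ) * Real.log y := by
      have h10 : ((PR s n).card : ℝ) * Real.log y =
          ((PR 0 n).card : ℝ) * Real.log y - ((PR 0 s).card : ℝ) * Real.log y := by
        rw [haddR']; ring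
      have h11 : ((PR 0 s).card : ℝ) * Real.log y ≤ s * Real.log y := by
        gcongr
      nlinarith
    exact le_of_mul_le_mul_right h9 hlogpos

end Pool.Agent.SMP
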