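import Pool.Agent.SMP.Stmts

set_option autoImplicit false

namespace Pool.Agent.SMP

open Finset

theorem cho_proof : Stmt_CHO := by
  intro N j hj
  have h1 : (N - j) ^ j ≤ N.choose j * j.factorial := by
    have h2 := Nat.pow_sub_le_descFactorial N j
    rw [Nat.descFactorial_eq_factorial_mul_choose, mul_comm] at h2
    exact (Nat.pow_le_pow_left (by omega) j).trans h2
  have h3 : ((N : ℝ) - j) = ((N - j : ℕ) : ℝ) := by
    rw [Nat.cast_sub hj]
  rw [h3]
  exact_mod_cast h1

end Pool.Agent.SMP
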