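import Pool.Agent.SMP.Stmts

/-!
# Squad SMP (MP_57632f_nt), module CNT: the size of the family
-/

set_option autoImplicit false

namespace Pool.Agent.SMP

open Finset

namespace CNTX

theorem Th_eq (y : ℕ) : Th (PR 0 y) = Chebyshev.theta y := by
  rw [Th, PR, Chebyshev.theta, Nat.floor_natCast]

theorem Th_le (y : ℕ) : Th (PR 0 y) ≤ 2 * y := by
  rw [Th_eq]
  have h := Chebyshev.theta_le_log4_mul_x (x := (y : ℝ)) (Nat.cast_nonneg y)
  have h2 : Real.log 4 ≤ 2 := by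
    have h3 : Real.log 4 = 2 * Real.log 2 := by
      rw [show (4 : ℝ) = 2 ^ 2 by norm_num, Real.log_pow]
      norm_num
    rw [h3]
    linarith [Real.log_two_lt_d9]
  exact h.trans (mul_le_mul_of_nonneg_right h2 (Nat.cast_nonneg y))

theorem F_ge {y : ℕ} (hy : 3 ≤ y) :
    1 ≤ ((PR 0 y).card.factorial : ℝ) * ∏ p ∈ PR 0 y, Real.log p := by
  have h2 : 2 ∈ PR 0 y := by
    rw [PR, mem_filter, mem_Ioc]
    exact ⟨⟨by omega, by omega⟩, Nat.prime_two⟩
  have h3 : 3 ∈ (PR 0 y).erase 2 := by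
    rw [mem_erase, PR, mem_filter, mem_Ioc]
    exact ⟨by omega, ⟨by omega, by omega⟩, Nat.prime_three⟩
  have hprod : 1 ≤ ∏ p ∈ (PR 0 y).erase 2, Real.log p := by
    rw [← Finset.prod_const_one (s := (PR 0 y).erase 2)]
    apply Finset.prod_le_prod
    · intro _ _
      exact zero_le_one
    · intro p hp
      rw [mem_erase, PR, mem_filter, mem_Ioc] at hp
      have hp3 : 3 ≤ p := by
        have := hp.2.2.two_le
        omega
      rw [Real.le_log_iff_exp_le (by exact_mod_cast (by omega : 0 < p))]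
      have h5 := Real.exp_one_lt_d9
      have h6 : (3 : ℝ) ≤ p := by exact_mod_cast hp3
      linarith
  have hcard : 2 ≤ (PR 0 y).card.factorial := by
    have h7 : 1 ≤ ((PR 0 y).erase 2).card := Finset.card_pos.2 ⟨3, h3⟩
    rw [Finset.card_erase_of_mem h2] at h7
    have h8 : 2 ≤ (PR 0 y).card := by omega
    exact Nat.factorial_le h8
  have hcard' : (2 : ℝ) ≤ ((PR 0 y).card.factorial : ℝ) := by exact_mod_cast hcard
  have hl2 : (1 : ℝ) / 2 ≤ Real.log 2 := by linarith [Real.log_two_gt_d9]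
  rw [← Finset.mul_prod_erase _ _ h2]
  push_cast
  have h9 : (1 : ℝ) / 2 ≤ Real.log 2 * ∏ p ∈ (PR 0 y).erase 2, Real.log p := by nlinarith
  nlinarith

end CNTX

open CNTX in
theorem cnt_proof (hPSI : Stmt_PSI) : Stmt_CNT := by
  refine ⟨3, fun y X hy hX => ?_⟩
  have hP : ∀ p ∈ PR 0 y, p.Prime := fun p hp => (mem_filter.1 hp).2
  have hy3 : (3 : ℝ) ≤ y := by exact_mod_cast hy
  have hX1 : 1 ≤ X := (Real.one_le_exp (by positivity)).trans hX
  have hL : (y : ℝ) ^ 3 ≤ Real.log X := by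
    rw [Real.le_log_iff_exp_le (by linarith)]
    exact hX
  have hTh : Th (PR 0 y) ≤ Real.log X := by
    have h1 := Th_le y
    have h2 : 2 * (y : ℝ) ≤ (y : ℝ) ^ 3 := by
      have h3 : (9 : ℝ) ≤ (y : ℝ) ^ 2 := by nlinarith
      have h4 : (y : ℝ) ^ 3 = (y : ℝ) ^ 2 * y := by ring
      rw [h4]
      nlinarith
    linarith
  have hTh0 : 0 ≤ Th (PR 0 y) :=
    Finset.sum_nonneg fun q hq => Real.log_nonneg (by exact_mod_cast (hP q hq).one_lt.le)
  obtain ⟨-, h2⟩ := hPSI (PR 0 y) X hP hX1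
  have hF := F_ge hy
  have hN : (0 : ℝ) ≤ (SP (PR 0 y) X).card := Nat.cast_nonneg _
  have hlog0 : 0 ≤ Real.log X := Real.log_nonneg hX1
  calc ((SP (PR 0 y) X).card : ℝ)
      ≤ ((SP (PR 0 y) X).card : ℝ) *
        (((PR 0 y).card.factorial : ℝ) * ∏ p ∈ PR 0 y, Real.log p) :=
          le_mul_of_one_le_right hN hF
    _ ≤ (Real.log X + Th (PR 0 y)) ^ (PR 0 y).card := h2
    _ ≤ (2 * Real.log X) ^ (PR 0 y).card := by
        apply pow_le_pow_left₀ (by linarith)
        linarith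

end Pool.Agent.SMP
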