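import Pool.Agent.SMP.Stmts

set_option autoImplicit false

namespace Pool.Agent.SMP

open Finset

namespace CORX

lemma Z_mono (S : Finset ℕ) (θ : ℝ) {δ δ' : ℝ} (h : δ ≤ δ') : Z S θ δ ⊆ Z S θ δ' := by
  intro m hm
  unfold Z at *
  rw [mem_filter] at *
  exact ⟨hm.1, lt_of_lt_of_le hm.2 h⟩

lemma walk (hWLK : Stmt_WLK) (S Q : Finset ℕ) (y y0 y1 : ℕ) (β θ δ : ℝ) (hD : Down S y β)
    (hy0 : 1 ≤ y0) (hy1 : y1 ≤ y) (hQ : Q.Nonempty) (hQp : ∀ p ∈ Q, p.Prime ∧ y0 ≤ p ∧ p ≤ y1)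
    (hδ : 0 < δ) (h2 : 2 * y1 * δ ≤ 1) (J : ℕ) :
    ((Z S θ δ).card : ℝ) ≤ J * ((β + 1 / Q.card) * S.card) + (Z S θ (δ / (y0 : ℝ) ^ J)).card := by
  induction J with
  | zero => simp
  | succ J ih =>
    have hy0' : (1 : ℝ) ≤ y0 := by exact_mod_cast hy0
    have hpow : (1 : ℝ) ≤ (y0 : ℝ) ^ J := one_le_pow₀ hy0'
    have hle : δ / (y0 : ℝ) ^ J ≤ δ := div_le_self hδ.le hpow
    have h3 : 2 * (y1 : ℝ) * (δ / (y0 : ℝ) ^ J) ≤ 1 :=
      (mul_le_mul_of_nonneg_left hle (by positivity)).trans h2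
    have h4 := hWLK S Q y y0 y1 β θ (δ / (y0 : ℝ) ^ J) hD hy0 hy1 hQ hQp h3
    rw [div_div, ← pow_succ] at h4
    push_cast
    linarith

/-- the exceptional sets -/
lemma nottyp (hTYA : Stmt_TYA) (hTYB : Stmt_TYB) (hTYC : Stmt_TYC) (y0 y V : ℕ) (X e g c : ℝ)
    (h0 : y0 ≤ y) (h1 : y ≤ y0 ^ 3) (h8 : 8 ≤ y) (hX : Real.exp ((y : ℝ) ^ 3) ≤ X) (he : 0 < e)
    (hg : 0 < g) (hc : 1 ≤ c) (hV : c * HH y X ≤ V) (hT : Th (PR 0 y) ≤ 2 * y) :
    ∃ E ⊆ SP (PR 0 y) X, (E.card : ℝ) ≤ (4 * (e + 4 / y) + 3 * y0 / ((PR 0 y).card * g) +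
      3 * (c / 3 + 1) * Real.exp (-c / 3) / g) * (SP (PR 0 y) X).card ∧
      ∀ m ∈ SP (PR 0 y) X, m ∉ E → Typ y0 y (e * HH y X) (g * Real.log X) V m := by
  classical
  set A := (SP (PR 0 y) X).filter (fun m => ¬ (4 * ((PR y0 y).filter
      (fun p => (m.factorization p : ℝ) < e * HH y X)).card ≤ (PR y0 y).card)) with hA
  set B := (SP (PR 0 y) X).filter (fun m => g * Real.log X <
      ∑ p ∈ PR 0 y0, (m.factorization p : ℝ) * Real.log p) with hB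
  set C := (SP (PR 0 y) X).filter (fun m => g * Real.log X <
      ∑ p ∈ (PR y0 y).filter (fun p => V ≤ m.factorization p),
        (m.factorization p : ℝ) * Real.log p) with hC
  have hA' : (A.card : ℝ) ≤ 4 * (e + 4 / y) * (SP (PR 0 y) X).card := by
    have h := hTYA y0 y X e h0 h8 hX he hT
    refine le_trans (le_of_eq ?_) h
    congr 2
  have hB' : (B.card : ℝ) ≤ 3 * y0 / ((PR 0 y).card * g) * (SP (PR 0 y) X).card := by
    have h := hTYB y0 y X g h0 h8 hX hg hT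
    refine le_trans (le_of_eq ?_) h
    congr 2
  have hC' : (C.card : ℝ) ≤ 3 * (c / 3 + 1) * Real.exp (-c / 3) / g * (SP (PR 0 y) X).card := by
    have h := hTYC y0 y V X g c h0 h1 h8 hX hg hc hV hT
    refine le_trans (le_of_eq ?_) h
    congr 2
  refine ⟨A ∪ B ∪ C, ?_, ?_, ?_⟩
  · intro m hm
    rw [mem_union, mem_union] at hm
    rcases hm with (hm | hm) | hm
    · exact (mem_filter.1 hm).1
    · exact (mem_filter.1 hm).1
    · exact (mem_filter.1 hm).1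
  · have h1 : ((A ∪ B ∪ C).card : ℝ) ≤ (A.card : ℝ) + B.card + C.card := by
      have h2 := card_union_le (A ∪ B) C
      have h3 := card_union_le A B
      have h4 : (A ∪ B ∪ C).card ≤ A.card + B.card + C.card := by omega
      exact_mod_cast h4
    linarith
  · intro m hm hmE
    rw [mem_union, mem_union] at hmE
    push Not at hmE
    obtain ⟨⟨hmA, hmB⟩, hmC⟩ := hmE
    refine ⟨?_, ?_, ?_⟩
    · by_contra h
      exact hmA (mem_filter.2 ⟨hm, h⟩)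
    · by_contra h
      push Not at h
      exact hmB (mem_filter.2 ⟨hm, h⟩)
    · by_contra h
      push Not at h
      exact hmC (mem_filter.2 ⟨hm, h⟩)

/-- a constant `c` -/
lemma exists_c (g ε : ℝ) (hε : 0 < ε) :
    ∃ c : ℝ, 1 ≤ c ∧ 3 * (c / 3 + 1) * Real.exp (-c / 3) / g ≤ ε := by
  have h1 : Filter.Tendsto (fun t : ℝ => t * Real.exp (-t)) Filter.atTop (nhds 0) := by
    have h := Real.tendsto_pow_mul_exp_neg_atTop_nhds_zero 1
    simpa using h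
  have h2 : Filter.Tendsto (fun t : ℝ => Real.exp (-t)) Filter.atTop (nhds 0) := by
    have h := Real.tendsto_pow_mul_exp_neg_atTop_nhds_zero 0
    simpa using h
  have h3 : Filter.Tendsto (fun t : ℝ => 3 * (t * Real.exp (-t) + Real.exp (-t)) / g)
      Filter.atTop (nhds (3 * (0 + 0) / g)) := ((h1.add h2).const_mul 3).div_const g
  simp only [add_zero, mul_zero, zero_div] at h3
  have h4 := h3.eventually (gt_mem_nhds hε)
  obtain ⟨t, ht1, ht2⟩ := (h4.and (Filter.eventually_ge_atTop 1)).exists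
  refine ⟨3 * t, by linarith, ?_⟩
  have h5 : 3 * (3 * t / 3 + 1) * Real.exp (-(3 * t) / 3) / g =
      3 * (t * Real.exp (-t) + Real.exp (-t)) / g := by
    have h6 : -(3 * t) / 3 = -t := by ring
    rw [h6]
    ring
  rw [h5]
  exact ht1.le

/-- a constant `j0` -/
lemma exists_j (A ε : ℝ) (hε : 0 < ε) :
    ∃ j0 : ℕ, 1 ≤ j0 ∧ ∀ j : ℕ, j0 ≤ j → (j : ℝ) * Real.exp (-(j : ℝ)) * A ≤ ε := by
  have h1 : Filter.Tendsto (fun t : ℝ => t * Real.exp (-t)) Filter.atTop (nhds 0) := by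
    have h := Real.tendsto_pow_mul_exp_neg_atTop_nhds_zero 1
    simpa using h
  have h2 : Filter.Tendsto (fun n : ℕ => (n : ℝ) * Real.exp (-(n : ℝ)) * A) Filter.atTop
      (nhds (0 * A)) := (h1.comp tendsto_natCast_atTop_atTop).mul_const A
  rw [zero_mul] at h2
  have h3 := h2.eventually (gt_mem_nhds hε)
  obtain ⟨n, hn⟩ := Filter.eventually_atTop.1 h3
  refine ⟨n + 1, by omega, fun j hj => (hn j (by omega)).le⟩

/-- `8 log₂ y / y → 0` -/
lemma exists_y (ε : ℝ) (hε : 0 < ε) :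
    ∃ C : ℕ, ∀ y : ℕ, C ≤ y → 2 * (Nat.log 2 y : ℝ) * (4 / y) ≤ ε := by
  have h1 : Filter.Tendsto (fun t : ℝ => Real.log t / t) Filter.atTop (nhds 0) := by
    have h := Real.isLittleO_log_id_atTop.tendsto_div_nhds_zero
    simpa using h
  have h2 := (h1.comp tendsto_natCast_atTop_atTop).const_mul (8 / Real.log 2)
  rw [mul_zero] at h2
  have h3 := h2.eventually (gt_mem_nhds hε)
  obtain ⟨n, hn⟩ := Filter.eventually_atTop.1 h3
  refine ⟨n + 1, fun y hy => ?_⟩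
  have hy0 : y ≠ 0 := by omega
  have hyp : (0 : ℝ) < y := by exact_mod_cast Nat.pos_of_ne_zero hy0
  have h4 := (hn y (by omega)).le
  simp only [Function.comp] at h4
  have hl2 : 0 < Real.log 2 := Real.log_pos (by norm_num)
  have h5 : (Nat.log 2 y : ℝ) ≤ Real.log y / Real.log 2 := by
    rw [le_div_iff₀ hl2, ← Real.log_pow]
    apply Real.log_le_log (by positivity)
    exact_mod_cast Nat.pow_log_le_self 2 hy0
  have h6 : 2 * (Nat.log 2 y : ℝ) * (4 / y) = 8 / (y : ℝ) * (Nat.log 2 y : ℝ) := by ring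
  rw [h6]
  refine le_trans (mul_le_mul_of_nonneg_left h5 (by positivity)) (le_trans (le_of_eq ?_) h4)
  ring

/-- the last part of the bound -/
lemma fin_bound (j0 : ℕ) (A ε L c K : ℝ) (N j V : ℕ) (s z : ℝ) (hc : 1 ≤ c)
    (hj0 : ∀ j : ℕ, j0 ≤ j → (j : ℝ) * Real.exp (-(j : ℝ)) * A ≤ ε)
    (hA : A = 3 + Real.log (3 * c)) (hj : j0 ≤ j) (h1j : 1 ≤ j) (hL : 1 < L)
    (hjL : Real.log L ≤ Real.exp j) (hV : (V : ℝ) + 1 ≤ 3 * c * L) (hK : 0 ≤ K)
    (hN : Real.exp 2 * max 3 (2 * K) * j ≤ (N : ℝ) - j) (hs : 0 ≤ s)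
    (h : z * ((N : ℝ) - j) ^ j ≤
      j * ((3 * (j : ℝ)) ^ j * (1 + Real.log (V + 1)) + (2 * j * K) ^ j) * s) : z ≤ ε * s := by
  have hjp : (0 : ℝ) < j := by exact_mod_cast h1j
  have hM : 0 < max 3 (2 * K) := lt_of_lt_of_le (by norm_num) (le_max_left _ _)
  set M := max 3 (2 * K) with hMdef
  have hpos : 0 < Real.exp 2 * M * j := by positivity
  have hNp : 0 < (N : ℝ) - j := lt_of_lt_of_le hpos hN
  have hlogV : Real.log (V + 1) ≤ Real.log (3 * c) + Real.log L := by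
    rw [← Real.log_mul (by positivity) (by positivity)]
    exact Real.log_le_log (by positivity) hV
  have hlogV0 : 0 ≤ Real.log ((V : ℝ) + 1) := Real.log_nonneg (by
    have : (0 : ℝ) ≤ V := Nat.cast_nonneg V
    linarith)
  have h1 : (3 * (j : ℝ)) ^ j ≤ (M * j) ^ j :=
    pow_le_pow_left₀ (by positivity) (mul_le_mul_of_nonneg_right (le_max_left _ _) hjp.le) j
  have h2 : (2 * (j : ℝ) * K) ^ j ≤ (M * j) ^ j := by
    apply pow_le_pow_left₀ (by positivity)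
    have h3 : 2 * K ≤ M := le_max_right _ _
    nlinarith
  have h3 : (j : ℝ) * ((3 * (j : ℝ)) ^ j * (1 + Real.log (V + 1)) + (2 * j * K) ^ j) * s ≤
      (j : ℝ) * ((M * j) ^ j * (2 + Real.log (V + 1))) * s := by
    apply mul_le_mul_of_nonneg_right _ hs
    apply mul_le_mul_of_nonneg_left _ hjp.le
    have h4 : (3 * (j : ℝ)) ^ j * (1 + Real.log (V + 1)) ≤ (M * j) ^ j * (1 + Real.log (V + 1)) :=
      mul_le_mul_of_nonneg_right h1 (by linarith)
    nlinarith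
  have h4 : (Real.exp 2 * M * j) ^ j ≤ ((N : ℝ) - j) ^ j := pow_le_pow_left₀ hpos.le hN j
  have h5 : (Real.exp 2 * M * j) ^ j = Real.exp (2 * j) * (M * j) ^ j := by
    rw [mul_assoc, mul_pow, ← Real.exp_nat_mul, mul_comm (j : ℝ) 2]
  by_cases hz : z ≤ 0
  · have hA0 : 0 ≤ A := by
      rw [hA]
      have : 0 ≤ Real.log (3 * c) := Real.log_nonneg (by linarith)
      linarith
    have hε : 0 ≤ ε := le_trans (by positivity) (hj0 j hj)
    exact hz.trans (by positivity)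
  push Not at hz
  have h6 : z * (Real.exp (2 * j) * (M * j) ^ j) ≤
      (j : ℝ) * ((M * j) ^ j * (2 + Real.log (V + 1))) * s := by
    rw [← h5]
    exact (mul_le_mul_of_nonneg_left h4 hz.le).trans (h.trans h3)
  have hMj : 0 < (M * (j : ℝ)) ^ j := by positivity
  have h7 : z * Real.exp (2 * j) ≤ (j : ℝ) * (2 + Real.log (V + 1)) * s := by
    have h8 : (z * Real.exp (2 * j)) * (M * (j : ℝ)) ^ j ≤
        ((j : ℝ) * (2 + Real.log (V + 1)) * s) * (M * (j : ℝ)) ^ j := by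
      nlinarith
    exact le_of_mul_le_mul_right h8 hMj
  have hlogL : Real.log L ≤ Real.exp j := hjL
  have he1 : 1 ≤ Real.exp (j : ℝ) := Real.one_le_exp hjp.le
  have hlc : 0 ≤ Real.log (3 * c) := Real.log_nonneg (by linarith)
  have h9 : 2 + Real.log ((V : ℝ) + 1) ≤ A * Real.exp j := by
    rw [hA]
    nlinarith
  have h10 : z * Real.exp (2 * j) ≤ (j : ℝ) * (A * Real.exp j) * s :=
    h7.trans (mul_le_mul_of_nonneg_right (mul_le_mul_of_nonneg_left h9 hjp.le) hs)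
  have h11 : Real.exp (2 * (j : ℝ)) = Real.exp j * Real.exp j := by
    rw [← Real.exp_add]
    congr 1
    ring
  have h12 : z ≤ ((j : ℝ) * Real.exp (-(j : ℝ)) * A) * s := by
    have h13 : z * Real.exp j * Real.exp j ≤ ((j : ℝ) * A * s) * Real.exp j := by
      rw [h11] at h10
      nlinarith
    have h14 : z * Real.exp j ≤ (j : ℝ) * A * s := le_of_mul_le_mul_right h13 (Real.exp_pos _)
    rw [Real.exp_neg]
    have h15 : (j : ℝ) * (Real.exp j)⁻¹ * A * s = (j : ℝ) * A * s / Real.exp j := by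
      field_simp
    rw [h15, le_div_iff₀ (Real.exp_pos _)]
    exact h14
  exact h12.trans (mul_le_mul_of_nonneg_right (hj0 j hj) hs)

/-- steps 1 and 2: kernel and walk -/
lemma step12 (hKER : Stmt_KER) (hWLK : Stmt_WLK) (S Q1 : Finset ℕ) (y y0 y1 k j : ℕ)
    (β θ η ε r : ℝ) (hε : 0 < ε) (hε1 : ε ≤ 1) (hη : η = ε / 8) (hDown : Down S y β)
    (hβ4 : β ≤ 4 / y) (hy8 : 8 ≤ y) (hlog : 2 * (Nat.log 2 y : ℝ) * (4 / y) ≤ ε / 16)
    (hk1 : (1 : ℝ) ≤ k) (hkyr : (k : ℝ) ≤ y) (hs1 : 1 ≤ y0) (hs3 : y ≤ y0 ^ 3)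
    (hηy : 1 ≤ η * y) (hy1 : y1 = ⌊η * y⌋₊) (hQ1 : Q1 = PR y0 y1)
    (hηk : η * k ≤ 4 * Q1.card) (hjκ : (j : ℝ) ≤ η * ε / 1152 * k)
    (hr : r = 1 / (2 * (y : ℝ) ^ (3 * j))) :
    ‖∑ m ∈ S, ex (m * θ)‖ ≤ (ε / 16 + ε / 8 + ε / 16) * S.card + (Z S θ r).card := by
  have hηp : 0 < η := by rw [hη]; positivity
  have hy8' : (8 : ℝ) ≤ y := by exact_mod_cast hy8
  have hyp : (0 : ℝ) < y := by linarith
  have hkp : (0 : ℝ) < k := by linarith
  have hs : (0 : ℝ) ≤ S.card := Nat.cast_nonneg _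
  have hKer := hKER S y y β θ η hDown (by omega) le_rfl hηp
  obtain ⟨δ, hδ⟩ : ∃ δ : ℝ, δ = 1 / (2 * η * y) := ⟨_, rfl⟩
  rw [← hδ] at hKer
  have hδp : 0 < δ := by rw [hδ]; positivity
  have hker1 : 2 * (Nat.log 2 y : ℝ) * β ≤ ε / 16 := by
    refine le_trans (mul_le_mul_of_nonneg_left hβ4 (by positivity)) hlog
  have hη1 : η ≤ 1 := by rw [hη]; linarith
  have hy1y : y1 ≤ y := by
    rw [hy1]
    apply Nat.floor_le_of_le
    nlinarith
  have hy1δ : 2 * (y1 : ℝ) * δ ≤ 1 := by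
    have h1 : (y1 : ℝ) ≤ η * y := by
      rw [hy1]
      exact Nat.floor_le (by positivity)
    rw [hδ, mul_one_div, div_le_one (by positivity)]
    linarith
  have hQ1c : (0 : ℝ) < Q1.card := by
    have : 0 < η * k := by positivity
    linarith
  have hQ1n : Q1.Nonempty := by
    rw [← card_pos]
    exact_mod_cast hQ1c
  have hQ1p : ∀ p ∈ Q1, p.Prime ∧ y0 ≤ p ∧ p ≤ y1 := by
    intro p hp
    rw [hQ1] at hp
    unfold PR at hp
    rw [mem_filter, mem_Ioc] at hp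
    exact ⟨hp.2, by omega, hp.1.2⟩
  have hwalk := walk hWLK S Q1 y y0 y1 β θ δ hDown hs1 hy1y hQ1n hQ1p hδp hy1δ (9 * j)
  have hwalk1 : ((9 * j : ℕ) : ℝ) * ((β + 1 / Q1.card) * S.card) ≤ ε / 16 * S.card := by
    rw [← mul_assoc]
    apply mul_le_mul_of_nonneg_right _ hs
    have h1 : 1 / (Q1.card : ℝ) ≤ 4 / (η * k) := by
      rw [div_le_div_iff₀ hQ1c (by positivity)]
      linarith
    have h2 : 4 / (y : ℝ) ≤ 4 / (η * k) := by
      apply div_le_div_of_nonneg_left (by norm_num) (by positivity)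
      nlinarith
    have h3 : β + 1 / Q1.card ≤ 8 / (η * k) := by
      have h4 : 8 / (η * k) = 4 / (η * k) + 4 / (η * k) := by ring
      linarith
    push_cast
    calc 9 * (j : ℝ) * (β + 1 / Q1.card) ≤ 9 * j * (8 / (η * k)) :=
          mul_le_mul_of_nonneg_left h3 (by positivity)
      _ = j * (72 / (η * k)) := by ring
      _ ≤ η * ε / 1152 * k * (72 / (η * k)) := mul_le_mul_of_nonneg_right hjκ (by positivity)
      _ = ε / 16 := by
          field_simp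
          norm_num
  have hδr : δ / (y0 : ℝ) ^ (9 * j) ≤ r := by
    have h1 : (y : ℝ) ^ (3 * j) ≤ (y0 : ℝ) ^ (9 * j) := by
      have h2 : (y : ℝ) ≤ (y0 : ℝ) ^ 3 := by exact_mod_cast hs3
      calc (y : ℝ) ^ (3 * j) ≤ ((y0 : ℝ) ^ 3) ^ (3 * j) := pow_le_pow_left₀ hyp.le h2 _
        _ = (y0 : ℝ) ^ (9 * j) := by
            rw [← pow_mul]
            congr 1
            ring
    rw [hδ, hr, div_div]
    apply one_div_le_one_div_of_le (by positivity)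
    have h2 : 2 * (y : ℝ) ^ (3 * j) ≤ 2 * (y0 : ℝ) ^ (9 * j) := by linarith
    refine h2.trans ?_
    apply mul_le_mul_of_nonneg_right _ (by positivity)
    linarith
  have hZ1 : ((Z S θ (δ / (y0 : ℝ) ^ (9 * j))).card : ℝ) ≤ (Z S θ r).card := by
    exact_mod_cast card_le_card (Z_mono S _ hδr)
  have h1 : 2 * (Nat.log 2 y : ℝ) * β * S.card ≤ ε / 16 * S.card :=
    mul_le_mul_of_nonneg_right hker1 hs
  have h2 : (2 * (Nat.log 2 y : ℝ) * β + η) * S.card =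
    2 * (Nat.log 2 y : ℝ) * β * S.card + ε / 8 * S.card := by rw [hη]; ring
  rw [h2] at hKer
  have h3 : (ε / 16 + ε / 8 + ε / 16) * (S.card : ℝ) =
    ε / 16 * S.card + ε / 8 * S.card + ε / 16 * S.card := by ring
  rw [h3]
  linarith

/-- step 4: the numbers which are not typical -/
lemma step4 (y y0 k K : ℕ) (e g c ε : ℝ) (hε : 0 < ε) (hg : 0 < g) (he : e = ε / 64)
    (hc : 3 * (c / 3 + 1) * Real.exp (-c / 3) / g ≤ ε / 16) (hy : 256 / ε ≤ y)
    (hyp : (0 : ℝ) < y) (hkp : (0 : ℝ) < k)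
    (hKp : 48 / (g * ε) ≤ K) (hKk : (K : ℝ) * y0 ≤ k) :
    4 * (e + 4 / (y : ℝ)) + 3 * y0 / (k * g) + 3 * (c / 3 + 1) * Real.exp (-c / 3) / g ≤
      ε / 8 + ε / 16 + ε / 16 := by
  have h1 : 4 * (e + 4 / (y : ℝ)) ≤ ε / 8 := by
    have h3 : 4 / (y : ℝ) ≤ ε / 64 := by
      rw [div_le_div_iff₀ hyp (by norm_num)]
      rw [div_le_iff₀ hε] at hy
      linarith
    rw [he]
    linarith
  have h2 : 3 * (y0 : ℝ) / (k * g) ≤ ε / 16 := by
    rw [div_le_div_iff₀ (by positivity) (by norm_num)]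
    have h3 : 48 / (g * ε) * y0 ≤ k :=
      (mul_le_mul_of_nonneg_right hKp (Nat.cast_nonneg _)).trans hKk
    have h4 : 48 / (g * ε) * y0 * (g * ε) ≤ k * (g * ε) :=
      mul_le_mul_of_nonneg_right h3 (by positivity)
    have h5 : 48 / (g * ε) * y0 * (g * ε) = 48 * y0 := by
      field_simp
    linarith
  linarith

/-- sizes -/
lemma sizes (y k : ℕ) (X g : ℝ) (hg : 0 < g) (hk : k = (PR 0 y).card) (hy8 : 8 ≤ y)
    (hX : Real.exp ((y : ℝ) ^ 3) ≤ X) (hk1 : (1 : ℝ) ≤ k) (hy : 2 / g ≤ y) :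
    1 < Real.log X ∧ 1 < X ∧ (k : ℝ) ≤ y ∧ HH y X ≤ Real.log X ∧ (y : ℝ) ≤ HH y X ∧
      2 ≤ g * HH y X ∧ (y : ℝ) ^ 3 ≤ Real.log X := by
  have hy8' : (8 : ℝ) ≤ y := by exact_mod_cast hy8
  have hyp : (0 : ℝ) < y := by linarith
  have hXp : 0 < X := lt_of_lt_of_le (Real.exp_pos _) hX
  have hLy : (y : ℝ) ^ 3 ≤ Real.log X := by
    rw [Real.le_log_iff_exp_le hXp]
    exact hX
  have hy3 : (512 : ℝ) ≤ (y : ℝ) ^ 3 := by
    have h1 : (8 : ℝ) ^ 3 ≤ (y : ℝ) ^ 3 := pow_le_pow_left₀ (by norm_num) hy8' 3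
    norm_num at h1
    exact h1
  have hL1 : 1 < Real.log X := by linarith
  have hX1 : 1 < X := by
    have h1 : (1 : ℝ) < Real.exp ((y : ℝ) ^ 3) := Real.one_lt_exp_iff.2 (by linarith)
    linarith
  have hky : k ≤ y := by
    have h1 : (PR 0 y).card ≤ (Ioc 0 y).card := card_filter_le _ _
    simpa [hk] using h1
  have hkyr : (k : ℝ) ≤ y := by exact_mod_cast hky
  have hlogy : Real.log y ≤ y := by
    have := Real.log_le_sub_one_of_pos hyp
    linarith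
  have hlogy1 : 1 ≤ Real.log y := by
    rw [Real.le_log_iff_exp_le hyp]
    have h1 := Real.exp_one_lt_d9
    linarith
  have hHdef : HH y X = Real.log X / (k * Real.log y) := by
    unfold HH
    rw [hk]
  have hkp : (0 : ℝ) < k := by linarith
  have hklog : (0 : ℝ) < k * Real.log y := by positivity
  have hHL : HH y X ≤ Real.log X := by
    rw [hHdef]
    apply div_le_self (by linarith)
    nlinarith
  have hHy : (y : ℝ) ≤ HH y X := by
    rw [hHdef, le_div_iff₀ hklog]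
    have h1 : (k : ℝ) * Real.log y ≤ y * y := mul_le_mul hkyr hlogy (by linarith) hyp.le
    calc (y : ℝ) * (k * Real.log y) ≤ y * (y * y) := mul_le_mul_of_nonneg_left h1 hyp.le
      _ = (y : ℝ) ^ 3 := by ring
      _ ≤ Real.log X := hLy
  refine ⟨hL1, hX1, hkyr, hHL, hHy, ?_, hLy⟩
  have h1 : 2 / g ≤ HH y X := by linarith
  rw [div_le_iff₀ hg] at h1
  linarith

/-- the choice of `j` -/
lemma choice_j (j0 k : ℕ) (L κ C : ℝ) (hL : 1 < L) (hκ : 0 < κ) (hC : 2 / κ ≤ C)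
    (hLLL : C * Real.log (Real.log L) ≤ k) (hk : 2 * (1 + (j0 : ℝ)) / κ ≤ k) :
    ∃ j : ℕ, j0 ≤ j ∧ Real.log L ≤ Real.exp j ∧ (j : ℝ) ≤ κ * k := by
  have hkp : (0 : ℝ) ≤ k := Nat.cast_nonneg _
  refine ⟨⌈max 0 (Real.log (Real.log L))⌉₊ + j0, by omega, ?_, ?_⟩
  · have h1 : Real.log (Real.log L) ≤ ((⌈max 0 (Real.log (Real.log L))⌉₊ + j0 : ℕ) : ℝ) := by
      have h2 := Nat.le_ceil (max 0 (Real.log (Real.log L)))
      have h3 := le_max_right 0 (Real.log (Real.log L))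
      have h5 : (0 : ℝ) ≤ j0 := Nat.cast_nonneg _
      push_cast
      linarith
    have h2 : 0 < Real.log L := Real.log_pos hL
    calc Real.log L = Real.exp (Real.log (Real.log L)) := (Real.exp_log h2).symm
      _ ≤ _ := Real.exp_le_exp.2 h1
  · have h1 : max 0 (Real.log (Real.log L)) ≤ κ / 2 * k := by
      apply max_le (by positivity)
      by_cases h0 : Real.log (Real.log L) ≤ 0
      · exact h0.trans (by positivity)
      push Not at h0
      have h2 : 2 / κ * Real.log (Real.log L) ≤ k :=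
        le_trans (mul_le_mul_of_nonneg_right hC h0.le) hLLL
      have h3 : 2 / κ * Real.log (Real.log L) * (κ / 2) ≤ k * (κ / 2) :=
        mul_le_mul_of_nonneg_right h2 (by positivity)
      have h4 : 2 / κ * Real.log (Real.log L) * (κ / 2) = Real.log (Real.log L) := by
        field_simp
      linarith
    have h2 := Nat.ceil_lt_add_one (le_max_left 0 (Real.log (Real.log L)))
    have h5 : (1 + (j0 : ℝ)) ≤ κ / 2 * k := by
      rw [div_le_iff₀ hκ] at hk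
      linarith
    push_cast
    linarith

/-- the parameters `B`, `V` -/
lemma params (B V : ℕ) (H L c g K0 : ℝ) (hV : V = ⌈c * H⌉₊) (hB : B = ⌊g * H⌋₊) (hc : 1 ≤ c)
    (hH : 8 ≤ H) (hHL : H ≤ L) (hg : 0 < g) (hgH : 2 ≤ g * H) (hK0 : K0 = 4 * c / g) :
    c * H ≤ V ∧ 1 ≤ V ∧ 1 ≤ B ∧ (V : ℝ) ≤ K0 * B ∧ (V : ℝ) + 1 ≤ 3 * c * L := by
  have hcH : 8 ≤ c * H := by nlinarith
  have h1 : c * H ≤ V := by rw [hV]; exact Nat.le_ceil _
  have h2 : (V : ℝ) ≤ c * H + 1 := by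
    rw [hV]
    exact (Nat.ceil_lt_add_one (by linarith)).le
  have h3 : g * H ≤ B + 1 := by
    rw [hB]
    exact (Nat.lt_floor_add_one (g * H)).le
  have hcp : 0 < c := by linarith
  refine ⟨h1, ?_, ?_, ?_, ?_⟩
  · have h4 : (0 : ℝ) < V := by linarith
    have h5 : 0 < V := by exact_mod_cast h4
    exact h5
  · rw [hB]
    apply Nat.le_floor
    push_cast
    linarith
  · have hBge : g * H / 2 ≤ B := by linarith
    have hK0p : 0 < K0 := by rw [hK0]; positivity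
    have h4 : K0 * (g * H / 2) ≤ K0 * B := mul_le_mul_of_nonneg_left hBge hK0p.le
    have h5 : K0 * (g * H / 2) = 2 * (c * H) := by
      rw [hK0]
      field_simp
      ring
    linarith
  · have h4 : c * H ≤ c * L := mul_le_mul_of_nonneg_left hHL hcp.le
    have h5 : 3 * c * L = 3 * (c * L) := by ring
    rw [h5]
    linarith

end CORX

open CORX in
theorem cor_proof (hDWN : Stmt_DWN) (hKER : Stmt_KER) (hWLK : Stmt_WLK) (hDSC : Stmt_DSC)
    (hTYA : Stmt_TYA) (hTYB : Stmt_TYB) (hTYC : Stmt_TYC) (hCHB : Stmt_CHB) (hIRB : Stmt_IRB) :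
    Stmt_COR := by
  intro x μ hx hμ ε1 hε1
  obtain ⟨ε, hεdef⟩ : ∃ ε : ℝ, ε = min ε1 1 := ⟨_, rfl⟩
  have hε : 0 < ε := by rw [hεdef]; exact lt_min hε1 one_pos
  have hε' : ε ≤ 1 := by rw [hεdef]; exact min_le_right _ _
  have hεε : ε ≤ ε1 := by rw [hεdef]; exact min_le_left _ _
  have hμr : (1 : ℝ) ≤ μ := by exact_mod_cast hμ
  obtain ⟨η, hη⟩ : ∃ η : ℝ, η = ε / 8 := ⟨_, rfl⟩
  obtain ⟨e, he⟩ : ∃ e : ℝ, e = ε / 64 := ⟨_, rfl⟩
  obtain ⟨g, hg⟩ : ∃ g : ℝ, g = e / (400 * μ) := ⟨_, rfl⟩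
  have hηp : 0 < η := by rw [hη]; positivity
  have hep : 0 < e := by rw [he]; positivity
  have hgp : 0 < g := by rw [hg]; positivity
  obtain ⟨c, hc1, hc2⟩ := exists_c g (ε / 16) (by positivity)
  have hcp : 0 < c := by linarith
  obtain ⟨K0, hK0⟩ : ∃ K0 : ℝ, K0 = 4 * c / g := ⟨_, rfl⟩
  have hK0p : 0 < K0 := by rw [hK0]; positivity
  obtain ⟨M, hM⟩ : ∃ M : ℝ, M = max 3 (2 * K0) := ⟨_, rfl⟩
  have hMp : 0 < M := by rw [hM]; exact lt_of_lt_of_le (by norm_num) (le_max_left _ _)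
  obtain ⟨A, hA⟩ : ∃ A : ℝ, A = 3 + Real.log (3 * c) := ⟨_, rfl⟩
  obtain ⟨j0, hj01, hj0⟩ := exists_j A (ε / 16) (by positivity)
  obtain ⟨Y1, hY1⟩ := exists_y (ε / 16) (by positivity)
  have he2M : 0 < Real.exp 2 * M + 1 := by positivity
  obtain ⟨κ, hκ⟩ : ∃ κ : ℝ, κ = min (η * ε / 1152) (g / c / (2 * (Real.exp 2 * M + 1))) :=
    ⟨_, rfl⟩
  have hκp : 0 < κ := by
    rw [hκ]
    apply lt_min (by positivity)
    positivity
  have hκ1 : κ ≤ η * ε / 1152 := by rw [hκ]; exact min_le_left _ _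
  have hκ2 : κ ≤ g / c / (2 * (Real.exp 2 * M + 1)) := by rw [hκ]; exact min_le_right _ _
  obtain ⟨K, hK⟩ := exists_nat_ge (48 / (g * ε) + 2 * (1 + j0) / κ)
  obtain ⟨Y2, hY28, hY2⟩ := hCHB η K hηp (by rw [hη]; linarith)
  obtain ⟨Y3, hY3⟩ := hIRB x μ e c hx hμ hep (by rw [he]; linarith) hc1
  refine ⟨Y1 + Y2 + Y3 + 256 / ε + 2 / κ + 2 / g, by positivity, ?_⟩
  intro y X hyC hX hLLL h hh0 hhH
  have hY28' : (8 : ℝ) ≤ Y2 := by exact_mod_cast hY28
  have hp1 : 0 < 256 / ε := by positivity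
  have hp2 : 0 < 2 / κ := by positivity
  have hp3 : 0 < 2 / g := by positivity
  have hn1 : (0 : ℝ) ≤ Y1 := Nat.cast_nonneg _
  have hn2 : (0 : ℝ) ≤ Y2 := Nat.cast_nonneg _
  have hn3 : (0 : ℝ) ≤ Y3 := Nat.cast_nonneg _
  have hyY1 : Y1 ≤ y := by
    have : (Y1 : ℝ) ≤ y := by linarith
    exact_mod_cast this
  have hyY2 : Y2 ≤ y := by
    have : (Y2 : ℝ) ≤ y := by linarith
    exact_mod_cast this
  have hyY3 : Y3 ≤ y := by
    have : (Y3 : ℝ) ≤ y := by linarith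
    exact_mod_cast this
  have hy8 : 8 ≤ y := hY28.trans hyY2
  have hy8' : (8 : ℝ) ≤ y := by exact_mod_cast hy8
  have hyp : (0 : ℝ) < y := by linarith
  have hyε : 256 / ε ≤ y := by linarith
  have hyg : 2 / g ≤ y := by linarith
  have hC2 : 2 / κ ≤ (Y1 : ℝ) + Y2 + Y3 + 256 / ε + 2 / κ + 2 / g := by linarith
  obtain ⟨hs1, hs3, hsη, hKs, hk2, hηk, hTh⟩ := hY2 y hyY2
  have hY3' := hY3 y X h
  obtain ⟨y0, hy0⟩ : ∃ y0 : ℕ, y0 = Nat.sqrt y := ⟨_, rfl⟩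
  obtain ⟨k, hk⟩ : ∃ k : ℕ, k = (PR 0 y).card := ⟨_, rfl⟩
  have hy0y : y0 ≤ y := by rw [hy0]; exact Nat.sqrt_le_self y
  rw [← hy0] at hs1 hs3 hsη hKs hk2 hηk hY3'
  rw [← hk] at hk2 hηk hLLL
  clear hy0 hY2 hY3 hyC hCHB hIRB
  have hs1' : (1 : ℝ) ≤ y0 := by exact_mod_cast hs1
  have hQk : (PR y0 y).card ≤ k := by
    rw [hk]
    apply card_le_card
    intro p hp
    unfold PR at *
    rw [mem_filter, mem_Ioc] at *
    exact ⟨⟨by omega, hp.1.2⟩, hp.2⟩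
  have hKk : (K : ℝ) * y0 ≤ k := by
    have h1 : K * y0 ≤ k := hKs.trans hQk
    exact_mod_cast h1
  have hKp : 48 / (g * ε) ≤ K := by
    have : 0 ≤ 2 * (1 + (j0 : ℝ)) / κ := by positivity
    linarith
  have hKp2 : 2 * (1 + (j0 : ℝ)) / κ ≤ K := by
    have : 0 ≤ 48 / (g * ε) := by positivity
    linarith
  have hKnn : (0 : ℝ) ≤ K := Nat.cast_nonneg _
  have hKk' : (K : ℝ) ≤ k := le_trans (le_mul_of_one_le_right hKnn hs1') hKk
  have hk1 : (1 : ℝ) ≤ k := by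
    have h1 : 0 < 48 / (g * ε) := by positivity
    have h2 : (0 : ℝ) < k := by linarith
    have h3 : 0 < k := by exact_mod_cast h2
    exact_mod_cast h3
  have hkp : (0 : ℝ) < k := by linarith
  obtain ⟨hL1, hX1, hkyr, hHL, hHy, hgH, hLy⟩ := sizes y k X g hgp hk hy8 hX hk1 hyg
  obtain ⟨j, hjj0, hjL, hjκ⟩ := choice_j j0 k (Real.log X) κ _ hL1 hκp hC2 hLLL
    (hKp2.trans hKk')
  have h1j : 1 ≤ j := hj01.trans hjj0
  obtain ⟨V, hV⟩ : ∃ V : ℕ, V = ⌈c * HH y X⌉₊ := ⟨_, rfl⟩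
  obtain ⟨B, hB⟩ : ∃ B : ℕ, B = ⌊g * HH y X⌋₊ := ⟨_, rfl⟩
  obtain ⟨N, hN⟩ : ∃ N : ℕ, N = ⌈g / c * (PR y0 y).card⌉₊ := ⟨_, rfl⟩
  obtain ⟨hVge, hV1, hB1, hVB, hV3⟩ := params B V (HH y X) (Real.log X) c g K0 hV hB hc1
    (by linarith) hHL hgp hgH hK0
  -- N
  have hNge : g / c * (PR y0 y).card ≤ N := by rw [hN]; exact Nat.le_ceil _
  have hk2' : (k : ℝ) ≤ 2 * (PR y0 y).card := by exact_mod_cast hk2
  have hNk : g / c * k / 2 ≤ N := by
    have h1 : g / c * k ≤ g / c * (2 * (PR y0 y).card) :=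
      mul_le_mul_of_nonneg_left hk2' (by positivity)
    linarith
  have hNj : Real.exp 2 * M * j ≤ (N : ℝ) - j := by
    have h1 : (j : ℝ) * (Real.exp 2 * M + 1) ≤ κ * k * (Real.exp 2 * M + 1) :=
      mul_le_mul_of_nonneg_right hjκ he2M.le
    have h2 : κ * (2 * (Real.exp 2 * M + 1)) ≤ g / c := by
      rwa [le_div_iff₀ (by positivity)] at hκ2
    have h3 : κ * (2 * (Real.exp 2 * M + 1)) * k ≤ g / c * k := mul_le_mul_of_nonneg_right h2 hkp.le
    have h4 : (j : ℝ) * (Real.exp 2 * M + 1) = Real.exp 2 * M * j + j := by ring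
    have h5 : κ * (2 * (Real.exp 2 * M + 1)) * k = 2 * (κ * k * (Real.exp 2 * M + 1)) := by ring
    linarith
  have hjN : j ≤ N := by
    have h1 : (0 : ℝ) ≤ Real.exp 2 * M * j := by positivity
    have h2 : (j : ℝ) ≤ N := by linarith
    exact_mod_cast h2
  -- Down
  have hDown := hDWN y X hX1
  obtain ⟨β, hβ⟩ : ∃ β : ℝ, β = 2 * (PR 0 y).card * Th (PR 0 y) / Real.log X := ⟨_, rfl⟩
  rw [← hβ] at hDown
  have hThn : 0 ≤ Th (PR 0 y) := by
    unfold Th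
    apply sum_nonneg
    intro p hp
    exact Real.log_natCast_nonneg p
  have hβ4 : β ≤ 4 / y := by
    rw [hβ, ← hk, div_le_div_iff₀ (by linarith) hyp]
    have h1 : 2 * (k : ℝ) * Th (PR 0 y) ≤ 2 * y * (2 * y) :=
      mul_le_mul (by linarith) hTh hThn (by positivity)
    calc 2 * (k : ℝ) * Th (PR 0 y) * y ≤ 2 * y * (2 * y) * y :=
          mul_le_mul_of_nonneg_right h1 hyp.le
      _ = 4 * (y : ℝ) ^ 3 := by ring
      _ ≤ 4 * Real.log X := by linarith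
  have hηy : 1 ≤ η * y := by
    rw [div_le_iff₀ hε] at hyε
    rw [hη]
    linarith
  obtain ⟨E, hES, hEc, hE⟩ := nottyp hTYA hTYB hTYC y0 y V X e g c hy0y hs3 hy8 hX hep hgp hc1
    hVge hTh
  rw [← hk] at hEc
  obtain ⟨S, hS⟩ : ∃ S : Finset ℕ, S = SP (PR 0 y) X := ⟨_, rfl⟩
  rw [← hS] at hDown hES hEc hE hY3' ⊢
  have hs : (0 : ℝ) ≤ S.card := Nat.cast_nonneg _
  obtain ⟨θ, hθ⟩ : ∃ θ : ℝ, θ = h * x := ⟨_, rfl⟩
  rw [← hθ] at hY3'
  rw [← hθ]
  obtain ⟨r, hr⟩ : ∃ r : ℝ, r = 1 / (2 * (y : ℝ) ^ (3 * j)) := ⟨_, rfl⟩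
  have h12 := step12 hKER hWLK S (PR y0 ⌊η * y⌋₊) y y0 ⌊η * y⌋₊ k j β θ η ε r hε hε' hη hDown hβ4
    hy8 (hY1 y hyY1) hk1 hkyr hs1 hs3 hηy rfl rfl hηk
    (hjκ.trans (mul_le_mul_of_nonneg_right hκ1 hkp.le)) hr
  have hrp : 0 < r := by rw [hr]; positivity
  have hr2 : 2 * r * (y : ℝ) ^ (3 * j) ≤ 1 := by
    rw [hr]
    apply le_of_eq
    field_simp
  have hrhalf : r ≤ 1 / 2 := by
    have h1 : (1 : ℝ) ≤ (y : ℝ) ^ (3 * j) := one_le_pow₀ (by linarith)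
    nlinarith
  have hEc' : (E.card : ℝ) ≤ (ε / 8 + ε / 16 + ε / 16) * S.card :=
    hEc.trans (mul_le_mul_of_nonneg_right
      (step4 y y0 k K e g c ε hε hgp he hc2 hyε hyp hkp hKp hKk) hs)
  have hZ2 : Z S θ r ⊆ E ∪ (Z S θ r).filter (fun m => N ≤ (Gd (PR y0 y) B V θ m).card) := by
    intro m hm
    by_cases hmE : m ∈ E
    · exact mem_union_left _ hmE
    · apply mem_union_right
      rw [mem_filter]
      refine ⟨hm, ?_⟩
      have hm' := hm
      unfold Z at hm'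
      rw [mem_filter] at hm'
      have hty := hE m hm'.1 hmE
      rw [hg, hV] at hty
      have h1 := hY3' m hyY3 hX hh0 hhH hm'.1 (lt_of_lt_of_le hm'.2 hrhalf) hty
      rw [← hg, ← hB, ← hV] at h1
      rw [hN]
      apply Nat.ceil_le.2
      refine le_trans (le_of_eq ?_) h1
      rw [hg, div_div]
  have hZ3 : ((Z S θ r).card : ℝ) ≤ E.card + ((Z S θ r).filter
      (fun m => N ≤ (Gd (PR y0 y) B V θ m).card)).card := by
    have h1 := (card_le_card hZ2).trans (card_union_le _ _)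
    exact_mod_cast h1
  have hdsc := hDSC S (PR y0 y) y y0 j B V N β θ r K0 hDown (by omega) hs1 hs3 (by
    intro p hp
    unfold PR at hp
    rw [mem_filter, mem_Ioc] at hp
    exact ⟨hp.2, by omega, hp.1.2⟩) h1j hB1 hV1 hVB hjN hrp hr2
  rw [hM] at hNj
  have hfin := fin_bound j0 A (ε / 16) (Real.log X) c K0 N j V S.card _ hc1 hj0 hA hjj0 h1j hL1
    hjL hV3 hK0p.le hNj hs hdsc
  have hfinal : ‖∑ m ∈ S, ex (m * θ)‖ ≤ ε * S.card := by
    have h3 : 0 ≤ ε * S.card := by positivity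
    linarith
  exact hfinal.trans (mul_le_mul_of_nonneg_right hεε hs)

end Pool.Agent.SMP
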