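import Pool.Agent.SMP.Stmts

set_option autoImplicit false

namespace Pool.Agent.SMP

open Finset

namespace DCA_

/-- the greatest common divisor of `m` and `round (m θ)` -/
noncomputable def gg (θ : ℝ) (m : ℕ) : ℕ := Nat.gcd m (round ((m : ℝ) * θ)).natAbs

/-- the exponents -/
noncomputable def ii (θ : ℝ) (m : ℕ) (R : Finset ℕ) : ℕ →₀ ℕ :=
  (gg θ m).factorization.filter (fun p => p ∈ R)

/-- the divisor -/
noncomputable def ee (R : Finset ℕ) (i : ℕ →₀ ℕ) : ℕ := ∏ p ∈ R, p ^ i p

theorem ii_apply {θ : ℝ} {m : ℕ} {R : Finset ℕ} {p : ℕ} (hp : p ∈ R) :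
    ii θ m R p = (gg θ m).factorization p := Finsupp.filter_apply_pos _ _ hp

theorem ii_support (θ : ℝ) (m : ℕ) (R : Finset ℕ) : (ii θ m R).support ⊆ R := by
  intro p hp
  rw [Finsupp.mem_support_iff] at hp
  by_contra h
  exact hp (Finsupp.filter_apply_neg _ _ h)

theorem prod_dvd (g : ℕ) (R : Finset ℕ) (hR : ∀ p ∈ R, p.Prime) :
    ∏ p ∈ R, p ^ g.factorization p ∣ g := by
  classical
  induction R using Finset.induction_on with
  | empty => simp
  | insert a R ha ih =>
    rw [prod_insert ha]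
    have ha' : a.Prime := hR a (mem_insert_self a R)
    have h1 := ih fun p hp => hR p (mem_insert_of_mem hp)
    refine Nat.Coprime.mul_dvd_of_dvd_of_dvd ?_ (Nat.ordProj_dvd g a) h1
    refine Nat.Coprime.prod_right fun p hp => ?_
    have hp' : p.Prime := hR p (mem_insert_of_mem hp)
    refine Nat.Coprime.pow _ _ ((Nat.coprime_primes ha' hp').2 ?_)
    rintro rfl
    exact ha hp

theorem round_of {x : ℝ} {A : ℤ} (h : |x - A| < 1 / 2) : round x = A := by
  have h1 := round_le x A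
  have h2 : |((round x : ℤ) : ℝ) - A| < 1 := by
    have h3 : ((round x : ℤ) : ℝ) - A = -(x - round x) + (x - A) := by ring
    rw [h3]
    have h4 := abs_add_le (-(x - round x)) (x - A)
    rw [abs_neg] at h4
    linarith
  have h5 : |round x - A| < 1 := by
    have : ((|round x - A| : ℤ) : ℝ) < 1 := by
      push_cast
      exact h2
    exact_mod_cast this
  have h6 := Int.abs_lt_one_iff.1 h5
  linarith

theorem step {m : ℕ} {R : Finset ℕ} {θ r : ℝ} {B V y0 : ℕ} (hm : 0 < m)
    (hR : ∀ p ∈ R, p.Prime ∧ y0 ≤ p) (hg : ∀ p ∈ R, B ≤ bp θ m p ∧ m.factorization p < V)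
    (hB : 1 ≤ B) (hnd : nd (m * θ) < r) (hr : r ≤ 1 / 2) (hy0 : 1 ≤ y0) :
    0 < ee R (ii θ m R) ∧ ee R (ii θ m R) ∣ m ∧
      nd ((m / ee R (ii θ m R) : ℕ) * θ) < r / (y0 : ℝ) ^ (R.sum (ii θ m R)) ∧
      ∀ p ∈ R, ¬ (p : ℤ) ∣ round (((m / ee R (ii θ m R) : ℕ) : ℝ) * θ) ∧
        B ≤ (m / ee R (ii θ m R)).factorization p ∧ ii θ m R p < V := by
  set g := gg θ m with hgg
  set e := ee R (ii θ m R) with he
  have hgm : g ∣ m := Nat.gcd_dvd_left _ _
  have hg0 : 0 < g := Nat.pos_of_dvd_of_pos hgm hm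
  have heq : e = ∏ p ∈ R, p ^ g.factorization p := by
    rw [he]
    unfold ee
    exact prod_congr rfl fun p hp => by rw [ii_apply hp]
  have heg : e ∣ g := by
    rw [heq]
    exact prod_dvd g R fun p hp => (hR p hp).1
  have hem : e ∣ m := heg.trans hgm
  have he0 : 0 < e := Nat.pos_of_dvd_of_pos heg hg0
  set A : ℤ := round ((m : ℝ) * θ) with hA
  have hgA : g ∣ A.natAbs := Nat.gcd_dvd_right _ _
  have heA : (e : ℤ) ∣ A := by
    rw [Int.natCast_dvd]
    exact heg.trans hgA
  obtain ⟨A', hA'⟩ := heA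
  obtain ⟨m', hm'⟩ := hem
  have hdiv : m / e = m' := by
    rw [hm']
    exact Nat.mul_div_cancel_left m' he0
  have heR : (0 : ℝ) < e := by exact_mod_cast he0
  have hkey : |(m' : ℝ) * θ - A'| * e = nd (m * θ) := by
    unfold nd
    rw [← hA, ← abs_of_pos heR, ← abs_mul]
    congr 1
    have h1 : (m : ℝ) = e * m' := by exact_mod_cast hm'
    have h2 : (A : ℝ) = e * A' := by exact_mod_cast hA'
    rw [h1, h2]
    ring
  have hr0 : 0 < r := lt_of_le_of_lt (abs_nonneg _) hnd
  have hyR : (1 : ℝ) ≤ y0 := by exact_mod_cast hy0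
  have hey : (y0 : ℝ) ^ (R.sum (ii θ m R)) ≤ e := by
    have h1 : y0 ^ (R.sum (ii θ m R)) ≤ e := by
      rw [he]
      unfold ee
      rw [← prod_pow_eq_pow_sum]
      exact prod_le_prod' fun p hp => Nat.pow_le_pow_left (hR p hp).2 _
    exact_mod_cast h1
  have hyp : (0 : ℝ) < (y0 : ℝ) ^ (R.sum (ii θ m R)) := by positivity
  have hlt : |(m' : ℝ) * θ - A'| < r / (y0 : ℝ) ^ (R.sum (ii θ m R)) := by
    rw [lt_div_iff₀ hyp]
    calc |(m' : ℝ) * θ - A'| * (y0 : ℝ) ^ (R.sum (ii θ m R)) ≤ |(m' : ℝ) * θ - A'| * e :=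
          mul_le_mul_of_nonneg_left hey (abs_nonneg _)
      _ < r := by rw [hkey]; exact hnd
  have hhalf : |(m' : ℝ) * θ - A'| < 1 / 2 := by
    refine hlt.trans_le ?_
    refine (div_le_self hr0.le ?_).trans hr
    exact one_le_pow₀ hyR
  have hround : round ((m' : ℝ) * θ) = A' := round_of hhalf
  have hv : ∀ p ∈ R, g.factorization p + B ≤ m.factorization p := by
    intro p hp
    have h1 := (hg p hp).1
    have h2 : bp θ m p = m.factorization p - g.factorization p := by
      unfold bp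
      have h3 := Nat.factorization_div hgm
      have h4 := congrArg (fun f => f p) h3
      exact h4
    rw [h2] at h1
    omega
  refine ⟨he0, ⟨m', hm'⟩, ?_, fun p hp => ?_⟩
  · rw [hdiv]
    exact (round_le _ _).trans_lt hlt
  · rw [hdiv, hround, ii_apply hp]
    have hpp := (hR p hp).1
    have hvp := hv p hp
    refine ⟨?_, ?_, ?_⟩
    · rintro ⟨t, ht⟩
      have h1 : p ^ g.factorization p ∣ e := by
        rw [heq]
        exact dvd_prod_of_mem (fun p => p ^ g.factorization p) hp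
      have h2 : p ^ (g.factorization p + 1) ∣ A.natAbs := by
        rw [← Int.natCast_dvd, hA', ht, pow_succ]
        push_cast
        obtain ⟨s, hs⟩ := h1
        refine ⟨s * t, ?_⟩
        rw [hs]
        push_cast
        ring
      have h3 : p ^ (g.factorization p + 1) ∣ m := by
        rw [hpp.pow_dvd_iff_le_factorization hm.ne']
        omega
      have h4 : p ^ (g.factorization p + 1) ∣ g := Nat.dvd_gcd h3 h2
      rw [hpp.pow_dvd_iff_le_factorization hg0.ne'] at h4
      omega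
    · have h1 : m'.factorization p = m.factorization p - e.factorization p := by
        have h3 := Nat.factorization_div (⟨m', hm'⟩ : e ∣ m)
        have h4 := congrArg (fun f => f p) h3
        rw [hdiv] at h4
        exact h4
      have h2 : e.factorization p ≤ g.factorization p :=
        (Nat.factorization_le_iff_dvd he0.ne' hg0.ne').2 heg p
      omega
    · have := (hg p hp).2
      show g.factorization p < V
      omega

end DCA_

open DCA_ in
theorem dca_proof : Stmt_DCA := by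
  classical
  intro S Q y y0 j B V β θ r U hS hy0 hQ hj hB hr hU
  set T : Finset (Σ _ : ℕ, Σ _ : ℕ × Finset ℕ, ℕ →₀ ℕ) :=
    (range (j * V)).sigma (fun n => (EE S Q θ (r / (y0 : ℝ) ^ n) (U n) j).sigma
      (fun w => w.2.finsuppAntidiag n)) with hT
  have hle : (FF S Q θ r B V j).card ≤ T.card := by
    refine card_le_card_of_injOn (fun w => (⟨w.2.sum (ii θ w.1 w.2),
      ⟨(w.1 / ee w.2 (ii θ w.1 w.2), w.2), ii θ w.1 w.2⟩⟩ :
        Σ _ : ℕ, Σ _ : ℕ × Finset ℕ, ℕ →₀ ℕ)) ?_ ?_
    · rintro ⟨m, R⟩ hw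
      have hw1 := mem_filter.1 (mem_coe.1 hw)
      have hw2 := mem_product.1 hw1.1
      have hmZ : m ∈ S ∧ nd (m * θ) < r := mem_filter.1 hw2.1
      have hRp : R ⊆ Q ∧ R.card = j := mem_powersetCard.1 hw2.2
      have hRg : R ⊆ Gd Q B V θ m := hw1.2
      have hRG : ∀ p ∈ R, B ≤ bp θ m p ∧ m.factorization p < V := fun p hp =>
        (mem_filter.1 (hRg hp)).2
      have hm := hS.pos m hmZ.1
      obtain ⟨s1, s2, s3, s4⟩ := step hm (fun p hp => ⟨(hQ p (hRp.1 hp)).1, (hQ p (hRp.1 hp)).2.1⟩)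
        hRG hB hmZ.2 hr hy0
      refine mem_coe.2 (mem_sigma.2 ⟨?_, mem_sigma.2 ⟨?_, ?_⟩⟩)
      · rw [mem_range]
        show R.sum (ii θ m R) < j * V
        have hne : R.Nonempty := by
          rw [← card_pos, hRp.2]
          omega
        calc R.sum (ii θ m R) < R.sum (fun _ => V) :=
              sum_lt_sum_of_nonempty hne fun p hp => (s4 p hp).2.2
          _ = j * V := by rw [sum_const, hRp.2, smul_eq_mul]
      · refine mem_filter.2 ⟨mem_product.2 ⟨mem_filter.2 ⟨?_, s3⟩, hw2.2⟩, fun p hp => ?_⟩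
        · exact hS.dvd m hmZ.1 _ (Nat.div_dvd_of_dvd s2)
        · exact ⟨(s4 p hp).1, (hU _).trans (s4 p hp).2.1⟩
      · exact mem_finsuppAntidiag.2 ⟨rfl, ii_support θ m R⟩
    · rintro ⟨m, R⟩ hw ⟨m', R'⟩ hw' h
      have get : ∀ (m : ℕ) (R : Finset ℕ), (m, R) ∈ FF S Q θ r B V j →
          m = ee R (ii θ m R) * (m / ee R (ii θ m R)) := by
        intro m R hw
        have hw1 := mem_filter.1 hw
        have hw2 := mem_product.1 hw1.1
        have hmZ : m ∈ S ∧ nd (m * θ) < r := mem_filter.1 hw2.1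
        have hRp : R ⊆ Q ∧ R.card = j := mem_powersetCard.1 hw2.2
        have hRg : R ⊆ Gd Q B V θ m := hw1.2
        have hRG : ∀ p ∈ R, B ≤ bp θ m p ∧ m.factorization p < V := fun p hp =>
          (mem_filter.1 (hRg hp)).2
        have hm := hS.pos m hmZ.1
        obtain ⟨s1, s2, s3, s4⟩ := step hm
          (fun p hp => ⟨(hQ p (hRp.1 hp)).1, (hQ p (hRp.1 hp)).2.1⟩) hRG hB hmZ.2 hr hy0
        exact (Nat.mul_div_cancel' s2).symm
      have e1 := get m R (mem_coe.1 hw)
      have e2 := get m' R' (mem_coe.1 hw')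
      simp only [Sigma.mk.injEq, Prod.mk.injEq, heq_eq_eq] at h
      obtain ⟨-, ⟨h2, h3⟩, h4⟩ := h
      subst h3
      have h5 : m = m' := by
        rw [e1, e2, h4, ← h2, h4]
      rw [h5]
  have hcard : (T.card : ℝ) = ∑ n ∈ range (j * V), ((n + j - 1).choose (j - 1) : ℝ) *
      (EE S Q θ (r / (y0 : ℝ) ^ n) (U n) j).card := by
    rw [hT, card_sigma]
    push_cast
    refine sum_congr rfl fun n _ => ?_
    rw [card_sigma]
    push_cast
    have h1 : ∀ w ∈ EE S Q θ (r / (y0 : ℝ) ^ n) (U n) j,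
        ((w.2.finsuppAntidiag n).card : ℝ) = ((n + j - 1).choose (j - 1) : ℝ) := by
      intro w hw
      have hw1 := mem_filter.1 hw
      have hw2 := mem_product.1 hw1.1
      have hRp := mem_powersetCard.1 hw2.2
      rw [card_finsuppAntidiag_nat_eq_choose, hRp.2]
      have h2 : (j + n - 1).choose n = (n + j - 1).choose (j - 1) := by
        rw [show j + n - 1 = n + (j - 1) by omega, show n + j - 1 = n + (j - 1) by omega]
        exact Nat.choose_symm_add
      rw [h2]
    rw [sum_congr rfl h1, sum_const, nsmul_eq_mul, mul_comm]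
  rw [← hcard]
  exact_mod_cast hle

end Pool.Agent.SMP
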