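import Pool.Agent.SMP.Stmts

/-!
# Squad SMP, module DCB: descent, second part
-/

set_option autoImplicit false

namespace Pool.Agent.SMP

open Finset

namespace DCBX

/-- the divisor with exponents `g` -/
noncomputable def Dv (g : ℕ →₀ ℕ) : ℕ := g.prod fun p a => p ^ a

theorem fac_Dv {g : ℕ →₀ ℕ} (h : ∀ p ∈ g.support, p.Prime) : (Dv g).factorization = g :=
  Nat.prod_pow_factorization_eq_self h

theorem Dv_ne_zero {g : ℕ →₀ ℕ} (h : ∀ p ∈ g.support, p.Prime) : Dv g ≠ 0 := by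
  unfold Dv Finsupp.prod
  rw [Finset.prod_ne_zero_iff]
  intro p hp
  exact pow_ne_zero _ (h p hp).ne_zero

theorem Dv_le {g : ℕ →₀ ℕ} {y U : ℕ} (h : ∀ p ∈ g.support, p ≤ y)
    (h1 : ∀ p ∈ g.support, p.Prime) (hU : ∀ p, g p ≤ U) : Dv g ≤ y ^ (g.support.card * U) := by
  unfold Dv Finsupp.prod
  calc ∏ p ∈ g.support, p ^ g p ≤ ∏ p ∈ g.support, y ^ U := by
        refine Finset.prod_le_prod' fun p hp => ?_
        have h2 : 1 ≤ y := (h1 p hp).one_le.trans (h p hp)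
        exact (Nat.pow_le_pow_left (h p hp) _).trans (Nat.pow_le_pow_right h2 (hU p))
    _ = y ^ (g.support.card * U) := by
        rw [Finset.prod_const, ← pow_mul, mul_comm U]

theorem coprime_Dv {g : ℕ →₀ ℕ} {A : ℤ} (h : ∀ p ∈ g.support, p.Prime)
    (hA : ∀ p ∈ g.support, ¬ (p : ℤ) ∣ A) : IsCoprime A (Dv g : ℤ) := by
  have h1 : ((Dv g : ℕ) : ℤ) = ∏ p ∈ g.support, (p : ℤ) ^ g p := by
    unfold Dv Finsupp.prod
    push_cast
    rfl
  rw [h1]
  refine IsCoprime.prod_right fun p hp => IsCoprime.pow_right ?_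
  have h2 : Prime (p : ℤ) := Nat.prime_iff_prime_int.1 (h p hp)
  exact (h2.coprime_iff_not_dvd.2 (hA p hp)).symm

theorem fractions {D D1 : ℕ} {A A1 : ℤ} (hD : D ≠ 0) (hD1 : D1 ≠ 0)
    (hc : IsCoprime A (D : ℤ)) (hc1 : IsCoprime A1 (D1 : ℤ)) {m θ ρ : ℝ} {K : ℝ}
    (hK : (D : ℝ) ≤ K) (hK1 : (D1 : ℝ) ≤ K) (hρ : 2 * ρ * K ≤ 1)
    (h : |m * D * θ - A| < ρ) (h1 : |m * D1 * θ - A1| < ρ) : D = D1 := by
  have hpos : (0 : ℝ) < D := by exact_mod_cast Nat.pos_of_ne_zero hD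
  have hpos1 : (0 : ℝ) < D1 := by exact_mod_cast Nat.pos_of_ne_zero hD1
  have hr : 0 < ρ := lt_of_le_of_lt (abs_nonneg _) h
  have h2 : |((A * D1 - A1 * D : ℤ) : ℝ)| < 1 := by
    have e1 : ((A * D1 - A1 * D : ℤ) : ℝ) =
        D * (m * D1 * θ - A1) - D1 * (m * D * θ - A) := by
      push_cast
      ring
    rw [e1]
    calc |(D : ℝ) * (m * D1 * θ - A1) - D1 * (m * D * θ - A)|
        ≤ |(D : ℝ) * (m * D1 * θ - A1)| + |(D1 : ℝ) * (m * D * θ - A)| := abs_sub _ _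
      _ = D * |m * D1 * θ - A1| + D1 * |m * D * θ - A| := by
          rw [abs_mul, abs_mul, abs_of_pos hpos, abs_of_pos hpos1]
      _ < D * ρ + D1 * ρ := by
          have := mul_lt_mul_of_pos_left h1 hpos
          have := mul_lt_mul_of_pos_left h hpos1
          linarith
      _ ≤ K * ρ + K * ρ := by
          have := mul_le_mul_of_nonneg_right hK hr.le
          have := mul_le_mul_of_nonneg_right hK1 hr.le
          linarith
      _ ≤ 1 := by linarith
  have h3 : A * D1 - A1 * D = 0 := by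
    rw [← Int.abs_lt_one_iff]
    exact_mod_cast h2
  have h4 : A * D1 = A1 * D := by linarith
  have d1 : (D : ℤ) ∣ D1 := by
    refine hc.symm.dvd_of_dvd_mul_left ?_
    rw [h4]
    exact Dvd.intro_left _ rfl
  have d2 : (D1 : ℤ) ∣ D := by
    refine hc1.symm.dvd_of_dvd_mul_left ?_
    rw [← h4]
    exact Dvd.intro_left _ rfl
  exact Nat.dvd_antisymm (Int.natCast_dvd_natCast.1 d1) (Int.natCast_dvd_natCast.1 d2)

end DCBX

open DCBX in
theorem dcb_proof : Stmt_DCB := by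
  intro S Q y j U β θ ρ hS hQ hj hU hρ
  classical
  -- the index set
  set I : Finset ((_ : ℕ × Finset ℕ) × (ℕ →₀ ℕ)) :=
    (EE S Q θ ρ U j).sigma fun w => w.2.finsupp fun _ => Icc 1 U with hI
  have hmem : ∀ x ∈ I, x.1.1 ∈ S ∧ nd (x.1.1 * θ) < ρ ∧ x.1.2 ⊆ Q ∧ x.1.2.card = j ∧
      (∀ p ∈ x.1.2, ¬ (p : ℤ) ∣ round ((x.1.1 : ℝ) * θ) ∧ U ≤ x.1.1.factorization p) ∧
      x.2.support = x.1.2 ∧ ∀ p, x.2 p ≤ U := by
    intro x hx
    rw [hI, Finset.mem_sigma] at hx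
    obtain ⟨h1, h2⟩ := hx
    unfold EE at h1
    rw [Finset.mem_filter, Finset.mem_product, Finset.mem_powersetCard] at h1
    obtain ⟨⟨h3, h4, h5⟩, h6⟩ := h1
    unfold Z at h3
    rw [Finset.mem_filter] at h3
    rw [Finset.mem_finsupp_iff] at h2
    obtain ⟨h7, h8⟩ := h2
    have h9 : x.2.support = x.1.2 := by
      refine Finset.Subset.antisymm h7 fun p hp => ?_
      have := Finset.mem_Icc.1 (h8 p hp)
      rw [Finsupp.mem_support_iff]
      omega
    refine ⟨h3.1, h3.2, h4, h5, h6, h9, fun p => ?_⟩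
    by_cases hp : p ∈ x.1.2
    · exact (Finset.mem_Icc.1 (h8 p hp)).2
    · rw [← h9, Finsupp.notMem_support_iff] at hp
      rw [hp]
      exact Nat.zero_le _
  have hcard : I.card = (EE S Q θ ρ U j).card * U ^ j := by
    rw [hI, Finset.card_sigma, Finset.sum_const_nat]
    intro w hw
    rw [Finset.card_finsupp]
    unfold EE at hw
    rw [Finset.mem_filter, Finset.mem_product, Finset.mem_powersetCard] at hw
    rw [Finset.prod_const, Nat.card_Icc, hw.1.2.2, Nat.add_sub_cancel]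
  have hpr : ∀ x ∈ I, ∀ p ∈ x.2.support, p.Prime := by
    intro x hx p hp
    obtain ⟨-, -, h3, -, -, h6, -⟩ := hmem x hx
    rw [h6] at hp
    exact (hQ p (h3 hp)).1
  have hdvd : ∀ x ∈ I, Dv x.2 ∣ x.1.1 := by
    intro x hx
    obtain ⟨h1, -, -, -, h5, h6, h7⟩ := hmem x hx
    rw [← Nat.factorization_le_iff_dvd (Dv_ne_zero (hpr x hx)) (hS.pos _ h1).ne',
      fac_Dv (hpr x hx)]
    intro p
    by_cases hp : p ∈ x.1.2
    · exact (h7 p).trans (h5 p hp).2
    · rw [← h6, Finsupp.notMem_support_iff] at hp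
      rw [hp]
      exact Nat.zero_le _
  have hle : ∀ x ∈ I, (Dv x.2 : ℝ) ≤ (y : ℝ) ^ (j * U) := by
    intro x hx
    obtain ⟨-, -, h3, h4, -, h6, h7⟩ := hmem x hx
    have h8 := Dv_le (g := x.2) (y := y) (U := U) (fun p hp => by
      rw [h6] at hp
      exact (hQ p (h3 hp)).2) (hpr x hx) h7
    rw [h6, h4] at h8
    exact_mod_cast h8
  have key : I.card ≤ S.card := by
    refine Finset.card_le_card_of_injOn (fun x => x.1.1 / Dv x.2) ?_ ?_
    · intro x hx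
      obtain ⟨h1, -⟩ := hmem x hx
      exact hS.dvd _ h1 _ (Nat.div_dvd_of_dvd (hdvd x hx))
    · intro x hx x' hx' hxx
      simp only at hxx
      have hx := Finset.mem_coe.1 hx
      have hx' := Finset.mem_coe.1 hx'
      obtain ⟨h1, h2, h3, h4, h5, h6, h7⟩ := hmem x hx
      obtain ⟨h1', h2', h3', h4', h5', h6', h7'⟩ := hmem x' hx'
      have m1 : x.1.1 / Dv x.2 * Dv x.2 = x.1.1 := Nat.div_mul_cancel (hdvd x hx)
      have m2 : x.1.1 / Dv x.2 * Dv x'.2 = x'.1.1 := by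
        rw [hxx]
        exact Nat.div_mul_cancel (hdvd x' hx')
      have m3 : ((x.1.1 / Dv x.2 : ℕ) : ℝ) * (Dv x.2 : ℝ) = (x.1.1 : ℝ) := by exact_mod_cast m1
      have m4 : ((x.1.1 / Dv x.2 : ℕ) : ℝ) * (Dv x'.2 : ℝ) = (x'.1.1 : ℝ) := by exact_mod_cast m2
      have hD : Dv x.2 = Dv x'.2 := by
        refine fractions (A := round ((x.1.1 : ℝ) * θ)) (A1 := round ((x'.1.1 : ℝ) * θ))
          (m := ((x.1.1 / Dv x.2 : ℕ) : ℝ)) (θ := θ) (ρ := ρ) (K := (y : ℝ) ^ (j * U))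
          (Dv_ne_zero (hpr x hx)) (Dv_ne_zero (hpr x' hx')) ?_ ?_ (hle x hx) (hle x' hx') hρ ?_ ?_
        · exact coprime_Dv (hpr x hx) fun p hp => (h5 p (by rwa [h6] at hp)).1
        · exact coprime_Dv (hpr x' hx') fun p hp => (h5' p (by rwa [h6'] at hp)).1
        · rw [m3]
          exact h2
        · rw [m4]
          exact h2'
      have hg : x.2 = x'.2 := by
        rw [← fac_Dv (hpr x hx), ← fac_Dv (hpr x' hx'), hD]
      have hR : x.1.2 = x'.1.2 := by rw [← h6, ← h6', hg]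
      have hm : x.1.1 = x'.1.1 := by rw [← m1, ← m2, hD]
      have hw : x.1 = x'.1 := Prod.ext hm hR
      obtain ⟨w, g⟩ := x
      obtain ⟨w', g'⟩ := x'
      simp only at hw hg
      rw [hw, hg]
  rw [hcard] at key
  exact_mod_cast key

end Pool.Agent.SMP
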