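import Pool.Agent.SMP.Stmts

set_option autoImplicit false

namespace Pool.Agent.SMP

open Finset

theorem dcc_proof : Stmt_DCC := by
  intro S Q θ r B V j N
  set A : Finset ℕ := (Z S θ r).filter (fun m => N ≤ (Gd Q B V θ m).card) with hA
  have h1 : A.card * N.choose j ≤ (A.sigma (fun m => powersetCard j (Gd Q B V θ m))).card := by
    rw [card_sigma, card_eq_sum_ones, sum_mul]
    refine sum_le_sum fun m hm => ?_
    rw [one_mul, card_powersetCard]
    exact Nat.choose_le_choose j (mem_filter.1 hm).2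
  have h2 : (A.sigma (fun m => powersetCard j (Gd Q B V θ m))).card
      ≤ (FF S Q θ r B V j).card := by
    refine card_le_card_of_injOn (fun w => (w.1, w.2)) ?_ ?_
    · rintro ⟨m, R⟩ hw
      have hw' := mem_sigma.1 (mem_coe.1 hw)
      have h3 := mem_powersetCard.1 hw'.2
      refine mem_coe.2 (mem_filter.2 ⟨mem_product.2 ⟨(mem_filter.1 hw'.1).1, ?_⟩, h3.1⟩)
      exact mem_powersetCard.2 ⟨h3.1.trans (filter_subset _ _), h3.2⟩
    · rintro ⟨m, R⟩ _ ⟨m', R'⟩ _ h
      simp only [Prod.mk.injEq] at h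
      obtain ⟨rfl, rfl⟩ := h
      rfl
  exact_mod_cast h1.trans h2

end Pool.Agent.SMP
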