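import Pool.Agent.SMP.Stmts

set_option autoImplicit false

namespace Pool.Agent.SMP

open Finset

namespace DG1_

lemma ex_add (s t : ℝ) : ex (s + t) = ex s * ex t := by
  unfold ex
  rw [← Complex.exp_add]
  congr 1
  push_cast
  ring

lemma ex_conj (t : ℝ) : (starRingEnd ℂ) (ex t) = ex (-t) := by
  unfold ex
  rw [← Complex.exp_conj]
  congr 1
  simp only [map_mul, Complex.conj_I, Complex.conj_ofReal, map_ofNat]
  push_cast
  ring

lemma ex_zero : ex 0 = 1 := by
  unfold ex; simp

end DG1_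

theorem dg1_proof : Stmt_DG1 := by
  intro S α b W h η l hW hl hη hyp
  set f : ℕ → ℂ := fun m => ∑ i ∈ range W, ex (h * ((b : ℝ) ^ i * α m)) with hf
  have hWR : (0 : ℝ) < W := by exact_mod_cast hW
  -- second moment
  have h2 : ∑ m ∈ S, ‖f m‖ ^ 2 ≤ W * S.card + (W : ℝ) ^ 2 * (η * S.card) := by
    have hexp : ∀ m, ((‖f m‖ ^ 2 : ℝ) : ℂ) =
        ∑ i ∈ range W, ∑ j ∈ range W, ex (h * ((b : ℝ) ^ i - (b : ℝ) ^ j) * α m) := by
      intro m
      rw [Complex.ofReal_pow, ← Complex.mul_conj', hf]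
      simp only [map_sum]
      rw [Finset.sum_mul_sum]
      refine Finset.sum_congr rfl fun i _ => Finset.sum_congr rfl fun j _ => ?_
      rw [DG1_.ex_conj, ← DG1_.ex_add]
      congr 1
      ring
    have hsum : ((∑ m ∈ S, ‖f m‖ ^ 2 : ℝ) : ℂ) =
        ∑ i ∈ range W, ∑ j ∈ range W, ∑ m ∈ S, ex (h * ((b : ℝ) ^ i - (b : ℝ) ^ j) * α m) := by
      rw [Complex.ofReal_sum]
      simp only [hexp]
      rw [Finset.sum_comm]
      refine Finset.sum_congr rfl fun i _ => ?_
      rw [Finset.sum_comm]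
    have hterm : ∀ i ∈ range W, ∀ j ∈ range W,
        ‖∑ m ∈ S, ex (h * ((b : ℝ) ^ i - (b : ℝ) ^ j) * α m)‖ ≤
          (if i = j then (S.card : ℝ) else 0) + η * S.card := by
      intro i hi j hj
      have hc : (0 : ℝ) ≤ S.card := by positivity
      split_ifs with hij
      · subst hij
        have : ∑ m ∈ S, ex (h * ((b : ℝ) ^ i - (b : ℝ) ^ i) * α m) = (S.card : ℂ) := by
          simp [DG1_.ex_zero]
        rw [this]
        simp only [Complex.norm_natCast]
        nlinarith
      · have := hyp i (Finset.mem_range.mp hi) j (Finset.mem_range.mp hj) hij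
        linarith
    have hnn : (0 : ℝ) ≤ ∑ m ∈ S, ‖f m‖ ^ 2 := Finset.sum_nonneg fun _ _ => by positivity
    calc ∑ m ∈ S, ‖f m‖ ^ 2 = ‖((∑ m ∈ S, ‖f m‖ ^ 2 : ℝ) : ℂ)‖ := by
          rw [Complex.norm_real, Real.norm_of_nonneg hnn]
      _ = ‖∑ i ∈ range W, ∑ j ∈ range W,
            ∑ m ∈ S, ex (h * ((b : ℝ) ^ i - (b : ℝ) ^ j) * α m)‖ := by rw [hsum]
      _ ≤ ∑ i ∈ range W, ∑ j ∈ range W,
            ((if i = j then (S.card : ℝ) else 0) + η * S.card) := by
          refine (norm_sum_le _ _).trans (Finset.sum_le_sum fun i hi => ?_)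
          exact (norm_sum_le _ _).trans (Finset.sum_le_sum fun j hj => hterm i hi j hj)
      _ = W * S.card + (W : ℝ) ^ 2 * (η * S.card) := by
          simp only [Finset.sum_add_distrib, Finset.sum_const, Finset.card_range, nsmul_eq_mul,
            Finset.sum_ite_eq, Finset.mem_range]
          have : ∑ x ∈ range W, (if x < W then (S.card : ℝ) else 0) = W * S.card := by
            rw [Finset.sum_congr rfl (g := fun _ => (S.card : ℝ))
              (fun x hx => by rw [if_pos (Finset.mem_range.mp hx)])]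
            simp
          rw [this]
          ring
  -- Markov
  set E := S.filter (fun m => l * W < ‖f m‖) with hE
  have h3 : (E.card : ℝ) * (l * W) ^ 2 ≤ ∑ m ∈ S, ‖f m‖ ^ 2 := by
    calc (E.card : ℝ) * (l * W) ^ 2 = ∑ m ∈ E, (l * W) ^ 2 := by simp
      _ ≤ ∑ m ∈ E, ‖f m‖ ^ 2 := by
          refine Finset.sum_le_sum fun m hm => ?_
          have := (Finset.mem_filter.mp hm).2
          exact pow_le_pow_left₀ (by positivity) this.le 2
      _ ≤ ∑ m ∈ S, ‖f m‖ ^ 2 :=
          Finset.sum_le_sum_of_subset_of_nonneg (Finset.filter_subset _ _)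
            (fun _ _ _ => by positivity)
  have h4 : (E.card : ℝ) ≤ (1 / W + η) / l ^ 2 * S.card := by
    have h5 := h3.trans h2
    have h6 : (1 / (W : ℝ) + η) / l ^ 2 * S.card =
        (W * S.card + (W : ℝ) ^ 2 * (η * S.card)) / (l * W) ^ 2 := by
      field_simp
    rw [h6, le_div_iff₀ (by positivity)]
    exact h5
  exact h4

end Pool.Agent.SMP
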