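import Pool.Agent.SMP.Stmts

set_option autoImplicit false

namespace Pool.Agent.SMP

open Finset

namespace DG2X

open MeasureTheory

/-- Fourier monomials and `ex` -/
theorem fourier_ex (n : ℤ) (x : ℝ) : fourier n (x : UnitAddCircle) = ex (n * x) := by
  rw [fourier_coe_apply]
  unfold ex
  congr 1
  push_cast
  ring

theorem integral_fourier {n : ℤ} (hn : n ≠ 0) : ∫ x : UnitAddCircle, fourier n x = 0 :=
  integral_eq_zero_of_add_right_eq_neg (fourier_add_half_inv_index hn one_pos)

/-- Weyl's criterion, quantitative upper bound for a continuous function -/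
theorem weyl (g : C(UnitAddCircle, ℝ)) (δ : ℝ) (hδ : 0 < δ) : ∃ (h0 : ℕ) (l : ℝ), 0 < l ∧
    ∀ (W : ℕ) (t : ℕ → ℝ), 1 ≤ W →
      (∀ h : ℤ, h ≠ 0 → |h| ≤ h0 → ‖∑ i ∈ range W, ex (h * t i)‖ ≤ l * W) →
      ∑ i ∈ range W, g (t i : UnitAddCircle) ≤ ((∫ x, g x) + δ) * W := by
  let g' : C(UnitAddCircle, ℂ) := ⟨fun x => (g x : ℂ), by fun_prop⟩
  have hmem : g' ∈ (Submodule.span ℂ (Set.range (@fourier (1 : ℝ)))).topologicalClosure := by
    rw [span_fourier_closure_eq_top]
    exact Submodule.mem_top
  obtain ⟨p, hp, hpd⟩ := Metric.mem_closure_iff.1 hmem (δ / 4) (by linarith)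
  obtain ⟨c, hc⟩ := Finsupp.mem_span_range_iff_exists_finsupp.1 hp
  -- the coefficients
  set A : ℝ := ∑ n ∈ c.support, ‖c n‖ with hA
  have hA0 : 0 ≤ A := sum_nonneg fun n _ => norm_nonneg _
  set h0 : ℕ := c.support.sup (fun n : ℤ => n.natAbs) with hh0
  have hpx : ∀ x : UnitAddCircle, p x = ∑ n ∈ c.support, c n * fourier n x := by
    intro x
    rw [← hc]
    unfold Finsupp.sum
    rw [ContinuousMap.coe_sum, Finset.sum_apply]
    rfl
  have hnorm : ∀ x : UnitAddCircle, ‖g' x - p x‖ ≤ δ / 4 := by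
    intro x
    have h1 := ContinuousMap.norm_coe_le_norm (g' - p) x
    rw [← dist_eq_norm] at h1
    have h2 : (g' - p) x = g' x - p x := rfl
    rw [h2] at h1
    linarith
  have hcont : ∀ f : C(UnitAddCircle, ℂ), Integrable (fun x : UnitAddCircle => f x) :=
    fun f => f.continuous.integrable_of_hasCompactSupport (HasCompactSupport.of_compactSpace _)
  have hpint : ∫ x : UnitAddCircle, p x = c 0 := by
    have e1 : ∫ x : UnitAddCircle, p x = ∑ n ∈ c.support, c n * ∫ x : UnitAddCircle, fourier n x := by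
      rw [integral_congr_ae (Filter.Eventually.of_forall hpx), integral_finsetSum]
      · refine sum_congr rfl fun n _ => ?_
        rw [integral_const_mul]
      · intro n _
        exact (hcont (fourier n)).const_mul _
    rw [e1]
    have e2 : ∀ n ∈ c.support, n ≠ 0 → c n * ∫ x : UnitAddCircle, fourier n x = 0 := by
      intro n _ hn
      rw [integral_fourier hn, mul_zero]
    have e3 : ∫ x : UnitAddCircle, fourier 0 x = 1 := by
      have : ∀ x : UnitAddCircle, fourier 0 x = (1 : ℂ) := fun x => fourier_zero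
      rw [integral_congr_ae (Filter.Eventually.of_forall this), integral_const, measureReal_def,
        UnitAddCircle.measure_univ, ENNReal.toReal_one, one_smul]
    by_cases h : (0 : ℤ) ∈ c.support
    · rw [sum_eq_single_of_mem 0 h e2, e3, mul_one]
    · rw [sum_eq_zero, Finsupp.notMem_support_iff.1 h]
      intro n hn
      exact e2 n hn (by rintro rfl; exact h hn)
  have hgint : ∫ x : UnitAddCircle, g' x = ((∫ x, g x : ℝ) : ℂ) := by
    show ∫ x : UnitAddCircle, ((g x : ℝ) : ℂ) = _
    exact integral_ofReal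
  have hdiff : ‖((∫ x, g x : ℝ) : ℂ) - c 0‖ ≤ δ / 4 := by
    rw [← hgint, ← hpint, ← integral_sub (hcont g') (hcont p)]
    have := norm_integral_le_of_norm_le_const (μ := (volume : Measure UnitAddCircle))
      (f := fun x : UnitAddCircle => g' x - p x) (Filter.Eventually.of_forall hnorm)
    rwa [measureReal_def, UnitAddCircle.measure_univ, ENNReal.toReal_one, mul_one] at this
  refine ⟨h0, δ / (4 * (A + 1)), by positivity, fun W t hW hweyl => ?_⟩
  have hW0 : (0 : ℝ) < W := by exact_mod_cast hW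
  have hsum : ‖∑ i ∈ range W, p (t i : UnitAddCircle) - c 0 * W‖ ≤ δ / 4 * W := by
    have e1 : ∑ i ∈ range W, p (t i : UnitAddCircle) =
        ∑ n ∈ c.support, c n * ∑ i ∈ range W, ex (n * t i) := by
      rw [sum_congr rfl fun i _ => hpx (t i : UnitAddCircle), sum_comm]
      refine sum_congr rfl fun n _ => ?_
      rw [mul_sum]
      refine sum_congr rfl fun i _ => ?_
      rw [fourier_ex]
    have e2 : c 0 * W = ∑ n ∈ c.support, if n = 0 then c 0 * W else 0 := by
      rw [sum_ite_eq']
      split_ifs with h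
      · rfl
      · rw [Finsupp.notMem_support_iff.1 h, zero_mul]
    rw [e1, e2, ← sum_sub_distrib]
    refine (norm_sum_le _ _).trans ?_
    have e3 : ∀ n ∈ c.support, ‖c n * ∑ i ∈ range W, ex (n * t i) -
        (if n = 0 then c 0 * W else 0)‖ ≤ ‖c n‖ * (δ / (4 * (A + 1)) * W) := by
      intro n hn
      split_ifs with h
      · subst h
        have : ∀ i ∈ range W, ex (((0 : ℤ) : ℝ) * t i) = 1 := by
          intro i _
          unfold ex
          simp
        rw [sum_congr rfl this, sum_const, card_range, nsmul_eq_mul, mul_one, sub_self, norm_zero]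
        positivity
      · rw [sub_zero, norm_mul]
        refine mul_le_mul_of_nonneg_left (hweyl n h ?_) (norm_nonneg _)
        have h1 : n.natAbs ≤ h0 := le_sup (f := fun n : ℤ => n.natAbs) hn
        rw [Int.abs_eq_natAbs]
        exact_mod_cast h1
    refine (sum_le_sum e3).trans ?_
    rw [← sum_mul, ← hA]
    have e4 : A * (δ / (4 * (A + 1)) * W) = (A / (A + 1)) * (δ / 4 * W) := by
      field_simp
    rw [e4]
    have e5 : A / (A + 1) ≤ 1 := by
      rw [div_le_one (by linarith)]
      linarith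
    have e6 : 0 ≤ δ / 4 * W := by positivity
    nlinarith
  have hgp : ‖∑ i ∈ range W, g' (t i : UnitAddCircle) - ∑ i ∈ range W, p (t i : UnitAddCircle)‖ ≤
      δ / 4 * W := by
    rw [← sum_sub_distrib]
    refine (norm_sum_le _ _).trans ?_
    refine (sum_le_sum fun i _ => hnorm (t i : UnitAddCircle)).trans (le_of_eq ?_)
    rw [sum_const, card_range, nsmul_eq_mul]
    ring
  have hfin : ‖((∑ i ∈ range W, g (t i : UnitAddCircle) - (∫ x, g x) * W : ℝ) : ℂ)‖ ≤
      δ * W := by
    have e1 : ((∑ i ∈ range W, g (t i : UnitAddCircle) - (∫ x, g x) * W : ℝ) : ℂ) =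
        (∑ i ∈ range W, g' (t i : UnitAddCircle) - ∑ i ∈ range W, p (t i : UnitAddCircle)) +
        (∑ i ∈ range W, p (t i : UnitAddCircle) - c 0 * W) -
        (((∫ x, g x : ℝ) : ℂ) - c 0) * W := by
      push_cast
      have : ∀ i, g' (t i : UnitAddCircle) = ((g (t i : UnitAddCircle) : ℝ) : ℂ) := fun i => rfl
      simp only [this]
      ring
    rw [e1]
    refine (norm_sub_le _ _).trans ?_
    refine (add_le_add (norm_add_le _ _) le_rfl).trans ?_
    have e2 : ‖(((∫ x, g x : ℝ) : ℂ) - c 0) * W‖ ≤ δ / 4 * W := by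
      rw [norm_mul, Complex.norm_natCast]
      exact mul_le_mul_of_nonneg_right hdiff hW0.le
    have e3 : 0 ≤ δ * W := by positivity
    linarith
  rw [Complex.norm_real, Real.norm_eq_abs] at hfin
  have := (abs_le.1 hfin).2
  linarith

/-- the majorant of an arc -/
noncomputable def maj (r η : ℝ) (a : UnitAddCircle) : C(UnitAddCircle, ℝ) :=
  ⟨fun x => min 1 (max 0 ((r + η - ‖x - a‖) / η)), by fun_prop⟩

theorem maj_apply (r η : ℝ) (a x : UnitAddCircle) :
    maj r η a x = min 1 (max 0 ((r + η - ‖x - a‖) / η)) := rfl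

theorem maj_nonneg (r η : ℝ) (a x : UnitAddCircle) : 0 ≤ maj r η a x := by
  rw [maj_apply]
  exact le_min zero_le_one (le_max_left _ _)

theorem maj_eq_one {r η : ℝ} (hη : 0 < η) {a x : UnitAddCircle} (h : ‖x - a‖ ≤ r) :
    maj r η a x = 1 := by
  rw [maj_apply]
  apply min_eq_left
  refine le_max_of_le_right ?_
  rw [le_div_iff₀ hη]
  linarith

theorem maj_le {r η : ℝ} (hη : 0 < η) (a x : UnitAddCircle) :
    maj r η a x ≤ (Metric.closedBall a (r + η)).indicator (fun _ => (1 : ℝ)) x := by
  by_cases h : x ∈ Metric.closedBall a (r + η)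
  · rw [Set.indicator_of_mem h, maj_apply]
    exact min_le_left _ _
  · rw [Set.indicator_of_notMem h, maj_apply]
    refine (min_le_right _ _).trans ?_
    rw [Metric.mem_closedBall, dist_eq_norm, not_le] at h
    apply max_le le_rfl
    apply div_nonpos_of_nonpos_of_nonneg _ hη.le
    linarith

theorem integral_maj_le {r η : ℝ} (hr : 0 ≤ r) (hη : 0 < η) (a : UnitAddCircle) :
    ∫ x, maj r η a x ≤ 2 * (r + η) := by
  have h1 : ∫ x, maj r η a x ≤
      ∫ x, (Metric.closedBall a (r + η)).indicator (fun _ => (1 : ℝ)) x := by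
    apply integral_mono
    · exact (maj r η a).continuous.integrable_of_hasCompactSupport
        (HasCompactSupport.of_compactSpace _)
    · exact (integrable_const (1 : ℝ)).indicator Metric.isClosed_closedBall.measurableSet
    · exact maj_le hη a
  refine h1.trans ?_
  rw [integral_indicator_const _ Metric.isClosed_closedBall.measurableSet, smul_eq_mul, mul_one,
    Measure.real, AddCircle.volume_closedBall, ENNReal.toReal_ofReal]
  · exact min_le_right _ _
  · exact le_min zero_le_one (by positivity)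

/-- points of the interval are in the arc -/
theorem norm_le_of_floor {N : ℕ} (hN : 1 ≤ N) (w : ℕ) (t : ℝ)
    (h : ⌊(N : ℝ) * Int.fract t⌋ = (w : ℤ)) :
    ‖(t : UnitAddCircle) - (((2 * w + 1 : ℝ) / (2 * N) : ℝ) : UnitAddCircle)‖ ≤
      1 / (2 * (N : ℝ)) := by
  have hN0 : (0 : ℝ) < N := by exact_mod_cast hN
  have e1 : (t : UnitAddCircle) = ((Int.fract t : ℝ) : UnitAddCircle) :=
    (AddCircle.coe_fract t).symm
  rw [e1, ← AddCircle.coe_sub, UnitAddCircle.norm_eq]
  refine (round_le _ 0).trans ?_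
  rw [Int.cast_zero, sub_zero]
  have h1 := Int.floor_le ((N : ℝ) * Int.fract t)
  have h2 := Int.lt_floor_add_one ((N : ℝ) * Int.fract t)
  rw [h] at h1 h2
  push_cast at h1 h2
  have e2 : Int.fract t - (2 * w + 1 : ℝ) / (2 * N) =
      (2 * (N * Int.fract t) - (2 * w + 1)) / (2 * N) := by
    field_simp
  rw [e2, abs_div, abs_of_pos (show (0 : ℝ) < 2 * N by positivity)]
  refine div_le_div_of_nonneg_right ?_ (by positivity)
  rw [abs_le]
  constructor <;> linarith

/-- upper bound for one interval -/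
theorem upper (N : ℕ) (ε : ℝ) (hN : 1 ≤ N) (hε : 0 < ε) (w : ℕ) : ∃ (h0 : ℕ) (l : ℝ), 0 < l ∧
    ∀ (W : ℕ) (t : ℕ → ℝ), 1 ≤ W →
      (∀ h : ℤ, h ≠ 0 → |h| ≤ h0 → ‖∑ i ∈ range W, ex (h * t i)‖ ≤ l * W) →
      (((range W).filter (fun i => ⌊N * Int.fract (t i)⌋ = (w : ℤ))).card : ℝ) ≤
        (1 / N + ε) * W := by
  have hN0 : (0 : ℝ) < N := by exact_mod_cast hN
  set a : UnitAddCircle := (((2 * w + 1 : ℝ) / (2 * N) : ℝ) : UnitAddCircle) with ha
  obtain ⟨h0, l, hl, hmain⟩ := weyl (maj (1 / (2 * N)) (ε / 4) a) (ε / 2) (by linarith)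
  refine ⟨h0, l, hl, fun W t hW hweyl => ?_⟩
  have h1 := hmain W t hW hweyl
  have h2 := integral_maj_le (r := 1 / (2 * (N : ℝ))) (η := ε / 4) (by positivity)
    (by linarith) a
  have h3 : (((range W).filter (fun i => ⌊N * Int.fract (t i)⌋ = (w : ℤ))).card : ℝ) ≤
      ∑ i ∈ range W, maj (1 / (2 * N)) (ε / 4) a (t i : UnitAddCircle) := by
    have h4 : (((range W).filter (fun i => ⌊N * Int.fract (t i)⌋ = (w : ℤ))).card : ℝ) =
        ∑ i ∈ (range W).filter (fun i => ⌊N * Int.fract (t i)⌋ = (w : ℤ)),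
          maj (1 / (2 * N)) (ε / 4) a (t i : UnitAddCircle) := by
      rw [sum_congr rfl fun i hi => maj_eq_one (by linarith)
        (norm_le_of_floor hN w (t i) (mem_filter.1 hi).2), sum_const, nsmul_eq_mul, mul_one]
    rw [h4]
    exact sum_le_sum_of_subset_of_nonneg (filter_subset _ _) fun i _ _ => maj_nonneg _ _ _ _
  refine h3.trans (h1.trans ?_)
  refine mul_le_mul_of_nonneg_right ?_ (Nat.cast_nonneg _)
  have e : 2 * (1 / (2 * (N : ℝ)) + ε / 4) = 1 / N + ε / 2 := by
    field_simp
    ring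
  rw [e] at h2
  linarith

end DG2X

open DG2X in
theorem dg2_proof : Stmt_DG2 := by
  intro N ε hN hε
  have hN0 : (0 : ℝ) < N := by exact_mod_cast hN
  choose h0 l hl hmain using fun w : ℕ => upper N (ε / N) hN (by positivity) w
  have hne : (range N).Nonempty := ⟨0, mem_range.2 hN⟩
  obtain ⟨w0, hw0, hw0'⟩ := exists_min_image (range N) l hne
  set l' : ℝ := l w0 with hl'
  refine ⟨(range N).sup h0, l', hl w0, fun W t hW hweyl => ?_⟩
  · have hW0 : (0 : ℝ) < W := by exact_mod_cast hW
    set F : ℕ → Finset ℕ := fun w =>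
      (range W).filter (fun i => ⌊N * Int.fract (t i)⌋ = (w : ℤ)) with hF
    have hup : ∀ w < N, ((F w).card : ℝ) ≤ (1 / N + ε / N) * W := by
      intro w hw
      refine hmain w W t hW fun h hh hh' => ?_
      have h1 : ((h0 w : ℕ) : ℤ) ≤ ((range N).sup h0 : ℕ) := by
        exact_mod_cast le_sup (f := h0) (mem_range.2 hw)
      by_cases hcase : |h| ≤ ((range N).sup h0 : ℕ)
      · refine (hweyl h hh hcase).trans ?_
        exact mul_le_mul_of_nonneg_right (hw0' w (mem_range.2 hw)) hW0.le
      · exact absurd (hh'.trans h1) hcase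
    have htot : ∑ w ∈ range N, ((F w).card : ℝ) = W := by
      have h1 : (range W).card = ∑ w ∈ range N, (F w).card := by
        have h2 := card_eq_sum_card_fiberwise (f := fun i => (⌊N * Int.fract (t i)⌋).toNat)
          (s := range W) (t := range N) ?_
        · rw [h2]
          refine sum_congr rfl fun w _ => ?_
          congr 1
          rw [hF]
          ext i
          simp only [mem_filter]
          have h3 : (0 : ℤ) ≤ ⌊(N : ℝ) * Int.fract (t i)⌋ :=
            Int.floor_nonneg.2 (mul_nonneg hN0.le (Int.fract_nonneg _))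
          constructor
          · rintro ⟨h4, h5⟩
            exact ⟨h4, by omega⟩
          · rintro ⟨h4, h5⟩
            exact ⟨h4, by omega⟩
        · intro i _
          rw [mem_coe, mem_range]
          have h3 : (0 : ℤ) ≤ ⌊(N : ℝ) * Int.fract (t i)⌋ :=
            Int.floor_nonneg.2 (mul_nonneg hN0.le (Int.fract_nonneg _))
          have h4 : ⌊(N : ℝ) * Int.fract (t i)⌋ < (N : ℤ) := by
            rw [Int.floor_lt]
            push_cast
            have := Int.fract_lt_one (t i)
            nlinarith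
          show (⌊(N : ℝ) * Int.fract (t i)⌋).toNat < N
          omega
      rw [card_range] at h1
      rw [← Nat.cast_sum, ← h1]
    intro w hw
    have e1 : (((range W).filter (fun i => ⌊N * Int.fract (t i)⌋ = (w : ℤ))).card : ℝ) =
        ((F w).card : ℝ) := rfl
    rw [e1, abs_le]
    have hlow : W - (N - 1) * ((1 / N + ε / N) * W) ≤ ((F w).card : ℝ) := by
      rw [← sum_erase_add _ _ (mem_range.2 hw)] at htot
      have h1 : ∑ w' ∈ (range N).erase w, ((F w').card : ℝ) ≤ (N - 1) * ((1 / N + ε / N) * W) := by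
        refine (sum_le_card_nsmul _ _ _ fun w' hw' =>
          hup w' (mem_range.1 (mem_of_mem_erase hw'))).trans (le_of_eq ?_)
        rw [card_erase_of_mem (mem_range.2 hw), card_range, nsmul_eq_mul, Nat.cast_sub hN]
        push_cast
        ring
      linarith
    constructor
    · rw [le_sub_iff_add_le, le_div_iff₀ hW0]
      refine le_trans ?_ hlow
      have e2 : (N - 1 : ℝ) * ((1 / N + ε / N) * W) = (1 - 1 / N) * ((1 + ε) * W) := by
        field_simp
      rw [e2]
      have h3 : 0 ≤ 1 / (N : ℝ) * (ε * W) := by positivity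
      nlinarith
    · rw [sub_le_iff_le_add, div_le_iff₀ hW0]
      refine (hup w hw).trans ?_
      refine mul_le_mul_of_nonneg_right ?_ hW0.le
      have h4 : ε / N ≤ ε := div_le_self hε.le (by exact_mod_cast hN)
      linarith

end Pool.Agent.SMP
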