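import Pool.Agent.SMP.Stmts

/-!
# Squad SMP (MP_57632f_nt), module DG3: digits and intervals
-/

set_option autoImplicit false

namespace Pool.Agent.SMP

open Finset

namespace DG3X

/-- the integer part of `x b ^ j` -/
noncomputable def A (b : ℕ) (x : ℝ) (j : ℕ) : ℤ := ⌊x * (b : ℝ) ^ j⌋

theorem A_succ_ediv {b : ℕ} (hb : 2 ≤ b) (x : ℝ) (j : ℕ) : A b x (j + 1) / (b : ℤ) = A b x j := by
  have hb0 : (0 : ℝ) < b := by exact_mod_cast (by omega : 0 < b)
  have hb1 : (0 : ℤ) < b := by exact_mod_cast (by omega : 0 < b)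
  rw [A, A]
  apply le_antisymm
  · rw [Int.le_floor]
    have h1 : ((⌊x * (b : ℝ) ^ (j + 1)⌋ / (b : ℤ) : ℤ) : ℝ) * b ≤ ⌊x * (b : ℝ) ^ (j + 1)⌋ := by
      exact_mod_cast Int.ediv_mul_le _ hb1.ne'
    have h2 := Int.floor_le (x * (b : ℝ) ^ (j + 1))
    have h3 : x * (b : ℝ) ^ (j + 1) = x * (b : ℝ) ^ j * b := by ring
    rw [h3] at h1 h2
    rw [h3]
    exact le_of_mul_le_mul_right (h1.trans h2) hb0
  · rw [Int.le_ediv_iff_mul_le hb1, Int.le_floor]
    push_cast
    have h2 := Int.floor_le (x * (b : ℝ) ^ j)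
    have h3 : x * (b : ℝ) ^ (j + 1) = x * (b : ℝ) ^ j * b := by ring
    rw [h3]
    exact mul_le_mul_of_nonneg_right h2 hb0.le

theorem dig_eq {b : ℕ} (hb : 2 ≤ b) (x : ℝ) (j : ℕ) :
    dig b x (j + 1) = A b x (j + 1) - b * A b x j := by
  have h := Int.mul_ediv_add_emod (A b x (j + 1)) (b : ℤ)
  rw [A_succ_ediv hb] at h
  rw [dig, ← A]
  linarith

theorem dig_range {b : ℕ} (hb : 2 ≤ b) (x : ℝ) (j : ℕ) : 0 ≤ dig b x j ∧ dig b x j < b := by
  have hb1 : (0 : ℤ) < b := by exact_mod_cast (by omega : 0 < b)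
  exact ⟨Int.emod_nonneg _ hb1.ne', Int.emod_lt_of_pos _ hb1⟩

theorem floor_fract (b n : ℕ) (x : ℝ) (i : ℕ) :
    ⌊((b ^ n : ℕ) : ℝ) * Int.fract ((b : ℝ) ^ i * x)⌋ = A b x (i + n) - (b : ℤ) ^ n * A b x i := by
  have h1 : ((b ^ n : ℕ) : ℝ) * Int.fract ((b : ℝ) ^ i * x) =
      x * (b : ℝ) ^ (i + n) - (((b : ℤ) ^ n * A b x i : ℤ) : ℝ) := by
    rw [Int.fract, A]
    push_cast
    rw [mul_comm ((b : ℝ) ^ i) x, pow_add]
    ring
  rw [h1, Int.floor_sub_intCast]
  rfl

end DG3X

open DG3X in
theorem dg3_proof : Stmt_DG3 := by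
  intro b n w hb
  have hb1 : (0 : ℤ) < b := by exact_mod_cast (by omega : 0 < b)
  induction n with
  | zero =>
    intro _
    refine ⟨0, by simp, fun x i => ?_⟩
    constructor
    · intro _
      rw [floor_fract]
      simp
    · intro _ t ht
      omega
  | succ n ih =>
    intro hw
    obtain ⟨v, hv, h⟩ := ih fun t ht => hw t (by omega)
    have hwn := hw n (by omega)
    refine ⟨b * v + w n, ?_, fun x i => ?_⟩
    · calc b * v + w n < b * v + b := by omega
        _ = b * (v + 1) := by ring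
        _ ≤ b * b ^ n := Nat.mul_le_mul_left _ hv
        _ = b ^ (n + 1) := by ring
    · have h1 : (∀ t < n + 1, dig b x (i + 1 + t) = w t) ↔
          (∀ t < n, dig b x (i + 1 + t) = w t) ∧ dig b x (i + 1 + n) = w n := by
        constructor
        · intro h2
          exact ⟨fun t ht => h2 t (by omega), h2 n (by omega)⟩
        · rintro ⟨h2, h3⟩ t ht
          rcases Nat.lt_succ_iff_lt_or_eq.1 ht with h4 | h4
          · exact h2 t h4
          · rw [h4]
            exact h3
      rw [h1, h x i, floor_fract, floor_fract]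
      have h2 : i + 1 + n = (i + n) + 1 := by ring
      have h3 := dig_range hb x (i + n + 1)
      have h4 := dig_eq hb x (i + n)
      rw [h2, h4]
      rw [h4] at h3
      rw [show i + (n + 1) = i + n + 1 by ring]
      push_cast
      set E : ℤ := A b x (i + n) - (b : ℤ) ^ n * A b x i with hE
      set D : ℤ := A b x (i + n + 1) - b * A b x (i + n) with hD
      have h5 : A b x (i + n + 1) - (b : ℤ) ^ (n + 1) * A b x i = b * E + D := by
        rw [hE, hD]
        ring
      rw [h5]
      constructor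
      · rintro ⟨h6, h7⟩
        rw [h6, h7]
      · intro h6
        have h7 : (w n : ℤ) < b := by exact_mod_cast hwn
        have h8 : (0 : ℤ) ≤ w n := Int.natCast_nonneg _
        have h9 : E = v := by
          have h10 : (b : ℤ) * (E - v) = w n - D := by linarith
          by_contra h11
          rcases lt_or_gt_of_ne h11 with h12 | h12
          · have : E - v ≤ -1 := by omega
            nlinarith
          · have : 1 ≤ E - v := by omega
            nlinarith
        refine ⟨h9, ?_⟩
        rw [h9] at h6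
        linarith

end Pool.Agent.SMP
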