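import Pool.Agent.SMP.Stmts

set_option autoImplicit false

namespace Pool.Agent.SMP

open Finset

namespace DG4X

/-- a common positive lower bound of finitely many positive numbers -/
theorem exists_low (g : ℕ → ℝ) (M : ℕ) (hg : ∀ N, 1 ≤ N → 0 < g N) :
    ∃ lam : ℝ, 0 < lam ∧ ∀ N, 1 ≤ N → N ≤ M → lam ≤ g N := by
  induction M with
  | zero => exact ⟨1, one_pos, fun N h1 h2 => by omega⟩
  | succ M ih =>
    obtain ⟨lam, h1, h2⟩ := ih
    refine ⟨min lam (g (M + 1)), lt_min h1 (hg _ (by omega)), ?_⟩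
    intro N hN hM
    rcases Nat.lt_or_ge M N with h | h
    · have : N = M + 1 := by omega
      subst this
      exact min_le_right _ _
    · exact (min_le_left _ _).trans (h2 N hN h)

theorem pow_bd {b B n l : ℕ} (hb : 2 ≤ b) (hB : b ≤ B) (hn : n ≤ l) : b ^ n ≤ B ^ l :=
  (Nat.pow_le_pow_left hB n).trans (Nat.pow_le_pow_right (by omega) hn)

theorem diff_bd {b B W i i' : ℕ} (hb : 2 ≤ b) (hB : b ≤ B) (hi : i < W) (hi' : i' < W) :
    |(b : ℝ) ^ i - (b : ℝ) ^ i'| ≤ (B : ℝ) ^ W := by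
  have h1 : ((b ^ i : ℕ) : ℝ) ≤ ((B ^ W : ℕ) : ℝ) := by exact_mod_cast pow_bd hb hB hi.le
  have h2 : ((b ^ i' : ℕ) : ℝ) ≤ ((B ^ W : ℕ) : ℝ) := by exact_mod_cast pow_bd hb hB hi'.le
  push_cast at h1 h2
  have h3 : (0 : ℝ) ≤ (b : ℝ) ^ i := by positivity
  have h4 : (0 : ℝ) ≤ (b : ℝ) ^ i' := by positivity
  rw [abs_le]
  constructor <;> linarith

end DG4X

open DG4X in
theorem dg4_proof (h1 : Stmt_DG1) (h2 : Stmt_DG2) (h3 : Stmt_DG3) : Stmt_DG4 := by
  classical
  intro B l ε hε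
  have hc : ∀ N : ℕ, ∃ (h0 : ℕ) (lam : ℝ), 1 ≤ N → 0 < lam ∧
    ∀ (W : ℕ) (t : ℕ → ℝ), 1 ≤ W →
      (∀ h : ℤ, h ≠ 0 → |h| ≤ h0 → ‖∑ i ∈ range W, ex (h * t i)‖ ≤ lam * W) →
      ∀ w < N, |(((range W).filter (fun i => ⌊N * Int.fract (t i)⌋ = (w : ℤ))).card : ℝ) / W -
        1 / N| ≤ ε := by
    intro N
    rcases Nat.eq_zero_or_pos N with h | h
    · exact ⟨0, 1, fun h' => by omega⟩
    · obtain ⟨a, c, h4⟩ := h2 N ε h hε
      exact ⟨a, c, fun _ => h4⟩
  choose f g hfg using hc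
  obtain ⟨lam, hlam, hlow⟩ := exists_low g (B ^ l) (fun N hN => (hfg N hN).1)
  set H : ℕ := ∑ N ∈ Icc 1 (B ^ l), f N with hH
  have hfH : ∀ N, 1 ≤ N → N ≤ B ^ l → f N ≤ H := by
    intro N h4 h5
    exact Finset.single_le_sum (f := f) (fun _ _ => Nat.zero_le _) (Finset.mem_Icc.2 ⟨h4, h5⟩)
  set K : ℝ := (B : ℝ) * (2 * H + 1) + 1 with hK
  have hK0 : 0 < K := by positivity
  set η : ℝ := ε * lam ^ 2 / (2 * K) with hη
  have hη0 : 0 < η := by positivity
  refine ⟨H, η, ⌈1 / η⌉₊ + 1, hη0, ?_⟩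
  intro S α W hW hexp
  have hW1 : 1 ≤ W := by omega
  have hW0 : (0 : ℝ) < W := by exact_mod_cast hW1
  have hWη : 1 / (W : ℝ) ≤ η := by
    have h4 : 1 / η ≤ W := (Nat.le_ceil _).trans (by exact_mod_cast (by omega : ⌈1 / η⌉₊ ≤ W))
    rw [div_le_iff₀ hW0]
    rw [div_le_iff₀ hη0] at h4
    linarith
  let J : Finset ℤ := (Finset.Icc (-(H : ℤ)) H).erase 0
  let T : Finset (ℕ × ℤ) := (Finset.Icc 2 B) ×ˢ J
  let bad : ℕ × ℤ → Finset ℕ := fun w => S.filter (fun m =>
    lam * W < ‖∑ i ∈ range W, ex (w.2 * ((w.1 : ℝ) ^ i * α m))‖)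
  have hbad : ∀ w ∈ T, ((bad w).card : ℝ) ≤ ε / K * S.card := by
    rintro ⟨b, h⟩ hw
    rw [Finset.mem_product, Finset.mem_Icc, Finset.mem_erase, Finset.mem_Icc] at hw
    obtain ⟨⟨hb, hbB⟩, hh0, hh1, hh2⟩ := hw
    simp only at hb hbB hh0 hh1 hh2
    have h4 := h1 S α b W h η lam hW1 hlam hη0.le ?_
    · refine h4.trans ?_
      apply mul_le_mul_of_nonneg_right _ (Nat.cast_nonneg _)
      rw [div_le_div_iff₀ (by positivity) hK0]
      have h5 : 2 * K * η = ε * lam ^ 2 := by rw [hη]; field_simp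
      nlinarith
    · intro i hi i' hi' hne
      have h5 : (h * ((b : ℤ) ^ i - (b : ℤ) ^ i')) ≠ 0 := by
        apply mul_ne_zero hh0
        rw [sub_ne_zero]
        intro h6
        exact hne (Nat.pow_right_injective hb (by exact_mod_cast h6))
      have h6 := hexp (h * ((b : ℤ) ^ i - (b : ℤ) ^ i')) h5 ?_
      · push_cast at h6
        exact h6
      · push_cast
        rw [abs_mul]
        apply mul_le_mul _ (diff_bd hb hbB hi hi') (abs_nonneg _) (Nat.cast_nonneg _)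
        rw [abs_le]
        constructor
        · have : ((-(H : ℤ) : ℤ) : ℝ) ≤ (h : ℝ) := by exact_mod_cast hh1
          push_cast at this
          exact this
        · exact_mod_cast hh2
  refine ⟨T.biUnion bad, ?_, ?_, ?_⟩
  · intro m hm
    rw [Finset.mem_biUnion] at hm
    obtain ⟨w, -, hw⟩ := hm
    exact (Finset.mem_filter.1 hw).1
  · have h4 : ((T.biUnion bad).card : ℝ) ≤ ∑ w ∈ T, ((bad w).card : ℝ) := by
      exact_mod_cast Finset.card_biUnion_le
    have h5 : ∑ w ∈ T, ((bad w).card : ℝ) ≤ T.card * (ε / K * S.card) := by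
      calc ∑ w ∈ T, ((bad w).card : ℝ) ≤ ∑ _w ∈ T, ε / K * S.card := Finset.sum_le_sum hbad
        _ = T.card * (ε / K * S.card) := by rw [Finset.sum_const, nsmul_eq_mul]
    have h6 : (T.card : ℝ) ≤ K := by
      have h7 : T.card = (Finset.Icc 2 B).card * J.card := Finset.card_product _ _
      have h8 : (Finset.Icc 2 B).card ≤ B := by rw [Nat.card_Icc]; omega
      have h9 : J.card ≤ 2 * H + 1 := by
        refine (Finset.card_erase_le).trans ?_
        rw [Int.card_Icc]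
        omega
      have h10 : T.card ≤ B * (2 * H + 1) := h7 ▸ Nat.mul_le_mul h8 h9
      have h11 : (T.card : ℝ) ≤ (B : ℝ) * (2 * H + 1) := by exact_mod_cast h10
      rw [hK]; linarith
    have h7 : (T.card : ℝ) * (ε / K * S.card) ≤ K * (ε / K * S.card) :=
      mul_le_mul_of_nonneg_right h6 (by positivity)
    have h8 : K * (ε / K * S.card) = ε * S.card := by field_simp
    linarith
  · intro m hm hmE b n w hb hbB hn hw
    obtain ⟨v, hv, hiff⟩ := h3 b n w hb hw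
    have hN1 : 1 ≤ b ^ n := Nat.one_le_pow _ _ (by omega)
    have hN2 : b ^ n ≤ B ^ l := pow_bd hb hbB hn
    have h4 := (hfg (b ^ n) hN1).2 W (fun i => (b : ℝ) ^ i * α m) hW1 ?_ v hv
    · have h5 : frq b (α m) W n w = (((range W).filter (fun i =>
          ⌊((b ^ n : ℕ) : ℝ) * Int.fract ((b : ℝ) ^ i * α m)⌋ = (v : ℤ))).card : ℝ) / W := by
        unfold frq
        congr 2
        congr 1
        apply Finset.filter_congr
        intro i _
        exact hiff (α m) i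
      rw [h5]
      push_cast at h4 ⊢
      exact h4
    · intro h hh hhf
      by_contra h5
      rw [not_le] at h5
      apply hmE
      rw [Finset.mem_biUnion]
      refine ⟨(b, h), ?_, ?_⟩
      · rw [Finset.mem_product, Finset.mem_Icc, Finset.mem_erase, Finset.mem_Icc]
        have h6 : (f (b ^ n) : ℤ) ≤ H := by exact_mod_cast hfH _ hN1 hN2
        rw [abs_le] at hhf
        refine ⟨⟨hb, hbB⟩, hh, ?_, ?_⟩
        · simp only; linarith [hhf.1]
        · simp only; linarith [hhf.2]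
      · rw [Finset.mem_filter]
        refine ⟨hm, ?_⟩
        refine lt_of_le_of_lt ?_ h5
        exact mul_le_mul_of_nonneg_right (hlow _ hN1 hN2) hW0.le

end Pool.Agent.SMP
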