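import Pool.Agent.SMP.Stmts

/-!
# Squad SMP, module DSC: the descent
-/

set_option autoImplicit false

namespace Pool.Agent.SMP

open Finset

namespace DSC_

theorem pow_cond {y y0 j n B : ℕ} {r : ℝ} (hy : 1 ≤ y) (hy0 : 1 ≤ y0) (hyy : y ≤ y0 ^ 3)
    (hr : 0 < r) (h : 2 * r * (y : ℝ) ^ (3 * j) ≤ 1) :
    2 * (r / (y0 : ℝ) ^ n) * (y : ℝ) ^ (j * Uf j B n) ≤ 1 := by
  have hyR : (1 : ℝ) ≤ y := by exact_mod_cast hy
  have hy0R : (1 : ℝ) ≤ y0 := by exact_mod_cast hy0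
  have e1 : j * Uf j B n ≤ 3 * j + j * (n / (3 * j)) := by
    have : Uf j B n ≤ 3 + n / (3 * j) := min_le_left _ _
    calc j * Uf j B n ≤ j * (3 + n / (3 * j)) := Nat.mul_le_mul_left _ this
      _ = 3 * j + j * (n / (3 * j)) := by ring
  have e2 : 3 * (j * (n / (3 * j))) ≤ n := by
    calc 3 * (j * (n / (3 * j))) = 3 * j * (n / (3 * j)) := by ring
      _ ≤ n := Nat.mul_div_le _ _
  have e3 : (y : ℝ) ^ (j * (n / (3 * j))) ≤ (y0 : ℝ) ^ n := by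
    have h1 : (y : ℝ) ≤ (y0 : ℝ) ^ 3 := by exact_mod_cast hyy
    calc (y : ℝ) ^ (j * (n / (3 * j))) ≤ ((y0 : ℝ) ^ 3) ^ (j * (n / (3 * j))) :=
          pow_le_pow_left₀ (by positivity) h1 _
      _ = (y0 : ℝ) ^ (3 * (j * (n / (3 * j)))) := (pow_mul _ _ _).symm
      _ ≤ (y0 : ℝ) ^ n := pow_le_pow_right₀ hy0R e2
  have e4 : (y : ℝ) ^ (j * Uf j B n) ≤ (y : ℝ) ^ (3 * j) * (y0 : ℝ) ^ n := by
    calc (y : ℝ) ^ (j * Uf j B n) ≤ (y : ℝ) ^ (3 * j + j * (n / (3 * j))) :=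
          pow_le_pow_right₀ hyR e1
      _ = (y : ℝ) ^ (3 * j) * (y : ℝ) ^ (j * (n / (3 * j))) := pow_add _ _ _
      _ ≤ (y : ℝ) ^ (3 * j) * (y0 : ℝ) ^ n := by gcongr
  have hpos : (0 : ℝ) < (y0 : ℝ) ^ n := by positivity
  calc 2 * (r / (y0 : ℝ) ^ n) * (y : ℝ) ^ (j * Uf j B n)
      ≤ 2 * (r / (y0 : ℝ) ^ n) * ((y : ℝ) ^ (3 * j) * (y0 : ℝ) ^ n) := by gcongr
    _ = 2 * r * (y : ℝ) ^ (3 * j) := by field_simp
    _ ≤ 1 := h

end DSC_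

open DSC_ in
theorem dsc_proof (hDCA : Stmt_DCA) (hDCB : Stmt_DCB) (hDCC : Stmt_DCC) (hSUM : Stmt_SUM)
    (hCHO : Stmt_CHO) : Stmt_DSC := by
  intro S Q y y0 j B V N β θ r K hS hy hy0 hyy hQ hj hB hV hK hjN hr hry
  have hyR : (1 : ℝ) ≤ y := by exact_mod_cast hy
  have hr2 : r ≤ 1 / 2 := by
    have h1 : (1 : ℝ) ≤ (y : ℝ) ^ (3 * j) := one_le_pow₀ hyR
    have h2 : 2 * r * 1 ≤ 2 * r * (y : ℝ) ^ (3 * j) := by gcongr
    linarith
  have hUB : ∀ n, Uf j B n ≤ B := fun n => min_le_right _ _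
  have hU1 : ∀ n, 1 ≤ Uf j B n := fun n =>
    le_min (le_trans (by norm_num) (Nat.le_add_right 3 (n / (3 * j)))) hB
  have hA := hDCA S Q y y0 j B V β θ r (Uf j B) hS hy0 hQ hj hB hr2 hUB
  have hC := hDCC S Q θ r B V j N
  have hQ' : ∀ p ∈ Q, p.Prime ∧ p ≤ y := fun p hp => ⟨(hQ p hp).1, (hQ p hp).2.2⟩
  have hE : ∀ n, ((EE S Q θ (r / (y0 : ℝ) ^ n) (Uf j B n) j).card : ℝ) ≤
      (S.card : ℝ) / (Uf j B n : ℝ) ^ j := by
    intro n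
    have hp : (0 : ℝ) < (Uf j B n : ℝ) ^ j := by
      have : (0 : ℝ) < (Uf j B n : ℝ) := by exact_mod_cast hU1 n
      positivity
    rw [le_div_iff₀ hp]
    exact hDCB S Q y j (Uf j B n) β θ (r / (y0 : ℝ) ^ n) hS hQ' hj (hU1 n)
      (pow_cond hy hy0 hyy hr hry)
  have hsum : ((FF S Q θ r B V j).card : ℝ) ≤
      (∑ n ∈ range (j * V), ((n + j - 1).choose (j - 1) : ℝ) / (Uf j B n : ℝ) ^ j) * S.card := by
    refine hA.trans ?_
    rw [sum_mul]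
    refine sum_le_sum fun n _ => ?_
    calc ((n + j - 1).choose (j - 1) : ℝ) * (EE S Q θ (r / (y0 : ℝ) ^ n) (Uf j B n) j).card
        ≤ ((n + j - 1).choose (j - 1) : ℝ) * ((S.card : ℝ) / (Uf j B n : ℝ) ^ j) := by
          gcongr
          exact hE n
      _ = ((n + j - 1).choose (j - 1) : ℝ) / (Uf j B n : ℝ) ^ j * S.card := by ring
  have hS2 := hSUM j B V K hj hB hV hK
  set TT := ∑ n ∈ range (j * V), ((n + j - 1).choose (j - 1) : ℝ) / (Uf j B n : ℝ) ^ j with hTT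
  have hfac : (j.factorial : ℝ) = j * ((j - 1).factorial : ℝ) := by
    obtain ⟨i, rfl⟩ : ∃ i, j = i + 1 := ⟨j - 1, by omega⟩
    rw [Nat.add_sub_cancel, Nat.factorial_succ]
    push_cast
    ring
  set Zc := (((Z S θ r).filter (fun m => N ≤ (Gd Q B V θ m).card)).card : ℝ) with hZc
  have hZ0 : 0 ≤ Zc := Nat.cast_nonneg _
  calc Zc * ((N : ℝ) - j) ^ j ≤ Zc * ((N.choose j : ℝ) * (j.factorial : ℝ)) := by
        gcongr
        exact hCHO N j hjN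
    _ = Zc * (N.choose j : ℝ) * (j.factorial : ℝ) := by ring
    _ ≤ ((FF S Q θ r B V j).card : ℝ) * (j.factorial : ℝ) := by gcongr
    _ ≤ (TT * S.card) * (j.factorial : ℝ) := by gcongr
    _ = j * (TT * ((j - 1).factorial : ℝ)) * S.card := by rw [hfac]; ring
    _ ≤ j * ((3 * (j : ℝ)) ^ j * (1 + Real.log (V + 1)) + (2 * j * K) ^ j) * S.card := by
        gcongr

end Pool.Agent.SMP
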