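import Pool.Agent.SMP.Stmts

set_option autoImplicit false

namespace Pool.Agent.SMP

open Finset

namespace DWNX

theorem mem_SP {P : Finset ℕ} {X : ℝ} {m : ℕ} :
    m ∈ SP P X ↔ (1 ≤ m ∧ m ≤ ⌊X⌋₊) ∧ m.primeFactors ⊆ P := by
  unfold SP
  rw [mem_filter, mem_Icc]

theorem mem_PR {a b p : ℕ} : p ∈ PR a b ↔ (a < p ∧ p ≤ b) ∧ p.Prime := by
  unfold PR
  rw [mem_filter, mem_Ioc]

end DWNX

open DWNX

theorem dwn_proof (h : Stmt_FRC) : Stmt_DWN := by
  intro y X hX
  refine ⟨?_, ?_, ?_, ?_⟩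
  · intro m hm
    exact (mem_SP.1 hm).1.1
  · intro m hm p hp hpm
    have hm' := mem_SP.1 hm
    have h0 : m ≠ 0 := by omega
    have h1 : p ∈ m.primeFactors := Nat.mem_primeFactors.2 ⟨hp, hpm, h0⟩
    exact (mem_PR.1 (hm'.2 h1)).1.2
  · intro m hm d hd
    have hm' := mem_SP.1 hm
    have h0 : 0 < m := hm'.1.1
    refine mem_SP.2 ⟨⟨Nat.pos_of_dvd_of_pos hd h0, (Nat.le_of_dvd h0 hd).trans hm'.1.2⟩, ?_⟩
    exact (Nat.primeFactors_mono hd h0.ne').trans hm'.2
  · intro p hp hpy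
    have hpm : p ∈ PR 0 y := mem_PR.2 ⟨⟨hp.pos, hpy⟩, hp⟩
    have h1 := (h (PR 0 y) X p 1 (fun q hq => (mem_PR.1 hq).2) hX hpm).1
    have h2 : (SP (PR 0 y) X).filter (fun m => ¬ p ∣ m)
        = (SP (PR 0 y) X).filter (fun m => m.factorization p < 1) := by
      refine filter_congr fun m hm => ?_
      have h0 : m ≠ 0 := by
        have := (mem_SP.1 hm).1.1
        omega
      rw [Nat.lt_one_iff, Nat.factorization_eq_zero_iff]
      constructor
      · intro h3
        exact Or.inr (Or.inl h3)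
      · rintro (h3 | h3 | h3)
        · exact absurd hp h3
        · exact h3
        · exact absurd h3 h0
    have h3 : Real.log p ≤ Th (PR 0 y) := by
      unfold Th
      refine single_le_sum (f := fun q : ℕ => Real.log (q : ℝ)) (fun q hq => ?_) hpm
      exact Real.log_nonneg (by exact_mod_cast (mem_PR.1 hq).2.one_lt.le)
    have h4 : 0 < Real.log X := Real.log_pos hX
    rw [h2]
    refine h1.trans (mul_le_mul_of_nonneg_right ?_ (Nat.cast_nonneg _))
    refine div_le_div_of_nonneg_right ?_ h4.le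
    have h5 : (0 : ℝ) ≤ ((PR 0 y).card : ℝ) := Nat.cast_nonneg _
    push_cast
    nlinarith [mul_le_mul_of_nonneg_left h3 h5]

end Pool.Agent.SMP
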