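import Mathlib

set_option autoImplicit false

namespace Pool.Agent.SMP

open Finset

/-- the primes in `(a, b]` -/
def PR (a b : ℕ) : Finset ℕ := (Ioc a b).filter Nat.Prime

/-- the integers `1 ≤ m ≤ X` all of whose prime factors lie in `P` -/
noncomputable def SP (P : Finset ℕ) (X : ℝ) : Finset ℕ :=
  (Icc 1 ⌊X⌋₊).filter (fun m => m.primeFactors ⊆ P)

/-- `∑_{p ∈ P} log p` -/
noncomputable def Th (P : Finset ℕ) : ℝ := ∑ p ∈ P, Real.log p

/-- the distance to the nearest integer -/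
noncomputable def nd (t : ℝ) : ℝ := |t - round t|

/-- `e(t)` -/
noncomputable def ex (t : ℝ) : ℂ := Complex.exp (2 * Real.pi * Complex.I * t)

/-- the `m ∈ S` for which `m θ` is closer than `δ` to an integer -/
noncomputable def Z (S : Finset ℕ) (θ δ : ℝ) : Finset ℕ := S.filter (fun m : ℕ => nd (m * θ) < δ)

/-- `S` is a set of positive `y`-smooth integers, closed under taking divisors, and for every prime
`p ≤ y` the proportion of the elements of `S` which `p` does not divide is at most `β` -/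
structure Down (S : Finset ℕ) (y : ℕ) (β : ℝ) : Prop where
  pos : ∀ m ∈ S, 0 < m
  smooth : ∀ m ∈ S, ∀ p : ℕ, p.Prime → p ∣ m → p ≤ y
  dvd : ∀ m ∈ S, ∀ d : ℕ, d ∣ m → d ∈ S
  bd : ∀ p : ℕ, p.Prime → p ≤ y → ((S.filter (fun m => ¬ p ∣ m)).card : ℝ) ≤ β * S.card

/-- the exponent of `p` in the reduced denominator of `round (m θ) / m` -/
noncomputable def bp (θ : ℝ) (m p : ℕ) : ℕ :=
  (m / Nat.gcd m (round ((m : ℝ) * θ)).natAbs).factorization p

/-- the good primes of `m` -/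
noncomputable def Gd (Q : Finset ℕ) (B V : ℕ) (θ : ℝ) (m : ℕ) : Finset ℕ :=
  Q.filter (fun p => B ≤ bp θ m p ∧ m.factorization p < V)

/-- pairs `(m, R)` where `R` consists of `j` good primes of `m` -/
noncomputable def FF (S Q : Finset ℕ) (θ r : ℝ) (B V j : ℕ) : Finset (ℕ × Finset ℕ) :=
  (Z S θ r ×ˢ Q.powersetCard j).filter (fun w => w.2 ⊆ Gd Q B V θ w.1)

/-- pairs `(m, R)`, `R` consists of `j` primes `p` such that `p` does not divide `round (m θ)` and
`p ^ U` divides `m` -/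
noncomputable def EE (S Q : Finset ℕ) (θ ρ : ℝ) (U j : ℕ) : Finset (ℕ × Finset ℕ) :=
  (Z S θ ρ ×ˢ Q.powersetCard j).filter
    (fun w => ∀ p ∈ w.2, ¬ (p : ℤ) ∣ round ((w.1 : ℝ) * θ) ∧ U ≤ w.1.factorization p)

/-- the number of digits used in the descent -/
def Uf (j B n : ℕ) : ℕ := min (3 + n / (3 * j)) B

/-- `m` is typical -/
structure Typ (y0 y : ℕ) (t u : ℝ) (V m : ℕ) : Prop where
  t1 : 4 * ((PR y0 y).filter (fun p => (m.factorization p : ℝ) < t)).card ≤ (PR y0 y).card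
  t2 : ∑ p ∈ PR 0 y0, (m.factorization p : ℝ) * Real.log p ≤ u
  t3 : ∑ p ∈ (PR y0 y).filter (fun p => V ≤ m.factorization p),
    (m.factorization p : ℝ) * Real.log p ≤ u

/-- `H = log X / (π(y) log y)` -/
noncomputable def HH (y : ℕ) (X : ℝ) : ℝ := Real.log X / ((PR 0 y).card * Real.log y)

/-- `x` has irrationality exponent at most `μ` -/
def Ms (x : ℝ) (μ : ℕ) : Prop :=
  ∃ c : ℝ, 0 < c ∧ ∀ (q : ℕ) (P : ℤ), 0 < q → c ≤ |x - P / q| * (q : ℝ) ^ μ

/-- the `i`-th digit in base `b` of `x` after the point (`i ≥ 1`) -/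
noncomputable def dig (b : ℕ) (x : ℝ) (i : ℕ) : ℤ := ⌊x * (b : ℝ) ^ i⌋ % b

open Classical in
/-- the frequency of the word `w_0 … w_{n-1}` at the first `W` places after the point -/
noncomputable def frq (b : ℕ) (x : ℝ) (W n : ℕ) (w : ℕ → ℕ) : ℝ :=
  (((range W).filter (fun i => ∀ t < n, dig b x (i + 1 + t) = w t)).card : ℝ) / W

/-- all words of length at most `l` in all bases `2 ≤ b ≤ B` have the right frequency up to `ε`
at the first `W` places of `x` -/
def Eqd (B l W : ℕ) (ε x : ℝ) : Prop :=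
  ∀ b n : ℕ, ∀ w : ℕ → ℕ, 2 ≤ b → b ≤ B → n ≤ l → (∀ t < n, w t < b) →
    |frq b x W n w - 1 / (b : ℝ) ^ n| ≤ ε

/-- the conclusion of the theorem on exponential sums for a real number `x` -/
def Conc (x : ℝ) : Prop :=
  ∀ ε : ℝ, 0 < ε → ∃ C : ℝ, 0 < C ∧ ∀ (y : ℕ) (X : ℝ), C ≤ y → Real.exp ((y : ℝ) ^ 3) ≤ X →
    C * Real.log (Real.log (Real.log X)) ≤ (PR 0 y).card →
    ∀ h : ℤ, h ≠ 0 → |(h : ℝ)| ≤ Real.exp (HH y X) →
    ‖∑ m ∈ SP (PR 0 y) X, ex (m * (h * x))‖ ≤ ε * (SP (PR 0 y) X).card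

end Pool.Agent.SMP
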