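import Pool.Agent.SMP.Stmts

set_option autoImplicit false

namespace Pool.Agent.SMP

open Finset

namespace FINX

lemma ex_add (s t : ℝ) : ex (s + t) = ex s * ex t := by
  unfold ex
  rw [← Complex.exp_add]
  congr 1
  push_cast
  ring

lemma norm_ex (t : ℝ) : ‖ex t‖ = 1 := by
  unfold ex
  have h : (2 * (Real.pi : ℂ) * Complex.I * (t : ℂ)) = ((2 * Real.pi * t : ℝ) : ℂ) * Complex.I := by
    push_cast
    ring
  rw [h, Complex.norm_exp_ofReal_mul_I]

end FINX

/-- the final theorem in terms of the definitions of this folder -/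
def Stmt_FIN : Prop :=
  ∀ (x : ℝ), Conc x → ∀ (ε : ℝ) (B l : ℕ), 0 < ε → 2 ≤ B →
    ∃ C : ℝ, 0 < C ∧ ∀ (y : ℕ) (X : ℝ), C ≤ y → Real.exp ((y : ℝ) ^ 3) ≤ X →
      C * Real.log (Real.log (Real.log X)) ≤ (PR 0 y).card →
      ∀ (z : ℝ) (u W : ℕ), C ≤ W →
        ((u : ℝ) + W) * Real.log (2 * B) * (PR 0 y).card * Real.log y ≤ Real.log X →
        ∃ E ⊆ SP (PR 0 y) X, (E.card : ℝ) ≤ ε * (SP (PR 0 y) X).card ∧
          ∀ m ∈ SP (PR 0 y) X, m ∉ E → ∀ b n : ℕ, ∀ w : ℕ → ℕ, 2 ≤ b → b ≤ B → n ≤ l →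
            (∀ t < n, w t < b) →
            |frq b ((b : ℝ) ^ u * (m * x + z)) W n w - 1 / (b : ℝ) ^ n| ≤ ε

open FINX in
theorem fin_proof (hDG4 : Stmt_DG4) : Stmt_FIN := by
  intro x hx ε B l hε hB
  have hBp : (0 : ℝ) < B := by
    have : 0 < B := by omega
    exact_mod_cast this
  have hB1 : (1 : ℝ) ≤ B := by
    have : 1 ≤ B := by omega
    exact_mod_cast this
  obtain ⟨h0, η, C1, hη, h4⟩ := hDG4 B l (ε / B) (by positivity)
  obtain ⟨C2, hC2, hc⟩ := hx η hη
  refine ⟨C1 + C2 + h0 + 2, by positivity, ?_⟩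
  intro y X hy hX hLLL z u W hW hWL
  have hn1 : (0 : ℝ) ≤ C1 := Nat.cast_nonneg _
  have hn2 : (0 : ℝ) ≤ h0 := Nat.cast_nonneg _
  have hy1 : (2 : ℝ) ≤ y := by linarith
  have hyp : (0 : ℝ) < y := by linarith
  have hWC : C1 ≤ W := by
    have : (C1 : ℝ) ≤ W := by linarith
    exact_mod_cast this
  have hWh : (h0 : ℝ) ≤ W := by linarith
  have hXp : 0 < X := lt_of_lt_of_le (Real.exp_pos _) hX
  have hLy : (y : ℝ) ^ 3 ≤ Real.log X := by
    rw [Real.le_log_iff_exp_le hXp]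
    exact hX
  have hkn : (0 : ℝ) ≤ (PR 0 y).card := Nat.cast_nonneg _
  -- the exponential sums
  have hsum : ∀ g : ℤ, g ≠ 0 → |(g : ℝ)| ≤ h0 * (B : ℝ) ^ (u + W) →
      ‖∑ m ∈ SP (PR 0 y) X, ex (m * (g * x))‖ ≤ η * (SP (PR 0 y) X).card := by
    intro g hg0 hg
    refine hc y X (by linarith) hX ?_ g hg0 ?_
    · by_cases h0 : 0 ≤ Real.log (Real.log (Real.log X))
      · refine le_trans (mul_le_mul_of_nonneg_right ?_ h0) hLLL
        linarith
      · push Not at h0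
        nlinarith
    · refine hg.trans ?_
      have h1 : (h0 : ℝ) ≤ (2 : ℝ) ^ (u + W) := by
        have h2 : W ≤ 2 ^ W := Nat.lt_two_pow_self.le
        have h3 : (W : ℝ) ≤ (2 : ℝ) ^ W := by exact_mod_cast h2
        have h4 : (2 : ℝ) ^ W ≤ (2 : ℝ) ^ (u + W) :=
          pow_le_pow_right₀ (by norm_num) (by omega)
        linarith
      have h2 : (h0 : ℝ) * (B : ℝ) ^ (u + W) ≤ (2 * (B : ℝ)) ^ (u + W) := by
        rw [mul_pow]
        exact mul_le_mul_of_nonneg_right h1 (by positivity)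
      refine h2.trans ?_
      have h3 : (2 * (B : ℝ)) ^ (u + W) = Real.exp (((u : ℝ) + W) * Real.log (2 * B)) := by
        rw [← Real.rpow_natCast, Real.rpow_def_of_pos (by positivity)]
        congr 1
        push_cast
        ring
      rw [h3]
      apply Real.exp_le_exp.2
      have hk : (1 : ℝ) ≤ (PR 0 y).card := by
        have h4 : 2 ∈ PR 0 y := by
          unfold PR
          rw [mem_filter, mem_Ioc]
          have h5 : 2 ≤ y := by exact_mod_cast hy1
          exact ⟨⟨by norm_num, h5⟩, Nat.prime_two⟩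
        have h5 : 0 < (PR 0 y).card := card_pos.2 ⟨2, h4⟩
        exact_mod_cast h5
      have hlog : 0 < Real.log y := Real.log_pos (by linarith)
      unfold HH
      rw [le_div_iff₀ (by positivity)]
      linarith
  -- each base separately
  have hbase : ∀ b : ℕ, 2 ≤ b → b ≤ B → ∃ E ⊆ SP (PR 0 y) X,
      (E.card : ℝ) ≤ ε / B * (SP (PR 0 y) X).card ∧
      ∀ m ∈ SP (PR 0 y) X, m ∉ E → Eqd B l W (ε / B) ((b : ℝ) ^ u * (m * x + z)) := by
    intro b hb hbB
    have hbp : (0 : ℝ) < b := by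
      have : 0 < b := by omega
      exact_mod_cast this
    have hbB' : (b : ℝ) ≤ B := by exact_mod_cast hbB
    apply h4 (SP (PR 0 y) X) (fun m => (b : ℝ) ^ u * (m * x + z)) W hWC
    intro g hg0 hg
    have hg' : (g * (b : ℤ) ^ u : ℤ) ≠ 0 := by
      apply mul_ne_zero hg0
      apply pow_ne_zero
      have : b ≠ 0 := by omega
      exact_mod_cast this
    have h1 := hsum (g * (b : ℤ) ^ u) hg' (by
      push_cast
      rw [abs_mul, abs_of_nonneg (by positivity : (0 : ℝ) ≤ (b : ℝ) ^ u), pow_add]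
      calc |(g : ℝ)| * (b : ℝ) ^ u ≤ (h0 * (B : ℝ) ^ W) * (B : ℝ) ^ u := by
            apply mul_le_mul hg _ (by positivity) (by positivity)
            exact pow_le_pow_left₀ hbp.le hbB' u
        _ = h0 * ((B : ℝ) ^ u * (B : ℝ) ^ W) := by ring)
    refine le_trans (le_of_eq ?_) h1
    have h2 : ∀ m : ℕ, ex (g * ((b : ℝ) ^ u * (m * x + z))) =
        ex (m * (((g * (b : ℤ) ^ u : ℤ) : ℝ) * x)) * ex (g * (b : ℝ) ^ u * z) := by
      intro m
      rw [← ex_add]
      congr 1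
      push_cast
      ring
    rw [sum_congr rfl (fun m _ => h2 m), ← sum_mul, norm_mul, norm_ex, mul_one]
  choose! F hFS hFc hF using hbase
  refine ⟨(Icc 2 B).biUnion F, ?_, ?_, ?_⟩
  · intro m hm
    rw [mem_biUnion] at hm
    obtain ⟨b, hb, hm⟩ := hm
    rw [mem_Icc] at hb
    exact hFS b hb.1 hb.2 hm
  · have h1 : (((Icc 2 B).biUnion F).card : ℝ) ≤ ∑ b ∈ Icc 2 B, ((F b).card : ℝ) := by
      exact_mod_cast card_biUnion_le
    refine h1.trans ?_
    have h2 : ∑ b ∈ Icc 2 B, ((F b).card : ℝ) ≤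
        ∑ b ∈ Icc 2 B, ε / B * (SP (PR 0 y) X).card := by
      apply sum_le_sum
      intro b hb
      rw [mem_Icc] at hb
      exact hFc b hb.1 hb.2
    refine h2.trans ?_
    rw [sum_const, nsmul_eq_mul, Nat.card_Icc]
    have h3 : ((B + 1 - 2 : ℕ) : ℝ) ≤ B := by
      have : B + 1 - 2 ≤ B := by omega
      exact_mod_cast this
    have h4 : (B : ℝ) * (ε / B * (SP (PR 0 y) X).card) = ε * (SP (PR 0 y) X).card := by
      field_simp
    rw [← h4]
    exact mul_le_mul_of_nonneg_right h3 (by positivity)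
  · intro m hm hmE b n w hb hbB hn hw
    have hmF : m ∉ F b := by
      intro h
      exact hmE (mem_biUnion.2 ⟨b, mem_Icc.2 ⟨hb, hbB⟩, h⟩)
    have h1 := hF b hb hbB m hm hmF b n w hb hbB hn hw
    refine h1.trans ?_
    exact div_le_self hε.le hB1

end Pool.Agent.SMP
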