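import Pool.Agent.SMP.Stmts

/-!
# Squad SMP (MP_57632f_nt), module FRC: the distribution of the exponent of `p`
-/

set_option autoImplicit false

namespace Pool.Agent.SMP

open Finset

namespace FRCX

theorem Th_nonneg {P : Finset ℕ} (hP : ∀ q ∈ P, q.Prime) : 0 ≤ Th P :=
  Finset.sum_nonneg fun q hq => Real.log_nonneg (by exact_mod_cast (hP q hq).one_lt.le)

/-- the integers divisible by `p ^ t` -/
theorem card_ge {P : Finset ℕ} {X : ℝ} {p : ℕ} (t : ℕ) (hP : ∀ q ∈ P, q.Prime) (hX : 0 ≤ X)
    (hp : p ∈ P) :
    ((SP P X).filter (fun m => t ≤ m.factorization p)).card = (SP P (X / (p : ℝ) ^ t)).card := by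
  have hpp := hP p hp
  have hpt : 0 < p ^ t := pow_pos hpp.pos t
  have hpt' : (0 : ℝ) < (p : ℝ) ^ t := by exact_mod_cast hpt
  symm
  apply Finset.card_bij (fun m _ => p ^ t * m)
  · intro m hm
    rw [SP, mem_filter, mem_Icc] at hm
    obtain ⟨⟨h1, h2⟩, h3⟩ := hm
    have hm0 : m ≠ 0 := by omega
    rw [mem_filter, SP, mem_filter, mem_Icc]
    refine ⟨⟨⟨?_, ?_⟩, ?_⟩, ?_⟩
    · exact Nat.mul_pos hpt (by omega)
    · rw [Nat.le_floor_iff hX]
      have h4 : (m : ℝ) ≤ X / (p : ℝ) ^ t := by
        rwa [Nat.le_floor_iff (by positivity)] at h2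
      rw [le_div_iff₀ hpt'] at h4
      push_cast
      rw [mul_comm]
      exact h4
    · rw [Nat.primeFactors_mul hpt.ne' hm0]
      apply Finset.union_subset _ h3
      intro q hq
      have h5 := (Nat.mem_primeFactors.1 hq)
      have h6 : q ∣ p := h5.1.dvd_of_dvd_pow h5.2.1
      rw [(Nat.prime_dvd_prime_iff_eq h5.1 hpp).1 h6]
      exact hp
    · rw [Nat.factorization_mul hpt.ne' hm0, Finsupp.add_apply, hpp.factorization_pow,
        Finsupp.single_eq_same]
      omega
  · intro a _ b _ h
    exact Nat.eq_of_mul_eq_mul_left hpt h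
  · intro m hm
    rw [mem_filter, SP, mem_filter, mem_Icc] at hm
    obtain ⟨⟨⟨h1, h2⟩, h3⟩, h4⟩ := hm
    have hm0 : m ≠ 0 := by omega
    obtain ⟨c, hc⟩ : p ^ t ∣ m := (hpp.pow_dvd_iff_le_factorization hm0).2 h4
    have hc0 : c ≠ 0 := by
      intro h
      rw [h, mul_zero] at hc
      exact hm0 hc
    refine ⟨c, ?_, hc.symm⟩
    rw [SP, mem_filter, mem_Icc]
    refine ⟨⟨Nat.one_le_iff_ne_zero.2 hc0, ?_⟩, ?_⟩
    · rw [Nat.le_floor_iff (by positivity), le_div_iff₀ hpt']
      rw [Nat.le_floor_iff hX, hc] at h2
      push_cast at h2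
      linarith [h2, mul_comm (c : ℝ) ((p : ℝ) ^ t)]
    · intro q hq
      apply h3
      have h5 := Nat.mem_primeFactors.1 hq
      rw [Nat.mem_primeFactors]
      exact ⟨h5.1, h5.2.1.trans (Dvd.intro_left _ hc.symm), hm0⟩

/-- the complement -/
theorem card_lt {P : Finset ℕ} {X : ℝ} {p : ℕ} (t : ℕ) (hP : ∀ q ∈ P, q.Prime) (hX : 0 ≤ X)
    (hp : p ∈ P) :
    (((SP P X).filter (fun m => m.factorization p < t)).card : ℝ) =
      (SP P X).card - (SP P (X / (p : ℝ) ^ t)).card := by
  have h := Finset.card_filter_add_card_filter_not (s := SP P X)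
    (fun m => t ≤ m.factorization p)
  rw [card_ge t hP hX hp] at h
  have h2 : (SP P X).filter (fun m => ¬ t ≤ m.factorization p) =
      (SP P X).filter (fun m => m.factorization p < t) := by
    apply Finset.filter_congr
    intro m _
    exact not_le
  rw [h2] at h
  rw [← h]
  push_cast
  ring

end FRCX

open FRCX in
theorem frc_proof (hPSI : Stmt_PSI) : Stmt_FRC := by
  intro P X p t hP hX hp
  have hpp := hP p hp
  have hlam : 0 < Real.log p := Real.log_pos (by exact_mod_cast hpp.one_lt)
  have hL : 0 < Real.log X := Real.log_pos hX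
  have hTh := Th_nonneg hP
  have hX0 : 0 ≤ X := by linarith
  have hk : (1 : ℝ) ≤ P.card := by
    exact_mod_cast Finset.card_pos.2 ⟨p, hp⟩
  have hpt : (0 : ℝ) < (p : ℝ) ^ t := pow_pos (by exact_mod_cast hpp.pos) t
  have hF : 0 < (P.card.factorial : ℝ) * ∏ q ∈ P, Real.log q := by
    apply mul_pos
    · exact_mod_cast Nat.factorial_pos _
    · exact Finset.prod_pos fun q hq => Real.log_pos (by exact_mod_cast (hP q hq).one_lt)
  set F : ℝ := (P.card.factorial : ℝ) * ∏ q ∈ P, Real.log q with hFdef
  obtain ⟨h1, h2⟩ := hPSI P X hP hX.le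
  have hN : (0 : ℝ) ≤ (SP P X).card := Nat.cast_nonneg _
  have hlog : Real.log (X / (p : ℝ) ^ t) = Real.log X - t * Real.log p := by
    rw [Real.log_div (by linarith) hpt.ne', Real.log_pow]
  rw [card_lt t hP hX0 hp, card_ge t hP hX0 hp]
  by_cases hX' : 1 ≤ X / (p : ℝ) ^ t
  · obtain ⟨h3, h4⟩ := hPSI P (X / (p : ℝ) ^ t) hP hX'
    rw [hlog] at h3 h4
    have h5 : 0 ≤ Real.log X - t * Real.log p := by
      rw [← hlog]
      exact Real.log_nonneg hX'
    constructor
    · have hLT : 0 < Real.log X + Th P := by linarith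
      set s : ℝ := (Th P + t * Real.log p) / (Real.log X + Th P) with hs
      have hs0 : 0 ≤ s := by positivity
      have hs1 : s ≤ 1 := by
        rw [hs, div_le_one hLT]
        linarith
      have h6 : Real.log X - t * Real.log p = (Real.log X + Th P) * (1 - s) := by
        rw [hs]
        field_simp
        ring
      have h7 : 1 - P.card * s ≤ (1 - s) ^ P.card := by
        have := one_add_mul_le_pow (a := -s) (by linarith) P.card
        calc 1 - P.card * s = 1 + P.card * (-s) := by ring
          _ ≤ (1 + -s) ^ P.card := this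
          _ = (1 - s) ^ P.card := by ring
      have h8 : ((SP P X).card : ℝ) * F * (1 - P.card * s) ≤
          ((SP P (X / (p : ℝ) ^ t)).card : ℝ) * F := by
        calc ((SP P X).card : ℝ) * F * (1 - P.card * s)
            ≤ ((SP P X).card : ℝ) * F * (1 - s) ^ P.card :=
              mul_le_mul_of_nonneg_left h7 (mul_nonneg hN hF.le)
          _ ≤ (Real.log X + Th P) ^ P.card * (1 - s) ^ P.card :=
              mul_le_mul_of_nonneg_right h2 (pow_nonneg (by linarith) _)
          _ = (Real.log X - t * Real.log p) ^ P.card := by rw [h6, mul_pow]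
          _ ≤ _ := h3
      have h9 : ((SP P X).card : ℝ) * (1 - P.card * s) ≤
          ((SP P (X / (p : ℝ) ^ t)).card : ℝ) := by
        apply le_of_mul_le_mul_right _ hF
        linarith [h8]
      have h10 : (P.card : ℝ) * s ≤ P.card * (Th P + t * Real.log p) / Real.log X := by
        rw [mul_div_assoc]
        apply mul_le_mul_of_nonneg_left _ (by linarith)
        rw [hs]
        apply div_le_div_of_nonneg_left (by positivity) hL
        linarith
      have h11 := mul_le_mul_of_nonneg_right h10 hN
      linarith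
    · set s : ℝ := (t * Real.log p - Th P) / Real.log X with hs
      have h6 : Real.log X - t * Real.log p + Th P = Real.log X * (1 - s) := by
        rw [hs]
        field_simp
        ring
      have h7 : 0 ≤ 1 - s := by
        have : 0 ≤ Real.log X * (1 - s) := by
          rw [← h6]
          linarith
        exact nonneg_of_mul_nonneg_right this hL
      have h8 : (1 - s) ^ P.card ≤
          Real.exp (-(P.card * (t * Real.log p - Th P)) / Real.log X) := by
        calc (1 - s) ^ P.card ≤ Real.exp (-s) ^ P.card := by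
              apply pow_le_pow_left₀ h7
              have := Real.add_one_le_exp (-s)
              linarith
          _ = Real.exp (-(P.card * (t * Real.log p - Th P)) / Real.log X) := by
              rw [← Real.exp_nat_mul, hs]
              congr 1
              ring
      apply le_of_mul_le_mul_right _ hF
      calc ((SP P (X / (p : ℝ) ^ t)).card : ℝ) * F
          ≤ (Real.log X - t * Real.log p + Th P) ^ P.card := h4
        _ = (1 - s) ^ P.card * Real.log X ^ P.card := by rw [h6, mul_pow, mul_comm]
        _ ≤ Real.exp (-(P.card * (t * Real.log p - Th P)) / Real.log X) *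
            (((SP P X).card : ℝ) * F) := by
              apply mul_le_mul h8 h1 (by positivity) (Real.exp_nonneg _)
        _ = _ := by ring
  · push Not at hX'
    have h3 : (SP P (X / (p : ℝ) ^ t)).card = 0 := by
      rw [Finset.card_eq_zero, SP, Nat.floor_eq_zero.2 hX']
      simp
    rw [h3]
    push_cast
    constructor
    · have h5 : Real.log X < t * Real.log p := by
        rw [div_lt_one hpt] at hX'
        have := Real.log_lt_log (by linarith) hX'
        rwa [Real.log_pow] at this
      have h6 : 1 ≤ P.card * (Th P + t * Real.log p) / Real.log X := by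
        rw [le_div_iff₀ hL]
        nlinarith
      nlinarith
    · positivity

end Pool.Agent.SMP
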