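import Pool.Agent.SMP.Stmts

set_option autoImplicit false

namespace Pool.Agent.SMP

open Finset

theorem ira_proof : Stmt_IRA := by
  intro x μ hM hμ
  obtain ⟨c, hc, hM⟩ := hM
  refine ⟨-Real.log (2 * c), ?_⟩
  intro h m hh hm hnd
  obtain ⟨ν, rfl⟩ : ∃ ν : ℕ, μ = ν + 1 := ⟨μ - 1, by omega⟩
  set A : ℤ := round ((m : ℝ) * (h * x)) with hA
  set g : ℕ := Nat.gcd m A.natAbs with hg
  have hg0 : 0 < g := Nat.gcd_pos_of_pos_left _ hm
  obtain ⟨N, hN⟩ : g ∣ m := Nat.gcd_dvd_left _ _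
  have hgA : (g : ℤ) ∣ A := by
    have : g ∣ A.natAbs := Nat.gcd_dvd_right _ _
    exact Int.natCast_dvd.mpr this
  obtain ⟨B, hB⟩ := hgA
  have hdiv : m / g = N := by
    conv_lhs => rw [hN]
    exact Nat.mul_div_cancel_left _ hg0
  have hN0 : 0 < N := by
    rcases Nat.eq_zero_or_pos N with h0 | h0
    · rw [h0] at hN; omega
    · exact h0
  have hgR : (0 : ℝ) < g := by exact_mod_cast hg0
  have hNR : (0 : ℝ) < N := by exact_mod_cast hN0
  have hmR : (m : ℝ) = g * N := by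
    have := congrArg (fun t : ℕ => (t : ℝ)) hN
    simpa using this
  have hAR : (A : ℝ) = g * B := by
    have := congrArg (fun t : ℤ => (t : ℝ)) hB
    simpa using this
  have hh1 : 0 < h.natAbs := Int.natAbs_pos.mpr hh
  have hhabs : ((h.natAbs : ℕ) : ℝ) = |(h : ℝ)| := by
    rw [Nat.cast_natAbs, Int.cast_abs]
  have habs0 : (0 : ℝ) < |(h : ℝ)| := by
    rw [← hhabs]; exact_mod_cast hh1
  -- the small quantity
  have hsmall : |(N : ℝ) * (h * x) - B| < 1 / (2 * g) := by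
    have h1 : |(m : ℝ) * (h * x) - A| < 1 / 2 := by
      have := hnd
      unfold nd at this
      exact this
    rw [hmR, hAR] at h1
    have h2 : (g : ℝ) * N * (h * x) - g * B = g * ((N : ℝ) * (h * x) - B) := by ring
    rw [h2, abs_mul, abs_of_pos hgR] at h1
    rw [lt_div_iff₀ (by positivity)]
    nlinarith [h1]
  -- apply the irrationality measure
  have hq0 : 0 < N * h.natAbs := Nat.mul_pos hN0 hh1
  have key := hM (N * h.natAbs) (h.sign * B) hq0
  have hqR : (0 : ℝ) < ((N * h.natAbs : ℕ) : ℝ) := by exact_mod_cast hq0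
  set q : ℝ := ((N * h.natAbs : ℕ) : ℝ) with hq
  have hqe : q = N * |(h : ℝ)| := by
    rw [hq, Nat.cast_mul, hhabs]
  have hsign : ((h.sign : ℤ) : ℝ) * |(h : ℝ)| = h := by
    have := Int.sign_mul_natAbs h
    have h2 := congrArg (fun t : ℤ => (t : ℝ)) this
    simp only [Int.cast_mul, Int.cast_natCast] at h2
    rw [hhabs] at h2
    exact h2
  have hsign2 : ((h.sign : ℤ) : ℝ) * (h.sign : ℤ) = 1 := by
    have : h.sign * h.sign = 1 := by
      rcases lt_or_gt_of_ne hh with h1 | h1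
      · rw [Int.sign_eq_neg_one_of_neg h1]; norm_num
      · rw [Int.sign_eq_one_of_pos h1]; norm_num
    exact_mod_cast this
  have hsabs : |((h.sign : ℤ) : ℝ)| = 1 := by
    have h1 : |((h.sign : ℤ) : ℝ)| * |((h.sign : ℤ) : ℝ)| = 1 := by
      rw [← abs_mul, hsign2, abs_one]
    nlinarith [abs_nonneg ((h.sign : ℤ) : ℝ), h1, sq_nonneg (|((h.sign : ℤ) : ℝ)| - 1)]
  have hdist : |x - ((h.sign * B : ℤ) : ℝ) / q| * q = |(N : ℝ) * (h * x) - B| := by
    have e1 : |x - ((h.sign * B : ℤ) : ℝ) / q| * q = |q * x - ((h.sign * B : ℤ) : ℝ)| := by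
      have : q * x - ((h.sign * B : ℤ) : ℝ) = (x - ((h.sign * B : ℤ) : ℝ) / q) * q := by
        field_simp
      rw [this, abs_mul, abs_of_pos hqR]
    rw [e1]
    have e2 : (N : ℝ) * (h * x) - B = (h.sign : ℤ) * (q * x - ((h.sign * B : ℤ) : ℝ)) := by
      rw [hqe]; push_cast
      have : ((h.sign : ℤ) : ℝ) * (N * |(h : ℝ)| * x - ((h.sign : ℤ) : ℝ) * B)
          = N * ((((h.sign : ℤ) : ℝ) * |(h : ℝ)|) * x) - (((h.sign : ℤ) : ℝ) * (h.sign : ℤ)) * B := by
        ring
      rw [this, hsign, hsign2]; ring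
    rw [e2, abs_mul, hsabs, one_mul]
  have key2 : c ≤ |(N : ℝ) * (h * x) - B| * q ^ ν := by
    calc c ≤ |x - ((h.sign * B : ℤ) : ℝ) / q| * q ^ (ν + 1) := key
      _ = |x - ((h.sign * B : ℤ) : ℝ) / q| * q * q ^ ν := by ring
      _ = _ := by rw [hdist]
  have key3 : c ≤ 1 / (2 * g) * q ^ ν :=
    key2.trans (mul_le_mul_of_nonneg_right hsmall.le (by positivity))
  have key4 : 2 * c * g ≤ q ^ ν := by
    have h1 : 1 / (2 * (g : ℝ)) * q ^ ν = q ^ ν / (2 * g) := by ring
    rw [h1, le_div_iff₀ (by positivity)] at key3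
    linarith
  have key5 : Real.log (2 * c) + Real.log g ≤ ν * (Real.log N + Real.log |(h : ℝ)|) := by
    have h1 := Real.log_le_log (by positivity) key4
    have h2c : (2 * c : ℝ) ≠ 0 := by positivity
    have hN' : (N : ℝ) ≠ 0 := by positivity
    rw [Real.log_mul h2c (by positivity), Real.log_pow, hqe,
      Real.log_mul hN' (by positivity)] at h1
    exact h1
  have hlm : Real.log (m : ℝ) = Real.log g + Real.log N := by
    rw [hmR, Real.log_mul (by positivity) (by positivity)]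
  rw [hdiv, hlm]
  push_cast
  nlinarith [key5]

end Pool.Agent.SMP
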