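import Pool.Agent.SMP.Stmts

set_option autoImplicit false

namespace Pool.Agent.SMP

open Finset

namespace IRBX

/-- the logarithm of an integer as a sum over a set of primes containing the prime factors -/
theorem log_eq_sum (n : ℕ) {P : Finset ℕ} (h : n.primeFactors ⊆ P) :
    Real.log n = ∑ p ∈ P, (n.factorization p : ℝ) * Real.log p := by
  rw [Real.log_nat_eq_sum_factorization, Finsupp.sum, Nat.support_factorization]
  refine Finset.sum_subset h fun p _ hp => ?_
  have h0 : n.factorization p = 0 := Finsupp.notMem_support_iff.1 hp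
  rw [h0, Nat.cast_zero, zero_mul]

theorem mem_PR {a b p : ℕ} : p ∈ PR a b ↔ (a < p ∧ p ≤ b) ∧ p.Prime := by
  rw [PR, mem_filter, mem_Ioc]

theorem PR_union {a b : ℕ} (h : a ≤ b) : PR 0 b = PR 0 a ∪ PR a b := by
  ext p
  rw [mem_union, mem_PR, mem_PR, mem_PR]
  constructor
  · rintro ⟨⟨h1, h2⟩, h3⟩
    rcases le_or_gt p a with h4 | h4
    · exact Or.inl ⟨⟨h1, h4⟩, h3⟩
    · exact Or.inr ⟨⟨h4, h2⟩, h3⟩
  · rintro (⟨⟨h1, h2⟩, h3⟩ | ⟨⟨h1, h2⟩, h3⟩)
    · exact ⟨⟨h1, h2.trans h⟩, h3⟩
    · exact ⟨⟨lt_of_le_of_lt (Nat.zero_le _) h1, h2⟩, h3⟩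

theorem PR_disj (a b : ℕ) : Disjoint (PR 0 a) (PR a b) := by
  rw [Finset.disjoint_left]
  intro p h1 h2
  rw [mem_PR] at h1 h2
  omega

end IRBX

set_option maxHeartbeats 2000000 in
open IRBX in
theorem irb_proof (hIRA : Stmt_IRA) (hCHB : Stmt_CHB) : Stmt_IRB := by
  intro x μ e c hMs hμ he he1 hc
  obtain ⟨C0, hC0⟩ := hIRA x μ hMs hμ
  obtain ⟨C1, hC1, hCH⟩ := hCHB 1 ⌈32 * (μ : ℝ) / e⌉₊ one_pos le_rfl
  refine ⟨max C1 ⌈32 * C0 / e⌉₊, ?_⟩
  intro y X h m hy hX hh hhX hm hnd hTyp
  have hy1 : C1 ≤ y := (le_max_left _ _).trans hy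
  have hy2 : 32 * C0 / e ≤ (y : ℝ) :=
    (Nat.le_ceil _).trans (Nat.cast_le.2 ((le_max_right _ _).trans hy))
  have hy8 : 8 ≤ y := hC1.trans hy1
  obtain ⟨a1, a2, -, a4, a5, -, -⟩ := hCH y hy1
  have hμR : (1 : ℝ) ≤ μ := by exact_mod_cast hμ
  have hμ0 : (0 : ℝ) < μ := by linarith
  have hyR : (8 : ℝ) ≤ y := by exact_mod_cast hy8
  have hlog : (1 : ℝ) ≤ Real.log y := by
    rw [Real.le_log_iff_exp_le (by linarith)]
    have := Real.exp_one_lt_d9
    linarith
  have hX0 : 0 < X := (Real.exp_pos _).trans_le hX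
  have hLy : (y : ℝ) ^ 3 ≤ Real.log X := by
    rw [Real.le_log_iff_exp_le hX0]
    exact hX
  have hy3 : (y : ℝ) ≤ (y : ℝ) ^ 3 := by nlinarith [sq_nonneg ((y : ℝ) - 1), mul_nonneg (by linarith : (0:ℝ) ≤ y) (by linarith : (0:ℝ) ≤ y)]
  have hL0 : 0 < Real.log X := by linarith
  set Q := PR (Nat.sqrt y) y with hQ
  set k := (PR 0 y).card with hk
  set L := Real.log X with hL
  have hsq : Nat.sqrt y ≤ y := Nat.sqrt_le_self y
  have hU : PR 0 y = PR 0 (Nat.sqrt y) ∪ Q := PR_union hsq
  have hD : Disjoint (PR 0 (Nat.sqrt y)) Q := PR_disj _ _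
  have hQk : Q.card ≤ k := by
    rw [hk, hU]
    exact card_le_card subset_union_right
  have hQ32 : 32 * (μ : ℝ) / e ≤ Q.card := by
    refine (Nat.le_ceil _).trans ?_
    have h1 : ⌈32 * (μ : ℝ) / e⌉₊ * 1 ≤ Q.card := (Nat.mul_le_mul_left _ a1).trans a4
    rw [Nat.mul_one] at h1
    exact_mod_cast h1
  have hQk' : (Q.card : ℝ) ≤ k := by exact_mod_cast hQk
  have h32 : 0 < 32 * (μ : ℝ) / e := by positivity
  have hk0 : (0 : ℝ) < k := by linarith
  have hky : (k : ℝ) ≤ y := by
    have h1 : k ≤ (Ioc 0 y).card := card_le_card (filter_subset _ _)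
    rw [Nat.card_Ioc] at h1
    exact_mod_cast h1
  have hkl : 0 < k * Real.log y := by positivity
  set H := HH y X with hH
  have hHe : H = L / (k * Real.log y) := rfl
  have hkH : k * Real.log y * H = L := by
    rw [hHe]
    field_simp
  have hly : Real.log y ≤ y := (Real.log_le_sub_one_of_pos (by linarith)).trans (by linarith)
  have hH1 : 1 ≤ H := by
    rw [hHe, le_div_iff₀ hkl, one_mul]
    calc k * Real.log y ≤ y * y := mul_le_mul hky hly (by linarith) (by linarith)
      _ ≤ (y : ℝ) ^ 3 := by nlinarith [mul_nonneg (by linarith : (0:ℝ) ≤ y) (by linarith : (0:ℝ) ≤ y)]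
      _ ≤ L := hLy
  have hH32 : μ * H ≤ e * L / 32 := by
    have h1 : 32 * (μ : ℝ) / e ≤ k * Real.log y := by nlinarith
    rw [div_le_iff₀ he] at h1
    rw [← hkH]
    nlinarith
  have hCL : C0 ≤ e * L / 32 := by
    rw [div_le_iff₀ he] at hy2
    nlinarith
  -- properties of `m`
  rw [SP, mem_filter, mem_Icc] at hm
  obtain ⟨⟨hm1, -⟩, hmP⟩ := hm
  have hm0 : m ≠ 0 := by omega
  have hlogp : ∀ p ∈ Q, Real.log y / 3 ≤ Real.log p ∧ Real.log p ≤ Real.log y := by
    intro p hp
    rw [hQ, mem_PR] at hp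
    obtain ⟨⟨h1, h2⟩, -⟩ := hp
    have hp0 : (0 : ℝ) < p := by
      have : 0 < p := by omega
      exact_mod_cast this
    constructor
    · have h3 : (y : ℝ) ≤ (p : ℝ) ^ 3 := by
        have h4 : y ≤ p ^ 3 := a2.trans (Nat.pow_le_pow_left h1.le 3)
        exact_mod_cast h4
      have h5 := Real.log_le_log (by linarith) h3
      rw [Real.log_pow] at h5
      push_cast at h5
      linarith
    · exact Real.log_le_log hp0 (by exact_mod_cast h2)
  have hlogn : ∀ p : ℕ, 0 ≤ Real.log (p : ℝ) := fun p => Real.log_natCast_nonneg p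
  -- (1)
  have hstep1 : e * L / 8 ≤ Real.log m := by
    have h1 : 3 * (Q.card : ℝ) ≤
        4 * ((Q.filter (fun p => ¬ (m.factorization p : ℝ) < e * H)).card : ℝ) := by
      have h2 := hTyp.t1
      have h3 := Finset.card_filter_add_card_filter_not (s := Q)
        (fun p => (m.factorization p : ℝ) < e * H)
      have h4 : 3 * Q.card ≤
          4 * (Q.filter (fun p => ¬ (m.factorization p : ℝ) < e * H)).card := by
        have h5 : 4 * (Q.filter (fun p => (m.factorization p : ℝ) < e * H)).card ≤ Q.card := h2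
        omega
      exact_mod_cast h4
    rw [log_eq_sum m hmP, hU, sum_union hD]
    have h2 : 0 ≤ ∑ p ∈ PR 0 (Nat.sqrt y), (m.factorization p : ℝ) * Real.log p :=
      sum_nonneg fun p _ => mul_nonneg (Nat.cast_nonneg _) (hlogn p)
    have h3 : ((Q.filter (fun p => ¬ (m.factorization p : ℝ) < e * H)).card : ℝ) *
        (e * H * (Real.log y / 3)) ≤ ∑ p ∈ Q, (m.factorization p : ℝ) * Real.log p := by
      rw [← nsmul_eq_mul, ← sum_const]
      refine (sum_le_sum fun p hp => ?_).trans
        (sum_le_sum_of_subset_of_nonneg (filter_subset _ _) fun p _ _ =>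
          mul_nonneg (Nat.cast_nonneg _) (hlogn p))
      rw [mem_filter, not_lt] at hp
      exact mul_le_mul hp.2 (hlogp p hp.1).1 (by linarith) (Nat.cast_nonneg _)
    have h4 : (k : ℝ) ≤ 2 * Q.card := by exact_mod_cast a5
    have h5 : 0 < e * H * (Real.log y / 3) := by positivity
    have h6 : e * L / 8 ≤ ((Q.filter (fun p => ¬ (m.factorization p : ℝ) < e * H)).card : ℝ) *
        (e * H * (Real.log y / 3)) := by
      have h7 : e * L / 8 = (3 * k / 8) * (e * H * (Real.log y / 3)) := by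
        rw [← hkH]
        ring
      rw [h7]
      refine mul_le_mul_of_nonneg_right ?_ h5.le
      linarith
    linarith
  -- (2)
  set θ : ℝ := h * x with hθ
  set N := m / Nat.gcd m (round ((m : ℝ) * θ)).natAbs with hN
  have hNm : N ∣ m := Nat.div_dvd_of_dvd (Nat.gcd_dvd_left _ _)
  have hN0 : N ≠ 0 := by
    rintro h0
    rw [h0, zero_dvd_iff] at hNm
    exact hm0 hNm
  have hstep2 : e * L / 16 ≤ μ * Real.log N := by
    have h1 := hC0 h m hh (by omega) hnd
    have h2 : Real.log |(h : ℝ)| ≤ H := by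
      have h3 : 0 < |(h : ℝ)| := abs_pos.2 (by exact_mod_cast hh)
      rw [Real.log_le_iff_le_exp h3]
      exact hhX
    have h4 : ((μ : ℝ) - 1) * Real.log |(h : ℝ)| ≤ μ * H := by nlinarith
    have h5 : Real.log m ≤ μ * Real.log N + (μ - 1) * Real.log |(h : ℝ)| + C0 := h1
    linarith
  -- (3)
  set g : ℝ := e / (400 * μ) with hg
  have hg0 : 0 < g := by positivity
  have hgμ : e * L / 16 = μ * (25 * g * L) := by
    rw [hg]
    field_simp
    ring
  have hstep2' : 25 * g * L ≤ Real.log N := by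
    rw [hgμ] at hstep2
    exact le_of_mul_le_mul_left hstep2 hμ0
  set B := ⌊g * H⌋₊ with hB
  set V := ⌈c * H⌉₊ with hV
  set G := Gd Q B V θ m with hG
  have hfac : ∀ p, (N.factorization p : ℝ) ≤ m.factorization p := by
    intro p
    exact_mod_cast (Nat.factorization_le_iff_dvd hN0 hm0).2 hNm p
  have hBg : (B : ℝ) ≤ g * H := Nat.floor_le (by positivity)
  have hpt : ∀ p ∈ Q, (N.factorization p : ℝ) * Real.log p ≤
      (if V ≤ m.factorization p then (m.factorization p : ℝ) * Real.log p else 0) +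
      (g * H * Real.log y + (if p ∈ G then (V : ℝ) * Real.log y else 0)) := by
    intro p hp
    have h1 := (hlogp p hp).2
    have h2 : 0 ≤ Real.log (p : ℝ) := hlogn p
    have h3 : 0 ≤ g * H * Real.log y := by positivity
    have h4 : 0 ≤ (if p ∈ G then (V : ℝ) * Real.log y else 0) := by
      split_ifs
      · positivity
      · exact le_rfl
    by_cases hc1 : V ≤ m.factorization p
    · rw [if_pos hc1]
      have := mul_le_mul_of_nonneg_right (hfac p) h2
      linarith
    · rw [if_neg hc1, zero_add]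
      by_cases hc2 : B ≤ N.factorization p
      · have hpG : p ∈ G := by
          rw [hG, Gd, mem_filter]
          exact ⟨hp, hc2, not_le.1 hc1⟩
        rw [if_pos hpG]
        have h5 : (N.factorization p : ℝ) ≤ V := by
          refine (hfac p).trans ?_
          exact_mod_cast (not_le.1 hc1).le
        have h6 := mul_le_mul h5 h1 h2 (Nat.cast_nonneg V)
        linarith
      · have h5 : (N.factorization p : ℝ) ≤ g * H := by
          refine le_trans ?_ hBg
          exact_mod_cast (not_le.1 hc2).le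
        have h6 := mul_le_mul h5 h1 h2 (by positivity : 0 ≤ g * H)
        linarith
  have hsum : Real.log N ≤ g * L + (g * L + (g * L + G.card * (V * Real.log y))) := by
    have hNP : N.primeFactors ⊆ PR 0 y := (Nat.primeFactors_mono hNm hm0).trans hmP
    rw [log_eq_sum N hNP, hU, sum_union hD]
    refine add_le_add ?_ ?_
    · refine (sum_le_sum fun p _ => ?_).trans hTyp.t2
      exact mul_le_mul_of_nonneg_right (hfac p) (hlogn p)
    · refine (sum_le_sum hpt).trans ?_
      rw [sum_add_distrib, sum_add_distrib, ← sum_filter, sum_const, nsmul_eq_mul, ← sum_filter,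
        sum_const, nsmul_eq_mul]
      refine add_le_add hTyp.t3 (add_le_add ?_ ?_)
      · calc (Q.card : ℝ) * (g * H * Real.log y) ≤ k * (g * H * Real.log y) :=
              mul_le_mul_of_nonneg_right hQk' (by positivity)
          _ = g * L := by
              rw [← hkH]
              ring
      · refine mul_le_mul_of_nonneg_right ?_ (by positivity)
        have h1 : (Q.filter (fun p => p ∈ G)).card ≤ G.card :=
          card_le_card fun p hp => (mem_filter.1 hp).2
        exact_mod_cast h1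
  have hV2 : (V : ℝ) ≤ 2 * c * H := by
    have h1 : (V : ℝ) < c * H + 1 := Nat.ceil_lt_add_one (by positivity)
    nlinarith
  have hfin : 22 * (g * L) ≤ G.card * (2 * c * H * Real.log y) := by
    have h1 : (G.card : ℝ) * (V * Real.log y) ≤ G.card * (2 * c * H * Real.log y) :=
      mul_le_mul_of_nonneg_left (mul_le_mul_of_nonneg_right hV2 (by linarith)) (Nat.cast_nonneg _)
    linarith
  have hfin2 : 11 * (g * k) ≤ G.card * c := by
    have h1 : 22 * (g * L) = 2 * (H * Real.log y) * (11 * (g * k)) := by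
      rw [← hkH]
      ring
    have h2 : (G.card : ℝ) * (2 * c * H * Real.log y) = 2 * (H * Real.log y) * (G.card * c) := by
      ring
    rw [h1, h2] at hfin
    exact le_of_mul_le_mul_left hfin (by positivity)
  have hc0 : 0 < c := by linarith
  have h1 : e / (400 * μ * c) * (Q.card : ℝ) = g * Q.card / c := by
    rw [hg]
    field_simp
  rw [h1, div_le_iff₀ hc0]
  have h2 : g * (Q.card : ℝ) ≤ g * k := mul_le_mul_of_nonneg_left hQk' hg0.le
  have h3 : 0 ≤ g * (k : ℝ) := by positivity
  linarith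

end Pool.Agent.SMP
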