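import Pool.Agent.SMP.Stmts

/-!
# Squad SMP (MP_57632f_nt), module KER: from exponential sums to counting
-/

set_option autoImplicit false

namespace Pool.Agent.SMP

open Finset

namespace KERX

theorem norm_ex (t : ℝ) : ‖ex t‖ = 1 := by
  rw [ex, show (2 * (Real.pi : ℂ) * Complex.I * (t : ℂ)) =
    ((2 * Real.pi * t : ℝ) : ℂ) * Complex.I by push_cast; ring]
  exact Complex.norm_exp_ofReal_mul_I _

theorem ex_add (s t : ℝ) : ex (s + t) = ex s * ex t := by
  rw [ex, ex, ex, ← Complex.exp_add]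
  congr 1
  push_cast
  ring

theorem ex_int (n : ℤ) : ex n = 1 := by
  rw [ex]
  have h := Complex.exp_int_mul_two_pi_mul_I n
  rw [← h]
  congr 1
  push_cast
  ring

theorem ex_nat_mul (q : ℕ) (t : ℝ) : ex (q * t) = ex t ^ q := by
  rw [ex, ex, ← Complex.exp_nat_mul]
  congr 1
  push_cast
  ring

theorem norm_ex_sub_one (t : ℝ) : 4 * nd t ≤ ‖ex t - 1‖ := by
  set r : ℝ := t - round t with hr
  have h1 : ex t = ex r := by
    have h2 : ex (r + (round t : ℤ)) = ex r := by rw [ex_add, ex_int, mul_one]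
    rw [← h2, hr, sub_add_cancel]
  have h3 : ‖ex t - 1‖ = 2 * |Real.sin (Real.pi * r)| := by
    rw [h1, ex, show (2 * (Real.pi : ℂ) * Complex.I * (r : ℂ)) =
      Complex.I * ((2 * Real.pi * r : ℝ) : ℂ) by push_cast; ring,
      Complex.norm_exp_I_mul_ofReal_sub_one, norm_mul, Real.norm_eq_abs, Real.norm_eq_abs]
    rw [show 2 * Real.pi * r / 2 = Real.pi * r by ring]
    norm_num
  rw [h3, nd, ← hr]
  have hr2 : |r| ≤ 1 / 2 := abs_sub_round t
  have h4 : 2 * |r| ≤ |Real.sin (Real.pi * r)| := by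
    have h5 : |Real.sin (Real.pi * r)| = Real.sin (Real.pi * |r|) := by
      rcases le_total 0 r with h | h
      · rw [abs_of_nonneg h, abs_of_nonneg]
        apply Real.sin_nonneg_of_nonneg_of_le_pi (by positivity)
        rw [abs_of_nonneg h] at hr2
        nlinarith [Real.pi_pos]
      · rw [abs_of_nonpos h, mul_neg, Real.sin_neg, abs_of_nonpos]
        apply Real.sin_nonpos_of_nonpos_of_neg_pi_le
        · exact mul_nonpos_of_nonneg_of_nonpos Real.pi_pos.le h
        · rw [abs_of_nonpos h] at hr2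
          nlinarith [Real.pi_pos]
    rw [h5]
    have h6 := Real.mul_le_sin (x := Real.pi * |r|) (by positivity) (by nlinarith [Real.pi_pos])
    have h7 : 2 / Real.pi * (Real.pi * |r|) = 2 * |r| := by
      field_simp
    rw [h7] at h6
    exact h6
  linarith

theorem nd_nonneg (t : ℝ) : 0 ≤ nd t := abs_nonneg _

/-- the geometric sum -/
theorem geom {t : ℝ} (ht : 0 < nd t) (M : ℕ) :
    ‖∑ q ∈ Icc 1 M, ex (q * t)‖ ≤ 1 / (2 * nd t) := by
  have h1 := norm_ex_sub_one t
  have h2 : 0 < ‖ex t - 1‖ := by linarith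
  have h3 : (∑ q ∈ Icc 1 M, ex (q * t)) * (ex t - 1) = ex t ^ (M + 1) - ex t := by
    have h4 : ∑ q ∈ Icc 1 M, ex (q * t) = ∑ q ∈ Ico 1 (M + 1), ex t ^ q := by
      apply Finset.sum_congr
      · ext a
        rw [mem_Icc, mem_Ico]
        omega
      · intro q _
        exact ex_nat_mul q t
    rw [h4, geom_sum_Ico_mul _ (by omega), pow_one]
  have h5 : ‖∑ q ∈ Icc 1 M, ex (q * t)‖ * ‖ex t - 1‖ ≤ 2 := by
    rw [← norm_mul, h3]
    calc ‖ex t ^ (M + 1) - ex t‖ ≤ ‖ex t ^ (M + 1)‖ + ‖ex t‖ := norm_sub_le _ _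
      _ = 2 := by
        rw [norm_pow, norm_ex, one_pow]
        norm_num
  rw [le_div_iff₀ (by positivity)]
  nlinarith [norm_nonneg (∑ q ∈ Icc 1 M, ex (q * t))]

end KERX

open KERX in
theorem ker_proof (hSHF : Stmt_SHF) : Stmt_KER := by
  intro S y M β θ η hS hM hMy hη
  have hM0 : (0 : ℝ) < M := by exact_mod_cast hM
  have hc0 : (0 : ℝ) ≤ S.card := Nat.cast_nonneg _
  set A : ℂ := ∑ m ∈ S, ex (m * θ) with hA
  -- one shift
  have h1 : ∀ q ∈ Icc 1 M, ‖∑ m ∈ S, ex (q * (m * θ)) - A‖ ≤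
      2 * Nat.log 2 M * β * S.card := by
    intro q hq
    rw [mem_Icc] at hq
    have h2 := hSHF S y β (fun m => ex (m * θ)) q hS hq.1
      (fun p hp hpq => (Nat.le_of_dvd (by omega) hpq).trans (hq.2.trans hMy))
      (fun m => (norm_ex _).le)
    have h3 : ∑ m ∈ S, ex (((q * m : ℕ) : ℝ) * θ) = ∑ m ∈ S, ex (q * (m * θ)) := by
      apply Finset.sum_congr rfl
      intro m _
      push_cast
      rw [mul_assoc]
    rw [h3] at h2
    refine h2.trans ?_
    by_cases hy : 2 ≤ y
    · have h4 : 0 ≤ β * S.card := by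
        have := hS.bd 2 Nat.prime_two hy
        exact (Nat.cast_nonneg _).trans this
      have h5 : (Nat.log 2 q : ℝ) ≤ Nat.log 2 M := by
        exact_mod_cast Nat.log_mono_right hq.2
      nlinarith
    · have h6 : q = 1 := by omega
      have h7 : M = 1 := by omega
      rw [h6, h7]
  -- the average
  have h2 : ‖∑ q ∈ Icc 1 M, ∑ m ∈ S, ex (q * (m * θ)) - M * A‖ ≤
      M * (2 * Nat.log 2 M * β * S.card) := by
    have h3 : ∑ q ∈ Icc 1 M, ∑ m ∈ S, ex (q * (m * θ)) - M * A =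
        ∑ q ∈ Icc 1 M, (∑ m ∈ S, ex (q * (m * θ)) - A) := by
      rw [Finset.sum_sub_distrib, Finset.sum_const, Nat.card_Icc, Nat.add_sub_cancel,
        nsmul_eq_mul]
    rw [h3]
    refine (norm_sum_le _ _).trans ?_
    refine (Finset.sum_le_sum h1).trans ?_
    rw [Finset.sum_const, Nat.card_Icc, Nat.add_sub_cancel, nsmul_eq_mul]
  -- the inner sums
  have h3 : ‖∑ q ∈ Icc 1 M, ∑ m ∈ S, ex (q * (m * θ))‖ ≤
      M * (Z S θ (1 / (2 * η * M))).card + M * η * S.card := by
    rw [Finset.sum_comm]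
    refine (norm_sum_le _ _).trans ?_
    have h4 : ∀ m ∈ S, ‖∑ q ∈ Icc 1 M, ex (q * (m * θ))‖ ≤
        (if nd (m * θ) < 1 / (2 * η * M) then (M : ℝ) else 0) + M * η := by
      intro m _
      split_ifs with hm
      · have h5 : ‖∑ q ∈ Icc 1 M, ex (q * (m * θ))‖ ≤ M := by
          refine (norm_sum_le _ _).trans ?_
          rw [Finset.sum_congr rfl (fun q _ => norm_ex _), Finset.sum_const, Nat.card_Icc,
            Nat.add_sub_cancel, nsmul_eq_mul, mul_one]
        have h6 : 0 ≤ M * η := by positivity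
        linarith
      · push Not at hm
        have h5 : 0 < nd (m * θ) := lt_of_lt_of_le (by positivity) hm
        refine (geom h5 M).trans ?_
        rw [zero_add, div_le_iff₀ (by positivity)]
        rw [div_le_iff₀ (by positivity)] at hm
        linarith
    refine (Finset.sum_le_sum h4).trans ?_
    rw [Finset.sum_add_distrib, Finset.sum_const, nsmul_eq_mul, ← Finset.sum_filter,
      Finset.sum_const, nsmul_eq_mul, Z]
    linarith
  have h4 : ‖(M : ℂ) * A‖ ≤ M * (2 * Nat.log 2 M * β * S.card) +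
      (M * (Z S θ (1 / (2 * η * M))).card + M * η * S.card) := by
    have h5 : (M : ℂ) * A = ∑ q ∈ Icc 1 M, ∑ m ∈ S, ex (q * (m * θ)) -
        (∑ q ∈ Icc 1 M, ∑ m ∈ S, ex (q * (m * θ)) - M * A) := by ring
    rw [h5]
    refine (norm_sub_le _ _).trans ?_
    linarith
  rw [norm_mul, Complex.norm_natCast] at h4
  apply le_of_mul_le_mul_left _ hM0
  refine h4.trans (le_of_eq ?_)
  ring

end Pool.Agent.SMP
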