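import Pool.Agent.SMP.Stmts

set_option autoImplicit false

namespace Pool.Agent.SMP

open Finset

namespace PSIX

lemma pow_diff (x y : ℝ) (hy : 0 ≤ y) (hxy : y ≤ x) (k : ℕ) :
    ((k : ℝ) + 1) * (x - y) * y ^ k ≤ x ^ (k + 1) - y ^ (k + 1) ∧
      x ^ (k + 1) - y ^ (k + 1) ≤ ((k : ℝ) + 1) * (x - y) * x ^ k := by
  have hx : 0 ≤ x := hy.trans hxy
  have hd : 0 ≤ x - y := sub_nonneg.mpr hxy
  induction k with
  | zero => simp
  | succ k ih =>
    obtain ⟨h1, h2⟩ := ih
    have e : x ^ (k + 1 + 1) - y ^ (k + 1 + 1)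
        = y * (x ^ (k + 1) - y ^ (k + 1)) + (x - y) * x ^ (k + 1) := by ring
    have e' : x ^ (k + 1 + 1) - y ^ (k + 1 + 1)
        = x * (x ^ (k + 1) - y ^ (k + 1)) + (x - y) * y ^ (k + 1) := by ring
    have hp : y ^ (k + 1) ≤ x ^ (k + 1) := pow_le_pow_left₀ hy hxy _
    push_cast
    constructor
    · rw [e]
      have a1 := mul_le_mul_of_nonneg_left h1 hy
      have a2 := mul_le_mul_of_nonneg_left hp hd
      calc ((k : ℝ) + 1 + 1) * (x - y) * y ^ (k + 1)
          = y * (((k : ℝ) + 1) * (x - y) * y ^ k) + (x - y) * y ^ (k + 1) := by ring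
        _ ≤ _ := add_le_add a1 a2
    · rw [e']
      have a1 := mul_le_mul_of_nonneg_left h2 hx
      have a2 := mul_le_mul_of_nonneg_left hp hd
      calc x * (x ^ (k + 1) - y ^ (k + 1)) + (x - y) * y ^ (k + 1)
          ≤ x * (((k : ℝ) + 1) * (x - y) * x ^ k) + (x - y) * x ^ (k + 1) := add_le_add a1 a2
        _ = ((k : ℝ) + 1 + 1) * (x - y) * x ^ (k + 1) := by ring

lemma mem_SP {P : Finset ℕ} {X : ℝ} {m : ℕ} :
    m ∈ SP P X ↔ (1 ≤ m ∧ m ≤ ⌊X⌋₊) ∧ m.primeFactors ⊆ P := by
  simp [SP]

/-- the fibre of the exponent of `q` -/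
lemma fiber (P : Finset ℕ) (q : ℕ) (hq : q.Prime) (hqP : q ∉ P) (X : ℝ) (hX : 0 ≤ X) (a : ℕ) :
    ((SP (insert q P) X).filter (fun m => m.factorization q = a)).card =
      (SP P (X / (q : ℝ) ^ a)).card := by
  have hq0 : 0 < (q : ℝ) ^ a := by
    have := hq.pos
    positivity
  have hqa : 0 < q ^ a := pow_pos hq.pos a
  symm
  apply Finset.card_bij (fun m _ => q ^ a * m)
  · intro m hm
    rw [mem_SP] at hm
    obtain ⟨⟨h1, h2⟩, h3⟩ := hm
    have hm0 : m ≠ 0 := by omega
    have hqm : ¬ q ∣ m := by
      intro hd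
      exact hqP (h3 (Nat.mem_primeFactors.mpr ⟨hq, hd, hm0⟩))
    rw [mem_filter, mem_SP]
    refine ⟨⟨⟨?_, ?_⟩, ?_⟩, ?_⟩
    · exact Nat.mul_pos hqa (by omega)
    · rw [Nat.le_floor_iff hX]
      rw [Nat.le_floor_iff (by positivity)] at h2
      push_cast
      rw [le_div_iff₀ hq0] at h2
      linarith [mul_comm ((q : ℝ) ^ a) (m : ℝ)]
    · intro p hp
      rw [Nat.mem_primeFactors] at hp
      obtain ⟨hp1, hp2, hp3⟩ := hp
      rcases (Nat.Prime.dvd_mul hp1).mp hp2 with h | h
      · have : p ∣ q := hp1.dvd_of_dvd_pow h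
        rw [(Nat.prime_dvd_prime_iff_eq hp1 hq).mp this]
        exact mem_insert_self _ _
      · exact mem_insert_of_mem (h3 (Nat.mem_primeFactors.mpr ⟨hp1, h, hm0⟩))
    · rw [Nat.factorization_mul (by positivity) hm0]
      simp [hq.factorization_pow, Nat.factorization_eq_zero_of_not_dvd hqm]
  · intro m _ m' _ h
    exact Nat.eq_of_mul_eq_mul_left hqa h
  · intro m hm
    rw [mem_filter, mem_SP] at hm
    obtain ⟨⟨⟨h1, h2⟩, h3⟩, h4⟩ := hm
    have hm0 : m ≠ 0 := by omega
    have hd : q ^ a ∣ m := by rw [← h4]; exact Nat.ordProj_dvd m q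
    obtain ⟨n, hn⟩ := hd
    have hn0 : n ≠ 0 := by
      rintro rfl
      simp at hn
      omega
    refine ⟨n, ?_, hn.symm⟩
    rw [mem_SP]
    refine ⟨⟨by omega, ?_⟩, ?_⟩
    · rw [Nat.le_floor_iff (by positivity), le_div_iff₀ hq0]
      rw [Nat.le_floor_iff hX, hn] at h2
      push_cast at h2
      linarith [mul_comm ((q : ℝ) ^ a) (n : ℝ)]
    · intro p hp
      have hp' := Nat.mem_primeFactors.mp hp
      have hpm : p ∈ m.primeFactors := Nat.mem_primeFactors.mpr
        ⟨hp'.1, hn ▸ (Dvd.dvd.mul_left hp'.2.1 _), hm0⟩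
      rcases mem_insert.mp (h3 hpm) with h | h
      · exfalso
        subst h
        have : m.factorization p = a + n.factorization p := by
          rw [hn, Nat.factorization_mul (by positivity) hn0]
          simp [hq.factorization_pow]
        have h5 : 0 < n.factorization p := hq.factorization_pos_of_dvd hn0 hp'.2.1
        omega
      · exact h

lemma count (P : Finset ℕ) (q : ℕ) (hq : q.Prime) (hqP : q ∉ P) (X : ℝ) (hX : 1 ≤ X) (A : ℕ)
    (hA : Real.log X < (A + 1) * Real.log q) :
    (SP (insert q P) X).card = ∑ a ∈ range (A + 1), (SP P (X / (q : ℝ) ^ a)).card := by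
  have hlq : 0 < Real.log q := Real.log_pos (by exact_mod_cast hq.one_lt)
  rw [Finset.card_eq_sum_card_fiberwise (f := fun m => m.factorization q) (t := range (A + 1))]
  · exact Finset.sum_congr rfl (fun a _ => fiber P q hq hqP X (by linarith) a)
  · intro m hm
    have hm' := mem_SP.mp (Finset.mem_coe.mp hm)
    obtain ⟨⟨h1, h2⟩, h3⟩ := hm'
    rw [Finset.coe_range, Set.mem_Iio]
    by_contra hcon
    push Not at hcon
    have hm0 : m ≠ 0 := by omega
    have hd : q ^ (m.factorization q) ∣ m := Nat.ordProj_dvd m q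
    have hle : q ^ (A + 1) ≤ m := (Nat.pow_le_pow_right hq.pos hcon).trans (Nat.le_of_dvd (by omega) hd)
    have h5 : ((q ^ (A + 1) : ℕ) : ℝ) ≤ X := by
      rw [Nat.le_floor_iff (by linarith)] at h2
      exact le_trans (by exact_mod_cast hle) h2
    have h6 : Real.log ((q ^ (A + 1) : ℕ) : ℝ) ≤ Real.log X := by
      apply Real.log_le_log _ h5
      exact_mod_cast pow_pos hq.pos _
    push_cast at h6
    rw [Real.log_pow] at h6
    push_cast at h6
    linarith

end PSIX

open PSIX in
theorem psi_proof : Stmt_PSI := by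
  intro P
  induction P using Finset.induction_on with
  | empty =>
    intro X _ hX
    have : SP ∅ X = {1} := by
      ext m
      rw [mem_SP, Finset.subset_empty, Nat.primeFactors_eq_empty, Finset.mem_singleton]
      constructor
      · rintro ⟨⟨h1, _⟩, h | h⟩
        · omega
        · exact h
      · rintro rfl
        exact ⟨⟨le_rfl, Nat.le_floor (by simpa using hX)⟩, Or.inr rfl⟩
    rw [this]
    simp
  | insert q P hqP ih =>
    intro X hP hX
    have hq : q.Prime := hP q (mem_insert_self _ _)
    have hP' : ∀ p ∈ P, p.Prime := fun p hp => hP p (mem_insert_of_mem hp)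
    have hlq : 0 < Real.log q := Real.log_pos (by exact_mod_cast hq.one_lt)
    have hu : 0 ≤ Real.log X := Real.log_nonneg hX
    have hσ : 0 ≤ Th P := Finset.sum_nonneg (fun p hp =>
      Real.log_nonneg (by exact_mod_cast (hP' p hp).one_lt.le))
    have hTh : Th (insert q P) = Real.log q + Th P := by
      unfold Th
      rw [Finset.sum_insert hqP]
    set A : ℕ := ⌊Real.log X / Real.log q⌋₊ with hAdef
    have hA1 : (A : ℝ) * Real.log q ≤ Real.log X := by
      have := Nat.floor_le (div_nonneg hu hlq.le)
      rwa [le_div_iff₀ hlq] at this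
    have hA2 : Real.log X < (A + 1) * Real.log q := by
      have := Nat.lt_floor_add_one (Real.log X / Real.log q)
      rwa [div_lt_iff₀ hlq] at this
    set k := P.card with hk
    set F : ℝ := (k.factorial : ℝ) * ∏ p ∈ P, Real.log p with hF
    have hF' : (((insert q P).card.factorial : ℕ) : ℝ) * ∏ p ∈ insert q P, Real.log p
        = ((k : ℝ) + 1) * Real.log q * F := by
      rw [Finset.card_insert_of_notMem hqP, Finset.prod_insert hqP, Nat.factorial_succ, hF, ← hk]
      push_cast
      ring
    have hta : ∀ a ∈ range (A + 1), 0 ≤ Real.log X - a * Real.log q := by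
      intro a ha
      have : a ≤ A := Nat.lt_succ_iff.mp (mem_range.mp ha)
      have h2 : (a : ℝ) ≤ A := by exact_mod_cast this
      nlinarith
    have hloga : ∀ a : ℕ, Real.log (X / (q : ℝ) ^ a) = Real.log X - a * Real.log q := by
      intro a
      have hq0 : (q : ℝ) ^ a ≠ 0 := by
        have := hq.pos
        positivity
      rw [Real.log_div (by linarith) hq0, Real.log_pow]
    have hXa : ∀ a ∈ range (A + 1), 1 ≤ X / (q : ℝ) ^ a := by
      intro a ha
      have hpos : 0 < X / (q : ℝ) ^ a := by
        have := hq.pos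
        have : 0 < X := by linarith
        positivity
      by_contra hcon
      push Not at hcon
      have h1 := Real.log_neg hpos hcon
      rw [hloga] at h1
      linarith [hta a ha]
    have hcount : ((SP (insert q P) X).card : ℝ)
        = ∑ a ∈ range (A + 1), ((SP P (X / (q : ℝ) ^ a)).card : ℝ) := by
      rw [count P q hq hqP X hX A hA2]
      push_cast
      rfl
    rw [hF', hcount, Finset.card_insert_of_notMem hqP, ← hk, hTh, Finset.sum_mul]
    constructor
    · -- lower bound
      have hstep : ∀ a ∈ range (A + 1),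
          (max (Real.log X - (a : ℕ) * Real.log q) 0) ^ (k + 1) -
            (max (Real.log X - ((a + 1 : ℕ) : ℝ) * Real.log q) 0) ^ (k + 1) ≤
          ((SP P (X / (q : ℝ) ^ a)).card : ℝ) * (((k : ℝ) + 1) * Real.log q * F) := by
        intro a ha
        have h0 := hta a ha
        have h1 := (ih (X / (q : ℝ) ^ a) hP' (hXa a ha)).1
        rw [hloga] at h1
        set t := Real.log X - a * Real.log q with ht
        have e1 : Real.log X - ((a + 1 : ℕ) : ℝ) * Real.log q = t - Real.log q := by
          push_cast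
          ring
        rw [e1, max_eq_left h0]
        have h2 : t ^ (k + 1) - (max (t - Real.log q) 0) ^ (k + 1) ≤
            ((k : ℝ) + 1) * Real.log q * t ^ k := by
          have h3 := (pow_diff t (max (t - Real.log q) 0) (le_max_right _ _)
            (max_le (by linarith) h0) k).2
          refine h3.trans ?_
          have h4 : t - max (t - Real.log q) 0 ≤ Real.log q := by
            have := le_max_left (t - Real.log q) 0
            linarith
          have h5 : 0 ≤ t ^ k := pow_nonneg h0 k
          have h6 : 0 ≤ (k : ℝ) + 1 := by positivity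
          exact mul_le_mul_of_nonneg_right (mul_le_mul_of_nonneg_left h4 h6) h5
        refine h2.trans ?_
        have h7 : 0 ≤ ((k : ℝ) + 1) * Real.log q := by positivity
        calc ((k : ℝ) + 1) * Real.log q * t ^ k
            ≤ ((k : ℝ) + 1) * Real.log q * (((SP P (X / (q : ℝ) ^ a)).card : ℝ) * F) :=
              mul_le_mul_of_nonneg_left h1 h7
          _ = _ := by ring
      refine le_trans ?_ (Finset.sum_le_sum hstep)
      rw [Finset.sum_range_sub' (fun a : ℕ => (max (Real.log X - (a : ℝ) * Real.log q) 0) ^ (k + 1))]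
      have e0 : max (Real.log X - ((0 : ℕ) : ℝ) * Real.log q) 0 = Real.log X := by
        simp [hu]
      have e1 : max (Real.log X - ((A + 1 : ℕ) : ℝ) * Real.log q) 0 = 0 := by
        apply max_eq_right
        push_cast
        linarith
      rw [e0, e1]
      simp
    · -- upper bound
      have hstep : ∀ a ∈ range (A + 1),
          ((SP P (X / (q : ℝ) ^ a)).card : ℝ) * (((k : ℝ) + 1) * Real.log q * F) ≤
          (Real.log X - ((a : ℕ) : ℝ) * Real.log q + (Real.log q + Th P)) ^ (k + 1) -
            (Real.log X - ((a + 1 : ℕ) : ℝ) * Real.log q + (Real.log q + Th P)) ^ (k + 1) := by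
        intro a ha
        have h0 := hta a ha
        have h1 := (ih (X / (q : ℝ) ^ a) hP' (hXa a ha)).2
        rw [hloga] at h1
        set t := Real.log X - a * Real.log q with ht
        have e1 : Real.log X - ((a + 1 : ℕ) : ℝ) * Real.log q + (Real.log q + Th P)
            = t + Th P := by
          push_cast
          ring
        rw [e1]
        have h2 := (pow_diff (t + (Real.log q + Th P)) (t + Th P) (by linarith) (by linarith) k).1
        have e2 : t + (Real.log q + Th P) - (t + Th P) = Real.log q := by ring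
        rw [e2] at h2
        refine le_trans ?_ h2
        have h7 : 0 ≤ ((k : ℝ) + 1) * Real.log q := by positivity
        calc ((SP P (X / (q : ℝ) ^ a)).card : ℝ) * (((k : ℝ) + 1) * Real.log q * F)
            = ((k : ℝ) + 1) * Real.log q * (((SP P (X / (q : ℝ) ^ a)).card : ℝ) * F) := by ring
          _ ≤ _ := mul_le_mul_of_nonneg_left h1 h7
      refine le_trans (Finset.sum_le_sum hstep) ?_
      rw [Finset.sum_range_sub' (fun a : ℕ =>
        (Real.log X - (a : ℝ) * Real.log q + (Real.log q + Th P)) ^ (k + 1))]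
      have h8 : 0 ≤ (Real.log X - ((A + 1 : ℕ) : ℝ) * Real.log q + (Real.log q + Th P)) ^ (k + 1) := by
        apply pow_nonneg
        push_cast
        nlinarith
      have e3 : Real.log X - ((0 : ℕ) : ℝ) * Real.log q + (Real.log q + Th P)
          = Real.log X + (Real.log q + Th P) := by simp
      rw [e3]
      linarith

end Pool.Agent.SMP
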