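import Pool.Agent.SMP.Stmts

set_option autoImplicit false

namespace Pool.Agent.SMP

open Finset

namespace SHFX

theorem prime_case {S : Finset ℕ} {y : ℕ} {β : ℝ} (hS : Down S y β) (F : ℕ → ℂ)
    (hF : ∀ m, ‖F m‖ ≤ 1) {p : ℕ} (hp : p.Prime) (hpy : p ≤ y) :
    ‖∑ m ∈ S, F (p * m) - ∑ m ∈ S, F m‖ ≤ 2 * (β * S.card) := by
  have hinj : Function.Injective (fun m : ℕ => p * m) := fun a b hab =>
    Nat.eq_of_mul_eq_mul_left hp.pos hab
  set T : Finset ℕ := S.image (fun m => p * m) with hT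
  have h1 : ∑ m ∈ S, F (p * m) = ∑ n ∈ T, F n := by
    rw [hT, sum_image (fun a _ b _ hab => hinj hab)]
  have hcard : T.card = S.card := card_image_of_injective S hinj
  have h2 : S \ T ⊆ S.filter (fun m => ¬ p ∣ m) := by
    intro m hm
    rw [mem_sdiff] at hm
    refine mem_filter.2 ⟨hm.1, fun hpm => hm.2 ?_⟩
    obtain ⟨k, hk⟩ := hpm
    refine mem_image.2 ⟨k, hS.dvd m hm.1 k ⟨p, by rw [hk, mul_comm]⟩, hk.symm⟩
  have h3 : ((S \ T).card : ℝ) ≤ β * S.card :=
    (by exact_mod_cast card_le_card h2 : ((S \ T).card : ℝ) ≤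
      ((S.filter (fun m => ¬ p ∣ m)).card : ℝ)).trans (hS.bd p hp hpy)
  have h4 : (T \ S).card = (S \ T).card := by
    have h5 := card_sdiff_add_card_inter T S
    have h6 := card_sdiff_add_card_inter S T
    rw [inter_comm] at h5
    omega
  have h7 : ∑ n ∈ T, F n - ∑ m ∈ S, F m = ∑ n ∈ T \ S, F n - ∑ n ∈ S \ T, F n := by
    have h8 := sum_inter_add_sum_sdiff T S F
    have h9 := sum_inter_add_sum_sdiff S T F
    rw [inter_comm] at h8
    rw [← h8, ← h9]
    ring
  have hb : ∀ A : Finset ℕ, ‖∑ n ∈ A, F n‖ ≤ A.card := by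
    intro A
    refine (norm_sum_le _ _).trans ?_
    calc ∑ n ∈ A, ‖F n‖ ≤ ∑ _n ∈ A, (1 : ℝ) := sum_le_sum fun n _ => hF n
      _ = A.card := by rw [sum_const, nsmul_eq_mul, mul_one]
  rw [h1, h7]
  calc ‖∑ n ∈ T \ S, F n - ∑ n ∈ S \ T, F n‖
      ≤ ‖∑ n ∈ T \ S, F n‖ + ‖∑ n ∈ S \ T, F n‖ := norm_sub_le _ _
    _ ≤ (T \ S).card + (S \ T).card := add_le_add (hb _) (hb _)
    _ ≤ 2 * (β * S.card) := by
        rw [h4]
        linarith

end SHFX

open SHFX

theorem shf_proof : Stmt_SHF := by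
  intro S y β F q hS hq hqy hF
  induction q using Nat.strong_induction_on with
  | _ q ih =>
    rcases Nat.lt_or_ge 1 q with h1 | h1
    · have hp : (q.minFac).Prime := Nat.minFac_prime (by omega)
      obtain ⟨k, hk⟩ := Nat.minFac_dvd q
      have hpy : q.minFac ≤ y := hqy _ hp (Nat.minFac_dvd q)
      have hk0 : 0 < k := by
        rcases Nat.eq_zero_or_pos k with rfl | h
        · rw [mul_zero] at hk
          omega
        · exact h
      have hkq : k < q := by
        have h2 := Nat.mul_le_mul_right k hp.two_le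
        rw [← hk] at h2
        omega
      have h3 := ih k hkq hk0 fun p hpp hpk => hqy p hpp (hpk.trans ⟨q.minFac, by
        rw [mul_comm]; exact hk⟩)
      have h4 := prime_case hS (fun m => F (k * m)) (fun m => hF _) hp hpy
      have h5 : ∀ m : ℕ, F (q * m) = F (k * (q.minFac * m)) := by
        intro m
        congr 1
        conv_lhs => rw [hk]
        ring
      have h6 : Nat.log 2 k + 1 ≤ Nat.log 2 q := by
        rw [← Nat.log_mul_base (by norm_num) hk0.ne']
        refine Nat.log_mono_right ?_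
        have h2 := Nat.mul_le_mul_right k hp.two_le
        rw [← hk] at h2
        omega
      have h7 : (0 : ℝ) ≤ β * S.card := (Nat.cast_nonneg _).trans (hS.bd _ hp hpy)
      have h8 : (Nat.log 2 k : ℝ) + 1 ≤ Nat.log 2 q := by exact_mod_cast h6
      have h9 : ∑ m ∈ S, F (q * m) - ∑ m ∈ S, F m
          = (∑ m ∈ S, F (k * (q.minFac * m)) - ∑ m ∈ S, F (k * m))
            + (∑ m ∈ S, F (k * m) - ∑ m ∈ S, F m) := by
        rw [sum_congr rfl fun m _ => h5 m]
        ring
      rw [h9]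
      refine (norm_add_le _ _).trans ((add_le_add h4 h3).trans ?_)
      nlinarith [mul_le_mul_of_nonneg_right h8 h7]
    · have h2 : q = 1 := by omega
      subst h2
      simp

end Pool.Agent.SMP
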