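import Pool.Agent.SMP.Stmts

set_option autoImplicit false

namespace Pool.Agent.SMP

open Finset

namespace SUMX

lemma harm (j : ℕ) (hj : 1 ≤ j) (M : ℕ) :
    ∑ n ∈ range (M + 1), (1 : ℝ) / ((n : ℝ) + j) ≤
      1 + Real.log ((M : ℝ) + j) - Real.log j := by
  have hjr : (1 : ℝ) ≤ j := by exact_mod_cast hj
  induction M with
  | zero =>
    simp only [zero_add, range_one, sum_singleton, Nat.cast_zero]
    have h1 : 1 / (j : ℝ) ≤ 1 := by
      rw [div_le_one (by linarith)]
      exact hjr
    linarith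
  | succ M ih =>
    rw [sum_range_succ]
    have hM : (0 : ℝ) ≤ M := Nat.cast_nonneg _
    have hp : (0 : ℝ) < (M : ℝ) + j := by linarith
    have hp1 : (0 : ℝ) < (M : ℝ) + j + 1 := by linarith
    have h1 := Real.add_one_le_exp (-(1 / ((M : ℝ) + j + 1)))
    have h2 : (M : ℝ) + j = ((M : ℝ) + j + 1) * (-(1 / ((M : ℝ) + j + 1)) + 1) := by
      field_simp
      ring
    have h3 : Real.log ((M : ℝ) + j) ≤ Real.log ((M : ℝ) + j + 1) - 1 / ((M : ℝ) + j + 1) := by
      have h4 : (M : ℝ) + j ≤ ((M : ℝ) + j + 1) * Real.exp (-(1 / ((M : ℝ) + j + 1))) := by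
        calc (M : ℝ) + j = ((M : ℝ) + j + 1) * (-(1 / ((M : ℝ) + j + 1)) + 1) := h2
          _ ≤ _ := mul_le_mul_of_nonneg_left h1 hp1.le
      have h5 := Real.log_le_log hp h4
      rw [Real.log_mul hp1.ne' (Real.exp_ne_zero _), Real.log_exp] at h5
      linarith
    push_cast
    have h6 : (M : ℝ) + 1 + j = M + j + 1 := by ring
    rw [h6]
    linarith

end SUMX

open SUMX in
theorem sum_proof : Stmt_SUM := by
  intro j B V K hj hB hV hVK
  have hjp : (0 : ℝ) < j := by exact_mod_cast hj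
  have hBp : (0 : ℝ) < B := by exact_mod_cast hB
  have hVp : (0 : ℝ) < V := by exact_mod_cast hV
  have hV1 : (1 : ℝ) ≤ V := by exact_mod_cast hV
  have hterm : ∀ n : ℕ, ((n + j - 1).choose (j - 1) : ℝ) / (Uf j B n : ℝ) ^ j *
      ((j - 1).factorial : ℝ) ≤
      (3 * (j : ℝ)) ^ j * (1 / ((n : ℝ) + j)) + ((n : ℝ) + j) ^ (j - 1) / (B : ℝ) ^ j := by
    intro n
    have hnj : (0 : ℝ) < (n : ℝ) + j := by positivity
    have h1 : ((n + j - 1).choose (j - 1) : ℝ) * ((j - 1).factorial : ℝ) ≤
        ((n : ℝ) + j) ^ (j - 1) := by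
      have h2 : (n + j - 1).choose (j - 1) * (j - 1).factorial ≤ (n + j) ^ (j - 1) := by
        rw [mul_comm, ← Nat.descFactorial_eq_factorial_mul_choose]
        exact (Nat.descFactorial_le_pow _ _).trans (Nat.pow_le_pow_left (by omega) _)
      exact_mod_cast h2
    have hU1 : 1 ≤ Uf j B n := le_min (le_trans (by norm_num) (Nat.le_add_right 3 _)) hB
    have hUp : (0 : ℝ) < (Uf j B n : ℝ) := by exact_mod_cast hU1
    have h2 : 1 / (Uf j B n : ℝ) ^ j ≤
        (3 * (j : ℝ)) ^ j / ((n : ℝ) + j) ^ j + 1 / (B : ℝ) ^ j := by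
      rcases le_total (3 + n / (3 * j)) B with h | h
      · have h3 : Uf j B n = 3 + n / (3 * j) := min_eq_left h
        have h4 : n + j ≤ 3 * j * Uf j B n := by
          rw [h3]
          have h5 : n < 3 * j * (n / (3 * j)) + 3 * j := by
            have := Nat.lt_mul_div_succ n (show 0 < 3 * j by omega)
            linarith
          have h6 : 3 * j * (3 + n / (3 * j)) = 9 * j + 3 * j * (n / (3 * j)) := by ring
          omega
        have h5 : (n : ℝ) + j ≤ 3 * j * (Uf j B n : ℝ) := by exact_mod_cast h4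
        have h6 : ((n : ℝ) + j) ^ j ≤ (3 * (j : ℝ)) ^ j * (Uf j B n : ℝ) ^ j := by
          rw [← mul_pow]
          exact pow_le_pow_left₀ hnj.le h5 j
        have h7 : 1 / (Uf j B n : ℝ) ^ j ≤ (3 * (j : ℝ)) ^ j / ((n : ℝ) + j) ^ j := by
          rw [div_le_div_iff₀ (by positivity) (by positivity)]
          linarith
        have h8 : 0 ≤ 1 / (B : ℝ) ^ j := by positivity
        linarith
      · have h3 : Uf j B n = B := min_eq_right h
        rw [h3]
        have h8 : 0 ≤ (3 * (j : ℝ)) ^ j / ((n : ℝ) + j) ^ j := by positivity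
        linarith
    calc ((n + j - 1).choose (j - 1) : ℝ) / (Uf j B n : ℝ) ^ j * ((j - 1).factorial : ℝ)
        = (((n + j - 1).choose (j - 1) : ℝ) * ((j - 1).factorial : ℝ)) *
            (1 / (Uf j B n : ℝ) ^ j) := by ring
      _ ≤ ((n : ℝ) + j) ^ (j - 1) *
            ((3 * (j : ℝ)) ^ j / ((n : ℝ) + j) ^ j + 1 / (B : ℝ) ^ j) :=
          mul_le_mul h1 h2 (by positivity) (by positivity)
      _ = _ := by
          have h9 : ((n : ℝ) + j) ^ j = ((n : ℝ) + j) ^ (j - 1) * ((n : ℝ) + j) := by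
            rw [← pow_succ]
            congr 1
            omega
          rw [h9]
          field_simp
  rw [sum_mul]
  refine (sum_le_sum (fun n _ => hterm n)).trans ?_
  rw [sum_add_distrib, ← mul_sum]
  have hjV : 1 ≤ j * V := Nat.one_le_iff_ne_zero.2 (by positivity)
  apply add_le_add
  · apply mul_le_mul_of_nonneg_left _ (by positivity)
    have h1 := harm j hj (j * V - 1)
    rw [Nat.sub_add_cancel hjV] at h1
    refine h1.trans ?_
    have h2 : Real.log (((j * V - 1 : ℕ) : ℝ) + j) ≤ Real.log ((V : ℝ) + 1) + Real.log j := by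
      rw [← Real.log_mul (by positivity) (by positivity)]
      apply Real.log_le_log (by positivity)
      have h3 : (((j * V - 1 : ℕ) : ℝ)) ≤ (j : ℝ) * V := by
        have : j * V - 1 ≤ j * V := Nat.sub_le _ _
        exact_mod_cast this
      linarith
    linarith
  · have h1 : ∀ n ∈ range (j * V), ((n : ℝ) + j) ^ (j - 1) / (B : ℝ) ^ j ≤
        ((j : ℝ) * V + j) ^ (j - 1) / (B : ℝ) ^ j := by
      intro n hn
      rw [mem_range] at hn
      apply div_le_div_of_nonneg_right _ (by positivity)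
      apply pow_le_pow_left₀ (by positivity)
      have : (n : ℝ) ≤ (j : ℝ) * V := by exact_mod_cast hn.le
      linarith
    refine (sum_le_sum h1).trans ?_
    rw [sum_const, card_range, nsmul_eq_mul]
    have h2 : ((j : ℝ) * V + j) ^ j = ((j : ℝ) * V + j) * ((j : ℝ) * V + j) ^ (j - 1) := by
      rw [← pow_succ']
      congr 1
      omega
    have h3 : ((j * V : ℕ) : ℝ) * (((j : ℝ) * V + j) ^ (j - 1) / (B : ℝ) ^ j) ≤
        ((j : ℝ) * V + j) ^ j / (B : ℝ) ^ j := by
      rw [h2, ← mul_div_assoc]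
      apply div_le_div_of_nonneg_right _ (by positivity)
      apply mul_le_mul_of_nonneg_right _ (by positivity)
      push_cast
      linarith
    refine h3.trans ?_
    rw [← div_pow]
    apply pow_le_pow_left₀ (by positivity)
    rw [div_le_iff₀ hBp]
    have h4 : (j : ℝ) * V ≤ j * (K * B) := mul_le_mul_of_nonneg_left hVK hjp.le
    have h5 : (j : ℝ) ≤ j * V := le_mul_of_one_le_right hjp.le hV1
    have h6 : 2 * (j : ℝ) * K * B = 2 * (j * (K * B)) := by ring
    rw [h6]
    linarith

end Pool.Agent.SMP
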