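import Pool.Agent.SMP.Stmts

set_option autoImplicit false

namespace Pool.Agent.SMP

open Finset

namespace TYAX

theorem mem_PR {a b p : ℕ} : p ∈ PR a b ↔ (a < p ∧ p ≤ b) ∧ p.Prime := by
  unfold PR
  rw [Finset.mem_filter, Finset.mem_Ioc]

theorem card_PR_le (y : ℕ) : (PR 0 y).card ≤ y := by
  unfold PR
  refine (Finset.card_filter_le _ _).trans ?_
  rw [Nat.card_Ioc]
  omega

theorem one_lt {y : ℕ} {X : ℝ} (hy : 8 ≤ y) (hX : Real.exp ((y : ℝ) ^ 3) ≤ X) : 1 < X := by
  have h1 : (8 : ℝ) ≤ y := by exact_mod_cast hy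
  refine lt_of_lt_of_le ?_ hX
  rw [Real.one_lt_exp_iff]
  positivity

theorem le_log {y : ℕ} {X : ℝ} (hy : 8 ≤ y) (hX : Real.exp ((y : ℝ) ^ 3) ≤ X) :
    (y : ℝ) ^ 3 ≤ Real.log X := by
  rw [Real.le_log_iff_exp_le (by linarith [one_lt hy hX])]
  exact hX

/-- the arithmetic of the bound -/
theorem arith {k y Th lam L ly e H t : ℝ} (hk0 : 0 < k) (hky : k ≤ y) (hy : 8 ≤ y)
    (hTh : Th ≤ 2 * y) (hlam : 0 ≤ lam) (hly : lam ≤ ly) (hlyy : ly ≤ y) (hly0 : 0 < ly)
    (hL : y ^ 3 ≤ L) (he : 0 < e) (hH : H = L / (k * ly)) (ht : t ≤ e * H + 1) (ht0 : 0 ≤ t) :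
    k * (Th + t * lam) / L ≤ e + 4 / y := by
  have hy0 : 0 < y := by linarith
  have hL0 : 0 < L := lt_of_lt_of_le (by positivity) hL
  have h1 : t * lam ≤ (e * H + 1) * ly := by
    calc t * lam ≤ t * ly := mul_le_mul_of_nonneg_left hly ht0
      _ ≤ (e * H + 1) * ly := mul_le_mul_of_nonneg_right ht hly0.le
  have h2 : k * (e * H) * ly = e * L := by
    rw [hH]; field_simp
  have h3 : k * (Th + t * lam) ≤ e * L + k * (3 * y) := by
    have h4 : Th + t * lam ≤ 3 * y + e * H * ly := by nlinarith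
    have h5 := mul_le_mul_of_nonneg_left h4 hk0.le
    nlinarith
  have h6 : k * (3 * y) ≤ y * (3 * y) := mul_le_mul_of_nonneg_right hky (by positivity)
  have h7 : y * (3 * y) ≤ 4 / y * L := by
    rw [div_mul_eq_mul_div, le_div_iff₀ hy0]
    nlinarith [pow_pos hy0 3]
  rw [div_le_iff₀ hL0]
  nlinarith

end TYAX

open TYAX in
theorem tya_proof (h : Stmt_FRC) : Stmt_TYA := by
  intro y0 y X e hy0 hy hX he hTh
  have hX1 := one_lt hy hX
  have hL := le_log hy hX
  have hy8 : (8 : ℝ) ≤ y := by exact_mod_cast hy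
  have hLpos : 0 < Real.log X := Real.log_pos hX1
  set P := PR 0 y with hP
  set Q := PR y0 y with hQ
  set S := SP P X with hS
  have hkey : ∀ p ∈ Q, ((S.filter (fun m => (m.factorization p : ℝ) < e * HH y X)).card : ℝ) ≤
      (e + 4 / y) * S.card := by
    intro p hp
    have hp' := mem_PR.1 hp
    have hpP : p ∈ P := mem_PR.2 ⟨⟨by omega, hp'.1.2⟩, hp'.2⟩
    have hk0 : 0 < P.card := Finset.card_pos.2 ⟨p, hpP⟩
    have h1 := (h P X p ⌈e * HH y X⌉₊ (fun q hq => (mem_PR.1 hq).2) hX1 hpP).1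
    have h2 : S.filter (fun m => (m.factorization p : ℝ) < e * HH y X) =
        (SP P X).filter (fun m => m.factorization p < ⌈e * HH y X⌉₊) := by
      apply Finset.filter_congr
      intro m _
      exact Nat.lt_ceil.symm
    rw [h2]
    refine h1.trans (mul_le_mul_of_nonneg_right ?_ (Nat.cast_nonneg _))
    have hly0 : 0 < Real.log y := Real.log_pos (by linarith)
    have hk0' : (0 : ℝ) < P.card := by exact_mod_cast hk0
    have hH0 : 0 ≤ e * HH y X := by
      unfold HH
      positivity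
    have hp1 : (1 : ℝ) ≤ p := by exact_mod_cast hp'.2.one_lt.le
    refine arith (H := HH y X) (ly := Real.log y) hk0' ?_ hy8 hTh (Real.log_nonneg hp1) ?_ ?_
      hly0 hL he rfl (Nat.ceil_lt_add_one hH0).le (Nat.cast_nonneg _)
    · exact_mod_cast card_PR_le y
    · apply Real.log_le_log (by linarith)
      exact_mod_cast hp'.1.2
    · have := Real.log_le_sub_one_of_pos (show (0 : ℝ) < y by linarith)
      linarith
  set bad := S.filter (fun m => ¬ (4 * (Q.filter
      (fun p => (m.factorization p : ℝ) < e * HH y X)).card ≤ Q.card)) with hbad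
  have h1 : ∑ m ∈ S, ((Q.filter (fun p => (m.factorization p : ℝ) < e * HH y X)).card : ℝ) =
      ∑ p ∈ Q, ((S.filter (fun m => (m.factorization p : ℝ) < e * HH y X)).card : ℝ) := by
    have := Finset.sum_card_bipartiteAbove_eq_sum_card_bipartiteBelow
      (s := S) (t := Q) (fun (m p : ℕ) => (m.factorization p : ℝ) < e * HH y X)
    unfold Finset.bipartiteAbove Finset.bipartiteBelow at this
    exact_mod_cast this
  have h2 : ∑ p ∈ Q, ((S.filter (fun m => (m.factorization p : ℝ) < e * HH y X)).card : ℝ) ≤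
      Q.card * ((e + 4 / y) * S.card) := by
    refine (Finset.sum_le_sum hkey).trans ?_
    rw [Finset.sum_const, nsmul_eq_mul]
  have h3 : (bad.card : ℝ) * Q.card ≤
      4 * ∑ m ∈ S, ((Q.filter (fun p => (m.factorization p : ℝ) < e * HH y X)).card : ℝ) := by
    have h4 : (bad.card : ℝ) * Q.card ≤
        ∑ m ∈ bad, 4 * ((Q.filter (fun p => (m.factorization p : ℝ) < e * HH y X)).card : ℝ) := by
      rw [← nsmul_eq_mul, ← Finset.sum_const]
      apply Finset.sum_le_sum
      intro m hm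
      have h5 := (Finset.mem_filter.1 hm).2
      rw [not_le] at h5
      exact_mod_cast h5.le
    refine h4.trans ?_
    rw [Finset.mul_sum]
    apply Finset.sum_le_sum_of_subset_of_nonneg (Finset.filter_subset _ _)
    intro m _ _
    positivity
  rcases Nat.eq_zero_or_pos Q.card with hQ0 | hQ0
  · have h4 : bad = ∅ := by
      rw [Finset.eq_empty_iff_forall_notMem]
      intro m hm
      have h5 := (Finset.mem_filter.1 hm).2
      apply h5
      have h6 : (Q.filter (fun p => (m.factorization p : ℝ) < e * HH y X)).card ≤ Q.card :=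
        Finset.card_filter_le _ _
      omega
    rw [h4]
    simp only [Finset.card_empty, Nat.cast_zero]
    positivity
  · have hQ1 : (0 : ℝ) < Q.card := by exact_mod_cast hQ0
    have h4 : (bad.card : ℝ) * Q.card ≤ (4 * (e + 4 / y) * S.card) * Q.card := by
      rw [h1] at h3
      nlinarith
    exact le_of_mul_le_mul_right h4 hQ1

end Pool.Agent.SMP
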