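import Pool.Agent.SMP.Stmts

set_option autoImplicit false

namespace Pool.Agent.SMP

open Finset

namespace TYBX

/-- partial sums of the geometric series -/
theorem geom (κ : ℝ) (_ : 0 < κ) (T : ℕ) :
    (∑ t ∈ range T, Real.exp (-((t + 1 : ℕ) : ℝ) * κ)) * κ ≤ 1 := by
  have h : (∑ t ∈ range T, Real.exp (-((t + 1 : ℕ) : ℝ) * κ)) * κ ≤ 1 - Real.exp (-(T : ℝ) * κ) := by
    induction T with
    | zero => simp
    | succ T ih =>
      rw [sum_range_succ, add_mul]
      have h1 : Real.exp (-((T + 1 : ℕ) : ℝ) * κ) * (1 + κ) ≤ Real.exp (-(T : ℝ) * κ) := by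
        have e1 : Real.exp (-(T : ℝ) * κ) = Real.exp (-((T + 1 : ℕ) : ℝ) * κ) * Real.exp κ := by
          rw [← Real.exp_add]
          congr 1
          push_cast
          ring
        rw [e1]
        refine mul_le_mul_of_nonneg_left ?_ (Real.exp_pos _).le
        linarith [Real.add_one_le_exp κ]
      linarith
  linarith [Real.exp_pos (-(T : ℝ) * κ)]

/-- the sum of the exponents -/
theorem sum_fac (S : Finset ℕ) (p : ℕ) : ∃ T : ℕ, ∑ m ∈ S, (m.factorization p : ℝ) =
    ∑ t ∈ range T, ((S.filter (fun m => t + 1 ≤ m.factorization p)).card : ℝ) := by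
  refine ⟨S.sup (fun m => m.factorization p), ?_⟩
  have h1 : ∀ m ∈ S, (m.factorization p : ℝ) =
      ∑ t ∈ range (S.sup (fun m => m.factorization p)),
        (if t + 1 ≤ m.factorization p then (1 : ℝ) else 0) := by
    intro m hm
    rw [sum_ite, sum_const_zero, add_zero, sum_const, nsmul_eq_mul, mul_one]
    congr 1
    have h2 : (range (S.sup (fun m => m.factorization p))).filter
        (fun t => t + 1 ≤ m.factorization p) = range (m.factorization p) := by
      ext t
      simp only [mem_filter, mem_range]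
      have h3 : m.factorization p ≤ S.sup (fun m => m.factorization p) :=
        le_sup (f := fun m => m.factorization p) hm
      omega
    rw [h2, card_range]
  rw [sum_congr rfl h1, sum_comm]
  refine sum_congr rfl fun t _ => ?_
  rw [sum_ite, sum_const_zero, add_zero, sum_const, nsmul_eq_mul, mul_one]

theorem pr_sub {y0 y : ℕ} (h : y0 ≤ y) : PR 0 y0 ⊆ PR 0 y := by
  intro p hp
  unfold PR at *
  rw [mem_filter, mem_Ioc] at *
  exact ⟨⟨hp.1.1, hp.1.2.trans h⟩, hp.2⟩

theorem card_pr_le (y : ℕ) : (PR 0 y).card ≤ y := by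
  unfold PR
  refine (card_filter_le _ _).trans ?_
  rw [Nat.card_Ioc, Nat.sub_zero]

theorem card_pr_pos {y : ℕ} (hy : 8 ≤ y) : 0 < (PR 0 y).card := by
  rw [card_pos]
  refine ⟨2, ?_⟩
  unfold PR
  rw [mem_filter, mem_Ioc]
  exact ⟨⟨by norm_num, by omega⟩, Nat.prime_two⟩

theorem pr_prime {y p : ℕ} (hp : p ∈ PR 0 y) : p.Prime := by
  unfold PR at hp
  rw [mem_filter] at hp
  exact hp.2

/-- the average of the exponent of one prime -/
theorem one (hF : Stmt_FRC) {y : ℕ} {X : ℝ} (hy : 8 ≤ y) (hX : Real.exp ((y : ℝ) ^ 3) ≤ X)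
    (hTh : Th (PR 0 y) ≤ 2 * y) {p : ℕ} (hp : p ∈ PR 0 y) :
    (∑ m ∈ SP (PR 0 y) X, (m.factorization p : ℝ)) * Real.log p ≤
      3 / 2 * (Real.log X / (PR 0 y).card) * (SP (PR 0 y) X).card := by
  have hy' : (8 : ℝ) ≤ y := by exact_mod_cast hy
  have hX1 : 1 < X := by
    refine lt_of_lt_of_le ?_ hX
    rw [← Real.exp_zero]
    exact Real.exp_lt_exp.2 (by positivity)
  have hL : (y : ℝ) ^ 3 ≤ Real.log X := by
    rw [Real.le_log_iff_exp_le (by linarith)]
    exact hX
  have hL0 : 0 < Real.log X := lt_of_lt_of_le (by positivity) hL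
  have hk0 : (0 : ℝ) < (PR 0 y).card := by exact_mod_cast card_pr_pos hy
  have hky : ((PR 0 y).card : ℝ) ≤ y := by exact_mod_cast card_pr_le y
  have hp1 : 0 < Real.log p := Real.log_pos (by exact_mod_cast (pr_prime hp).one_lt)
  obtain ⟨T, hT⟩ := sum_fac (SP (PR 0 y) X) p
  set k : ℝ := ((PR 0 y).card : ℝ) with hk
  set κ : ℝ := k * Real.log p / Real.log X with hκ
  have hκ0 : 0 < κ := by positivity
  have hexp : Real.exp (k * Th (PR 0 y) / Real.log X) ≤ 3 / 2 := by
    have h1 : k * Th (PR 0 y) / Real.log X ≤ 1 / 4 := by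
      rw [div_le_iff₀ hL0]
      have h2 : k * Th (PR 0 y) ≤ y * (2 * y) := by
        have h3 : k * Th (PR 0 y) ≤ k * (2 * y) := mul_le_mul_of_nonneg_left hTh hk0.le
        have h4 : k * (2 * (y : ℝ)) ≤ y * (2 * y) :=
          mul_le_mul_of_nonneg_right hky (by positivity)
        linarith
      nlinarith
    refine (Real.exp_le_exp.2 h1).trans ?_
    have h5 : Real.exp (1 / 4 : ℝ) ^ 4 ≤ (3 / 2 : ℝ) ^ 4 := by
      rw [← Real.exp_nat_mul]
      norm_num
      have := Real.exp_one_lt_d9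
      norm_num at this
      linarith
    exact le_of_pow_le_pow_left₀ (by norm_num) (by norm_num) h5
  have hterm : ∀ t : ℕ, (((SP (PR 0 y) X).filter (fun m => t + 1 ≤ m.factorization p)).card : ℝ) ≤
      Real.exp (-((t + 1 : ℕ) : ℝ) * κ) * (3 / 2 * (SP (PR 0 y) X).card) := by
    intro t
    have h1 := (hF (PR 0 y) X p (t + 1) (fun q hq => pr_prime hq) hX1 hp).2
    have e1 : Real.exp (-(k * (((t + 1 : ℕ) : ℝ) * Real.log p - Th (PR 0 y))) / Real.log X) =
        Real.exp (-((t + 1 : ℕ) : ℝ) * κ) * Real.exp (k * Th (PR 0 y) / Real.log X) := by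
      rw [← Real.exp_add]
      congr 1
      rw [hκ]
      field_simp
      ring
    rw [e1] at h1
    refine h1.trans ?_
    rw [mul_assoc]
    refine mul_le_mul_of_nonneg_left ?_ (Real.exp_pos _).le
    exact mul_le_mul_of_nonneg_right hexp (Nat.cast_nonneg _)
  have hsum : (∑ m ∈ SP (PR 0 y) X, (m.factorization p : ℝ)) * κ ≤
      3 / 2 * (SP (PR 0 y) X).card := by
    rw [hT]
    have h1 := sum_le_sum (fun t (_ : t ∈ range T) => hterm t)
    rw [← sum_mul] at h1
    have h2 := mul_le_mul_of_nonneg_right h1 hκ0.le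
    have h3 := mul_le_mul_of_nonneg_right (geom κ hκ0 T)
      (show (0 : ℝ) ≤ 3 / 2 * (SP (PR 0 y) X).card by positivity)
    refine h2.trans ?_
    rw [one_mul] at h3
    refine le_trans (le_of_eq ?_) h3
    ring
  have e2 : (∑ m ∈ SP (PR 0 y) X, (m.factorization p : ℝ)) * Real.log p =
      ((∑ m ∈ SP (PR 0 y) X, (m.factorization p : ℝ)) * κ) * (Real.log X / k) := by
    rw [hκ]
    field_simp
  rw [e2]
  have h4 := mul_le_mul_of_nonneg_right hsum (show 0 ≤ Real.log X / k by positivity)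
  refine h4.trans (le_of_eq ?_)
  ring

end TYBX

open TYBX in
theorem tyb_proof (hF : Stmt_FRC) : Stmt_TYB := by
  intro y0 y X e hy0 hy hX he hTh
  have hy' : (8 : ℝ) ≤ y := by exact_mod_cast hy
  have hX1 : 1 < X := by
    refine lt_of_lt_of_le ?_ hX
    rw [← Real.exp_zero]
    exact Real.exp_lt_exp.2 (by positivity)
  have hL0 : 0 < Real.log X := Real.log_pos hX1
  have hk0 : (0 : ℝ) < (PR 0 y).card := by exact_mod_cast card_pr_pos hy
  set S := SP (PR 0 y) X with hS
  set k : ℝ := ((PR 0 y).card : ℝ) with hk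
  set G := S.filter (fun m => e * Real.log X <
      ∑ p ∈ PR 0 y0, (m.factorization p : ℝ) * Real.log p) with hG
  have h1 : (G.card : ℝ) * (e * Real.log X) ≤
      ∑ m ∈ S, ∑ p ∈ PR 0 y0, (m.factorization p : ℝ) * Real.log p := by
    have h2 : (G.card : ℝ) * (e * Real.log X) ≤
        ∑ m ∈ G, ∑ p ∈ PR 0 y0, (m.factorization p : ℝ) * Real.log p := by
      rw [← nsmul_eq_mul]
      refine card_nsmul_le_sum _ _ _ fun m hm => ?_
      rw [hG, mem_filter] at hm
      exact hm.2.le
    refine h2.trans (sum_le_sum_of_subset_of_nonneg (filter_subset _ _) fun m _ _ => ?_)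
    refine sum_nonneg fun p hp => mul_nonneg (Nat.cast_nonneg _) (Real.log_nonneg ?_)
    exact_mod_cast (pr_prime hp).one_le
  have h3 : ∑ m ∈ S, ∑ p ∈ PR 0 y0, (m.factorization p : ℝ) * Real.log p ≤
      y0 * (3 / 2 * (Real.log X / k) * S.card) := by
    rw [sum_comm]
    have h4 : ∀ p ∈ PR 0 y0, ∑ m ∈ S, (m.factorization p : ℝ) * Real.log p ≤
        3 / 2 * (Real.log X / k) * S.card := by
      intro p hp
      rw [← sum_mul]
      exact one hF hy hX hTh (pr_sub hy0 hp)
    refine (sum_le_card_nsmul _ _ _ h4).trans ?_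
    rw [nsmul_eq_mul]
    refine mul_le_mul_of_nonneg_right ?_ (by positivity)
    exact_mod_cast card_pr_le y0
  have h5 := h1.trans h3
  have h6 : 3 * (y0 : ℝ) / (k * e) * S.card * (e * Real.log X) =
      2 * (y0 * (3 / 2 * (Real.log X / k) * S.card)) := by
    field_simp
  have h7 : (0 : ℝ) ≤ y0 * (3 / 2 * (Real.log X / k) * S.card) := by positivity
  have h8 : (G.card : ℝ) * (e * Real.log X) ≤
      3 * (y0 : ℝ) / (k * e) * S.card * (e * Real.log X) := by
    rw [h6]
    linarith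
  exact le_of_mul_le_mul_right h8 (by positivity)

end Pool.Agent.SMP
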