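import Pool.Agent.SMP.Stmts

set_option autoImplicit false

namespace Pool.Agent.SMP

open Finset

namespace TYCX

lemma tele (κ : ℝ) (hκ : 0 < κ) (V T : ℕ) :
    ∑ t ∈ Ioc V T, Real.exp (-((t : ℝ) * κ)) ≤ Real.exp (-((V : ℝ) * κ)) / κ := by
  rcases le_total T V with h | h
  · rw [Ioc_eq_empty_of_le h]
    simp only [sum_empty]
    positivity
  · have key : ∀ T, V ≤ T → ∑ t ∈ Ioc V T, Real.exp (-((t : ℝ) * κ)) ≤
        (Real.exp (-((V : ℝ) * κ)) - Real.exp (-((T : ℝ) * κ))) / κ := by
      intro T hT
      induction T, hT using Nat.le_induction with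
      | base => simp
      | succ n hn ih =>
        rw [Finset.sum_Ioc_succ_top hn]
        have h1 : κ * Real.exp (-(((n + 1 : ℕ) : ℝ) * κ)) ≤
            Real.exp (-((n : ℝ) * κ)) - Real.exp (-(((n + 1 : ℕ) : ℝ) * κ)) := by
          have h2 : Real.exp (-((n : ℝ) * κ)) =
              Real.exp κ * Real.exp (-(((n + 1 : ℕ) : ℝ) * κ)) := by
            rw [← Real.exp_add]
            congr 1
            push_cast
            ring
          have h3 := Real.add_one_le_exp κ
          have h4 := Real.exp_pos (-(((n + 1 : ℕ) : ℝ) * κ))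
          rw [h2]
          nlinarith
        have h5 : Real.exp (-(((n + 1 : ℕ) : ℝ) * κ)) ≤
            (Real.exp (-((n : ℝ) * κ)) - Real.exp (-(((n + 1 : ℕ) : ℝ) * κ))) / κ := by
          rw [le_div_iff₀ hκ]
          linarith
        calc _ ≤ (Real.exp (-((V : ℝ) * κ)) - Real.exp (-((n : ℝ) * κ))) / κ +
            (Real.exp (-((n : ℝ) * κ)) - Real.exp (-(((n + 1 : ℕ) : ℝ) * κ))) / κ := by
              linarith
          _ = _ := by ring
    refine (key T h).trans ?_
    apply div_le_div_of_nonneg_right _ hκ.le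
    have := Real.exp_pos (-((T : ℝ) * κ))
    linarith

lemma dec (s t : ℝ) (hs : 0 ≤ s) (hst : s ≤ t) :
    (t + 1) * Real.exp (-t) ≤ (s + 1) * Real.exp (-s) := by
  have h1 : Real.exp (-s) = Real.exp (t - s) * Real.exp (-t) := by
    rw [← Real.exp_add]; congr 1; ring
  have h2 := Real.add_one_le_exp (t - s)
  have h3 := Real.exp_pos (-t)
  rw [h1]
  have h4 : t + 1 ≤ (s + 1) * Real.exp (t - s) := by nlinarith
  calc (t + 1) * Real.exp (-t) ≤ ((s + 1) * Real.exp (t - s)) * Real.exp (-t) :=
        mul_le_mul_of_nonneg_right h4 h3.le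
    _ = _ := by ring

lemma expq : Real.exp (1 / 4) ≤ 3 / 2 := by
  have h := Real.exp_one_lt_d9
  have h1 : Real.exp (1 / 4) ^ 4 = Real.exp 1 := by
    rw [← Real.exp_nat_mul]; norm_num
  by_contra hc
  push Not at hc
  have h2 : (3 / 2 : ℝ) ^ 4 < Real.exp (1 / 4) ^ 4 := by
    apply pow_lt_pow_left₀ hc (by norm_num) (by norm_num)
  rw [h1] at h2
  norm_num at h2
  linarith

/-- the sum of the exponents that are at least `V` -/
lemma sumv (S : Finset ℕ) (p V : ℕ) (X : ℝ) (hS : ∀ m ∈ S, 0 < m ∧ m ≤ ⌊X⌋₊) :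
    ∑ m ∈ S.filter (fun m => V ≤ m.factorization p), (m.factorization p : ℝ) ≤
      V * (S.filter (fun m => V ≤ m.factorization p)).card +
      ∑ t ∈ Ioc V ⌊X⌋₊, ((S.filter (fun m => t ≤ m.factorization p)).card : ℝ) := by
  have h1 : ∀ m ∈ S.filter (fun m => V ≤ m.factorization p), (m.factorization p : ℝ) ≤
      V + ∑ t ∈ Ioc V ⌊X⌋₊, (if t ≤ m.factorization p then (1 : ℝ) else 0) := by
    intro m hm
    rw [mem_filter] at hm
    obtain ⟨hmS, hV⟩ := hm
    obtain ⟨h0, hX⟩ := hS m hmS
    have hlt : m.factorization p < m := Nat.factorization_lt p h0.ne'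
    have hsub : Ioc V (m.factorization p) ⊆ (Ioc V ⌊X⌋₊).filter (fun t => t ≤ m.factorization p) := by
      intro t ht
      rw [mem_Ioc] at ht
      rw [mem_filter, mem_Ioc]
      exact ⟨⟨ht.1, by omega⟩, ht.2⟩
    rw [← Finset.sum_filter, Finset.sum_const, nsmul_eq_mul, mul_one]
    have h2 := Finset.card_le_card hsub
    rw [Nat.card_Ioc] at h2
    have h3 : m.factorization p ≤ V + ((Ioc V ⌊X⌋₊).filter (fun t => t ≤ m.factorization p)).card := by
      omega
    exact_mod_cast h3
  refine (Finset.sum_le_sum h1).trans ?_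
  rw [Finset.sum_add_distrib, Finset.sum_const, nsmul_eq_mul, Finset.sum_comm]
  have h2 : ∀ t ∈ Ioc V ⌊X⌋₊, ∑ m ∈ S.filter (fun m => V ≤ m.factorization p),
      (if t ≤ m.factorization p then (1 : ℝ) else 0) ≤
      ((S.filter (fun m => t ≤ m.factorization p)).card : ℝ) := by
    intro t _
    rw [← Finset.sum_filter, Finset.sum_const, nsmul_eq_mul, mul_one]
    have : ((S.filter (fun m => V ≤ m.factorization p)).filter (fun m => t ≤ m.factorization p)) ⊆
        S.filter (fun m => t ≤ m.factorization p) := by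
      intro m hm
      rw [mem_filter, mem_filter] at hm
      rw [mem_filter]
      exact ⟨hm.1.1, hm.2⟩
    exact_mod_cast Finset.card_le_card this
  have h3 := Finset.sum_le_sum h2
  linarith [h3, mul_comm (((S.filter (fun m => V ≤ m.factorization p)).card : ℝ)) (V : ℝ)]

end TYCX

open TYCX in
theorem tyc_proof (hF : Stmt_FRC) : Stmt_TYC := by
  intro y0 y V X e c hy0 hy3 hy8 hX he hc hcV hTh
  set P := PR 0 y with hP
  set S := SP P X with hS
  set L := Real.log X with hL
  have hy8' : (8 : ℝ) ≤ y := by exact_mod_cast hy8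
  have hLy : (y : ℝ) ^ 3 ≤ L := by
    rw [hL]
    calc (y : ℝ) ^ 3 = Real.log (Real.exp ((y : ℝ) ^ 3)) := (Real.log_exp _).symm
      _ ≤ _ := Real.log_le_log (Real.exp_pos _) hX
  have hy3pos : (0 : ℝ) < (y : ℝ) ^ 3 := by positivity
  have hLpos : 0 < L := lt_of_lt_of_le hy3pos hLy
  have hX1 : 1 < X := by
    refine lt_of_lt_of_le ?_ hX
    exact Real.one_lt_exp_iff.mpr hy3pos
  have hPprime : ∀ q ∈ P, q.Prime := by
    intro q hq
    rw [hP, PR, mem_filter] at hq
    exact hq.2
  have hkpos : 0 < P.card := by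
    apply Finset.card_pos.mpr
    refine ⟨2, ?_⟩
    rw [hP, PR, mem_filter, mem_Ioc]
    exact ⟨⟨by norm_num, by omega⟩, Nat.prime_two⟩
  have hkR : (0 : ℝ) < P.card := by exact_mod_cast hkpos
  have hky : (P.card : ℝ) ≤ y := by
    have : P.card ≤ (Ioc 0 y).card := by
      rw [hP, PR]; exact Finset.card_filter_le _ _
    rw [Nat.card_Ioc] at this
    have h2 : P.card ≤ y := by omega
    exact_mod_cast h2
  have hlogy : 0 < Real.log y := Real.log_pos (by linarith)
  have hSmem : ∀ m ∈ S, 0 < m ∧ m ≤ ⌊X⌋₊ := by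
    intro m hm
    rw [hS, SP, mem_filter, mem_Icc] at hm
    exact ⟨hm.1.1, hm.1.2⟩
  have hS0 : (0 : ℝ) ≤ S.card := by positivity
  -- bound of exp (k Th / L)
  have hexpk : Real.exp (P.card * Th P / L) ≤ 3 / 2 := by
    refine le_trans (Real.exp_le_exp.mpr ?_) expq
    rw [div_le_iff₀ hLpos]
    have hTh0 : 0 ≤ Th P := by
      rw [Th]
      apply Finset.sum_nonneg
      intro q hq
      exact Real.log_nonneg (by exact_mod_cast (hPprime q hq).one_lt.le)
    calc (P.card : ℝ) * Th P ≤ y * (2 * y) := by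
          apply mul_le_mul hky hTh hTh0 (by positivity)
      _ ≤ 1 / 4 * (y : ℝ) ^ 3 := by nlinarith [sq_nonneg (y : ℝ), mul_nonneg (sq_nonneg (y : ℝ)) (by linarith : (0 : ℝ) ≤ y - 8)]
      _ ≤ 1 / 4 * L := by linarith
  -- the bound for one prime
  have hone : ∀ p ∈ PR y0 y, Real.log p *
      ∑ m ∈ S.filter (fun m => V ≤ m.factorization p), (m.factorization p : ℝ) ≤
      3 / 2 * (L / P.card) * ((c / 3 + 1) * Real.exp (-(c / 3))) * S.card := by
    intro p hp
    have hpP : p ∈ P := by
      rw [PR, mem_filter, mem_Ioc] at hp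
      rw [hP, PR, mem_filter, mem_Ioc]
      exact ⟨⟨by omega, hp.1.2⟩, hp.2⟩
    have hpp : p.Prime := hPprime p hpP
    have hlam : 0 < Real.log p := Real.log_pos (by exact_mod_cast hpp.one_lt)
    set κ : ℝ := P.card * Real.log p / L with hκ
    have hκpos : 0 < κ := by positivity
    have hb : ∀ t : ℕ, ((S.filter (fun m => t ≤ m.factorization p)).card : ℝ) ≤
        3 / 2 * Real.exp (-((t : ℝ) * κ)) * S.card := by
      intro t
      refine ((hF P X p t hPprime hX1 hpP).2).trans ?_
      apply mul_le_mul_of_nonneg_right _ hS0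
      have : Real.exp (-(P.card * (t * Real.log p - Th P)) / Real.log X) =
          Real.exp (P.card * Th P / L) * Real.exp (-((t : ℝ) * κ)) := by
        rw [← Real.exp_add]
        congr 1
        rw [hκ, ← hL]
        field_simp
        ring
      rw [this]
      exact mul_le_mul_of_nonneg_right hexpk (Real.exp_pos _).le
    have h1 := sumv S p V X hSmem
    have h2 : ∑ t ∈ Ioc V ⌊X⌋₊, ((S.filter (fun m => t ≤ m.factorization p)).card : ℝ) ≤
        3 / 2 * S.card * (Real.exp (-((V : ℝ) * κ)) / κ) := by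
      calc _ ≤ ∑ t ∈ Ioc V ⌊X⌋₊, 3 / 2 * Real.exp (-((t : ℝ) * κ)) * S.card :=
            Finset.sum_le_sum (fun t _ => hb t)
        _ = 3 / 2 * S.card * ∑ t ∈ Ioc V ⌊X⌋₊, Real.exp (-((t : ℝ) * κ)) := by
            rw [Finset.mul_sum]
            apply Finset.sum_congr rfl
            intro t _
            ring
        _ ≤ _ := by
            apply mul_le_mul_of_nonneg_left (tele κ hκpos V ⌊X⌋₊) (by positivity)
    have h3 : (V : ℝ) * ((S.filter (fun m => V ≤ m.factorization p)).card : ℝ) ≤
        V * (3 / 2 * Real.exp (-((V : ℝ) * κ)) * S.card) :=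
      mul_le_mul_of_nonneg_left (hb V) (by positivity)
    have h4 : ∑ m ∈ S.filter (fun m => V ≤ m.factorization p), (m.factorization p : ℝ) ≤
        3 / 2 * S.card * Real.exp (-((V : ℝ) * κ)) * (V + 1 / κ) := by
      calc _ ≤ V * (3 / 2 * Real.exp (-((V : ℝ) * κ)) * S.card) +
            3 / 2 * S.card * (Real.exp (-((V : ℝ) * κ)) / κ) := by linarith
        _ = _ := by ring
    have h5 : Real.log p * (3 / 2 * S.card * Real.exp (-((V : ℝ) * κ)) * (V + 1 / κ)) =
        3 / 2 * (L / P.card) * (((V : ℝ) * κ + 1) * Real.exp (-((V : ℝ) * κ))) * S.card := by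
      have h6 : Real.log p * (V + 1 / κ) = (L / P.card) * ((V : ℝ) * κ + 1) := by
        rw [hκ]
        field_simp
      calc _ = 3 / 2 * S.card * Real.exp (-((V : ℝ) * κ)) * (Real.log p * (V + 1 / κ)) := by ring
        _ = _ := by rw [h6]; ring
    have h7 : c / 3 ≤ (V : ℝ) * κ := by
      have hlog3 : Real.log y ≤ 3 * Real.log p := by
        have h8 : (y : ℝ) ≤ (p : ℝ) ^ 3 := by
          rw [PR, mem_filter, mem_Ioc] at hp
          have : y ≤ p ^ 3 := hy3.trans (Nat.pow_le_pow_left hp.1.1.le 3)
          exact_mod_cast this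
        calc Real.log y ≤ Real.log ((p : ℝ) ^ 3) := Real.log_le_log (by linarith) h8
          _ = 3 * Real.log p := by rw [Real.log_pow]; norm_num
      have h9 : c * HH y X * κ ≤ (V : ℝ) * κ := mul_le_mul_of_nonneg_right hcV hκpos.le
      have h10 : c * HH y X * κ = c * (Real.log p / Real.log y) := by
        rw [HH, hκ, ← hL, ← hP]
        field_simp
      rw [h10] at h9
      refine le_trans ?_ h9
      have h11 : 1 / 3 ≤ Real.log p / Real.log y := by
        rw [le_div_iff₀ hlogy]; linarith
      calc c / 3 = c * (1 / 3) := by ring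
        _ ≤ _ := mul_le_mul_of_nonneg_left h11 (by linarith)
    calc Real.log p * ∑ m ∈ S.filter (fun m => V ≤ m.factorization p), (m.factorization p : ℝ)
        ≤ Real.log p * (3 / 2 * S.card * Real.exp (-((V : ℝ) * κ)) * (V + 1 / κ)) :=
          mul_le_mul_of_nonneg_left h4 hlam.le
      _ = 3 / 2 * (L / P.card) * (((V : ℝ) * κ + 1) * Real.exp (-((V : ℝ) * κ))) * S.card := h5
      _ ≤ _ := by
          apply mul_le_mul_of_nonneg_right _ hS0
          apply mul_le_mul_of_nonneg_left _ (by positivity)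
          exact dec _ _ (by linarith) h7
  -- sum over primes
  have hall : ∑ m ∈ S, ∑ p ∈ (PR y0 y).filter (fun p => V ≤ m.factorization p),
      (m.factorization p : ℝ) * Real.log p ≤
      3 / 2 * L * ((c / 3 + 1) * Real.exp (-(c / 3))) * S.card := by
    have h1 : ∑ m ∈ S, ∑ p ∈ (PR y0 y).filter (fun p => V ≤ m.factorization p),
        (m.factorization p : ℝ) * Real.log p = ∑ p ∈ PR y0 y, Real.log p *
        ∑ m ∈ S.filter (fun m => V ≤ m.factorization p), (m.factorization p : ℝ) := by
      have h2 : ∀ m ∈ S, ∑ p ∈ (PR y0 y).filter (fun p => V ≤ m.factorization p),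
          (m.factorization p : ℝ) * Real.log p = ∑ p ∈ PR y0 y,
          if V ≤ m.factorization p then (m.factorization p : ℝ) * Real.log p else 0 := by
        intro m _
        rw [Finset.sum_filter]
      rw [Finset.sum_congr rfl h2, Finset.sum_comm]
      apply Finset.sum_congr rfl
      intro p _
      rw [Finset.mul_sum, Finset.sum_filter]
      apply Finset.sum_congr rfl
      intro m _
      split_ifs
      · ring
      · rfl
    rw [h1]
    have hcardPR : ((PR y0 y).card : ℝ) ≤ P.card := by
      have : PR y0 y ⊆ P := by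
        intro p hp
        rw [PR, mem_filter, mem_Ioc] at hp
        rw [hP, PR, mem_filter, mem_Ioc]
        exact ⟨⟨by omega, hp.1.2⟩, hp.2⟩
      exact_mod_cast Finset.card_le_card this
    calc _ ≤ ∑ p ∈ PR y0 y, 3 / 2 * (L / P.card) * ((c / 3 + 1) * Real.exp (-(c / 3))) * S.card :=
          Finset.sum_le_sum hone
      _ = (PR y0 y).card * (3 / 2 * (L / P.card) * ((c / 3 + 1) * Real.exp (-(c / 3))) * S.card) := by
          rw [Finset.sum_const, nsmul_eq_mul]
      _ ≤ P.card * (3 / 2 * (L / P.card) * ((c / 3 + 1) * Real.exp (-(c / 3))) * S.card) := by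
          apply mul_le_mul_of_nonneg_right hcardPR
          have : 0 < (c / 3 + 1) * Real.exp (-(c / 3)) := by positivity
          positivity
      _ = _ := by field_simp
  -- Markov
  set E := S.filter (fun m => e * Real.log X <
      ∑ p ∈ (PR y0 y).filter (fun p => V ≤ m.factorization p),
        (m.factorization p : ℝ) * Real.log p) with hE
  have hmark : e * L * E.card ≤ ∑ m ∈ S, ∑ p ∈ (PR y0 y).filter (fun p => V ≤ m.factorization p),
      (m.factorization p : ℝ) * Real.log p := by
    calc e * L * E.card = ∑ m ∈ E, e * L := by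
          rw [Finset.sum_const, nsmul_eq_mul]; ring
      _ ≤ ∑ m ∈ E, ∑ p ∈ (PR y0 y).filter (fun p => V ≤ m.factorization p),
          (m.factorization p : ℝ) * Real.log p := by
          apply Finset.sum_le_sum
          intro m hm
          rw [hE, mem_filter] at hm
          exact hm.2.le
      _ ≤ _ := by
          apply Finset.sum_le_sum_of_subset_of_nonneg
          · rw [hE]; exact Finset.filter_subset _ _
          · intro m _ _
            apply Finset.sum_nonneg
            intro p hp
            rw [mem_filter, PR, mem_filter] at hp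
            apply mul_nonneg (by positivity)
            exact Real.log_nonneg (by exact_mod_cast hp.1.2.one_lt.le)
  have hfin : e * L * E.card ≤ e * L * (3 * (c / 3 + 1) * Real.exp (-c / 3) / e * S.card) := by
    refine hmark.trans (hall.trans ?_)
    have h1 : e * L * (3 * (c / 3 + 1) * Real.exp (-c / 3) / e * S.card) =
        3 * L * ((c / 3 + 1) * Real.exp (-(c / 3))) * S.card := by
      have : -c / 3 = -(c / 3) := by ring
      rw [this]
      field_simp
    rw [h1]
    apply mul_le_mul_of_nonneg_right _ hS0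
    apply mul_le_mul_of_nonneg_right _ (by positivity)
    linarith
  exact le_of_mul_le_mul_left hfin (by positivity)

end Pool.Agent.SMP
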