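import Pool.Agent.SMP.Stmts

/-!
# Squad SMP (MP_57632f_nt), module WLK: one step of the walk
-/

set_option autoImplicit false

namespace Pool.Agent.SMP

open Finset

namespace WLKX

theorem nd_le (t : ℝ) (A : ℤ) : nd t ≤ |t - A| := round_le t A

/-- two primes -/
theorem two_primes {p q y0 y1 : ℕ} {t δ : ℝ} (hp : p.Prime) (hq : q.Prime) (hpq : p ≠ q)
    (h0 : 1 ≤ y0) (hp0 : y0 ≤ p) (hp1 : p ≤ y1) (hq1 : q ≤ y1) (hδ : 2 * y1 * δ ≤ 1)
    (h1 : nd (p * t) < δ) (h2 : nd (q * t) < δ) : nd t < δ / y0 := by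
  have hδ0 : 0 < δ := lt_of_le_of_lt (abs_nonneg _) h1
  set A := round ((p : ℝ) * t) with hA
  set B := round ((q : ℝ) * t) with hB
  have hAd : |(p : ℝ) * t - A| < δ := h1
  have hBd : |(q : ℝ) * t - B| < δ := h2
  have hpR : (0 : ℝ) < p := by exact_mod_cast hp.pos
  have hqR : (0 : ℝ) < q := by exact_mod_cast hq.pos
  have hp1R : (p : ℝ) ≤ y1 := by exact_mod_cast hp1
  have hq1R : (q : ℝ) ≤ y1 := by exact_mod_cast hq1
  have habs : |(A : ℝ) * q - B * p| < 1 := by
    have e : (A : ℝ) * q - B * p = p * ((q : ℝ) * t - B) - q * ((p : ℝ) * t - A) := by ring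
    rw [e]
    calc |(p : ℝ) * ((q : ℝ) * t - B) - q * ((p : ℝ) * t - A)|
        ≤ |(p : ℝ) * ((q : ℝ) * t - B)| + |(q : ℝ) * ((p : ℝ) * t - A)| := abs_sub _ _
      _ = p * |(q : ℝ) * t - B| + q * |(p : ℝ) * t - A| := by
          rw [abs_mul, abs_mul, abs_of_pos hpR, abs_of_pos hqR]
      _ < p * δ + q * δ := by
          have := mul_lt_mul_of_pos_left hBd hpR
          have := mul_lt_mul_of_pos_left hAd hqR
          linarith
      _ ≤ 2 * y1 * δ := by nlinarith
      _ ≤ 1 := hδ
  have hint : A * (q : ℤ) - B * p = 0 := by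
    have h3 : |((A * (q : ℤ) - B * p : ℤ) : ℝ)| < 1 := by
      push_cast
      exact habs
    rw [← Int.cast_abs] at h3
    have h4 : |A * (q : ℤ) - B * p| < 1 := by exact_mod_cast h3
    exact Int.abs_lt_one_iff.mp h4
  have hdvd : (p : ℤ) ∣ A := by
    have h3 : (p : ℤ) ∣ A * q := ⟨B, by linarith⟩
    have hpi : Prime (p : ℤ) := Nat.prime_iff_prime_int.mp hp
    rcases hpi.dvd_or_dvd h3 with h4 | h4
    · exact h4
    · exfalso
      have h5 : p ∣ q := by exact_mod_cast h4
      exact hpq ((Nat.prime_dvd_prime_iff_eq hp hq).mp h5)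
  obtain ⟨A', hA'⟩ := hdvd
  have h6 : |t - A'| = |(p : ℝ) * t - A| / p := by
    rw [eq_div_iff hpR.ne', hA']
    push_cast
    rw [← mul_sub, abs_mul, abs_of_pos hpR]
    ring
  have hy0 : (0 : ℝ) < y0 := by exact_mod_cast h0
  have hp0R : (y0 : ℝ) ≤ p := by exact_mod_cast hp0
  calc nd t ≤ |t - A'| := nd_le t A'
    _ = |(p : ℝ) * t - A| / p := h6
    _ < δ / p := div_lt_div_of_pos_right hAd hpR
    _ ≤ δ / y0 := div_le_div_of_nonneg_left hδ0.le hy0 hp0R

/-- one prime -/
theorem one_prime (S : Finset ℕ) (y : ℕ) (β θ δ : ℝ) (hS : Down S y β) (p : ℕ) (hp : p.Prime)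
    (hpy : p ≤ y) : ((Z S θ δ).card : ℝ) ≤
      β * S.card + (S.filter (fun m : ℕ => nd (p * (m * θ)) < δ)).card := by
  have h1 : (Z S θ δ).card = ((Z S θ δ).filter (fun m => p ∣ m)).card +
      ((Z S θ δ).filter (fun m => ¬ p ∣ m)).card :=
    (Finset.card_filter_add_card_filter_not (s := Z S θ δ) (fun m => p ∣ m)).symm
  have h2 : (((Z S θ δ).filter (fun m => ¬ p ∣ m)).card : ℝ) ≤ β * S.card := by
    refine le_trans ?_ (hS.bd p hp hpy)
    have : ((Z S θ δ).filter (fun m => ¬ p ∣ m)).card ≤ (S.filter (fun m => ¬ p ∣ m)).card :=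
      Finset.card_le_card (Finset.filter_subset_filter _ (Finset.filter_subset _ _))
    exact_mod_cast this
  have h3 : ((Z S θ δ).filter (fun m => p ∣ m)).card ≤
      (S.filter (fun m : ℕ => nd (p * (m * θ)) < δ)).card := by
    apply Finset.card_le_card_of_injOn (fun m => m / p)
    · intro m hm
      have hm' := Finset.mem_coe.mp hm
      rw [Finset.mem_filter] at hm'
      obtain ⟨hmZ, hd⟩ := hm'
      unfold Z at hmZ
      rw [Finset.mem_filter] at hmZ
      obtain ⟨hmS, hmn⟩ := hmZ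
      obtain ⟨c, hc⟩ := hd
      have hmc : m / p = c := by
        rw [hc]
        exact Nat.mul_div_cancel_left c hp.pos
      apply Finset.mem_coe.mpr
      rw [Finset.mem_filter]
      refine ⟨?_, ?_⟩
      · show m / p ∈ S
        rw [hmc]
        exact hS.dvd m hmS c ⟨p, by rw [hc, mul_comm]⟩
      · show nd (p * (((m / p : ℕ) : ℝ) * θ)) < δ
        rw [hmc]
        have e : (p : ℝ) * ((c : ℝ) * θ) = (m : ℝ) * θ := by
          rw [hc]
          push_cast
          ring
        rw [e]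
        exact hmn
    · intro a ha b hb hab
      have ha' := (Finset.mem_filter.mp (Finset.mem_coe.mp ha)).2
      have hb' := (Finset.mem_filter.mp (Finset.mem_coe.mp hb)).2
      have hab' : a / p = b / p := hab
      rw [← Nat.div_mul_cancel ha', ← Nat.div_mul_cancel hb', hab']
  have h3' : (((Z S θ δ).filter (fun m => p ∣ m)).card : ℝ) ≤
      (S.filter (fun m : ℕ => nd (p * (m * θ)) < δ)).card := by exact_mod_cast h3
  rw [h1]
  push_cast
  linarith

end WLKX

open WLKX

theorem wlk_proof : Stmt_WLK := by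
  intro S Q y y0 y1 β θ δ hS h0 hy hQ hp hδ
  have hQc : 0 < Q.card := Finset.card_pos.mpr hQ
  have hQR : (0 : ℝ) < Q.card := by exact_mod_cast hQc
  -- sum over the primes
  have hsum : (Q.card : ℝ) * (Z S θ δ).card ≤ Q.card * (β * S.card) +
      ∑ p ∈ Q, ((S.filter (fun m : ℕ => nd (p * (m * θ)) < δ)).card : ℝ) := by
    calc (Q.card : ℝ) * (Z S θ δ).card = ∑ _p ∈ Q, ((Z S θ δ).card : ℝ) := by
          rw [Finset.sum_const, nsmul_eq_mul]
      _ ≤ ∑ p ∈ Q, (β * S.card + ((S.filter (fun m : ℕ => nd (p * (m * θ)) < δ)).card : ℝ)) := by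
          apply Finset.sum_le_sum
          intro p hpQ
          exact one_prime S y β θ δ hS p (hp p hpQ).1 ((hp p hpQ).2.2.trans hy)
      _ = _ := by
          rw [Finset.sum_add_distrib, Finset.sum_const, nsmul_eq_mul]
  -- double counting
  have hdc : ∑ p ∈ Q, ((S.filter (fun m : ℕ => nd (p * (m * θ)) < δ)).card : ℝ) ≤
      S.card + Q.card * (Z S θ (δ / y0)).card := by
    have e1 : ∑ p ∈ Q, ((S.filter (fun m : ℕ => nd (p * (m * θ)) < δ)).card : ℝ) =
        ∑ m ∈ S, ((Q.filter (fun p : ℕ => nd (p * (m * θ)) < δ)).card : ℝ) := by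
      have : ∑ p ∈ Q, (S.filter (fun m : ℕ => nd (p * (m * θ)) < δ)).card =
          ∑ m ∈ S, (Q.filter (fun p : ℕ => nd (p * (m * θ)) < δ)).card := by
        simp only [Finset.card_filter]
        exact Finset.sum_comm
      exact_mod_cast this
    rw [e1]
    have e2 : ∀ m ∈ S, ((Q.filter (fun p : ℕ => nd (p * (m * θ)) < δ)).card : ℝ) ≤
        1 + Q.card * (if nd (m * θ) < δ / y0 then 1 else 0) := by
      intro m _
      by_cases hm : nd ((m : ℝ) * θ) < δ / y0
      · rw [if_pos hm]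
        have : (Q.filter (fun p : ℕ => nd (p * (m * θ)) < δ)).card ≤ Q.card :=
          Finset.card_filter_le _ _
        have h2 : ((Q.filter (fun p : ℕ => nd (p * (m * θ)) < δ)).card : ℝ) ≤ Q.card := by
          exact_mod_cast this
        linarith
      · rw [if_neg hm]
        have : (Q.filter (fun p : ℕ => nd (p * (m * θ)) < δ)).card ≤ 1 := by
          rw [Finset.card_le_one]
          intro a ha b hb
          rw [Finset.mem_filter] at ha hb
          by_contra hab
          apply hm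
          exact two_primes (hp a ha.1).1 (hp b hb.1).1 hab h0 (hp a ha.1).2.1 (hp a ha.1).2.2
            (hp b hb.1).2.2 hδ ha.2 hb.2
        have h2 : ((Q.filter (fun p : ℕ => nd (p * (m * θ)) < δ)).card : ℝ) ≤ 1 := by
          exact_mod_cast this
        linarith
    refine (Finset.sum_le_sum e2).trans (le_of_eq ?_)
    rw [Finset.sum_add_distrib, Finset.sum_const, nsmul_eq_mul, mul_one, ← Finset.mul_sum]
    congr 2
    unfold Z
    rw [Finset.card_filter]
    push_cast
    rfl
  have htot : (Q.card : ℝ) * (Z S θ δ).card ≤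
      Q.card * ((β + 1 / Q.card) * S.card + (Z S θ (δ / y0)).card) := by
    have e : (Q.card : ℝ) * ((β + 1 / Q.card) * S.card + (Z S θ (δ / y0)).card) =
        Q.card * (β * S.card) + (S.card + Q.card * (Z S θ (δ / y0)).card) := by
      field_simp
      ring
    rw [e]
    linarith
  exact le_of_mul_le_mul_left htot hQR

end Pool.Agent.SMP
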