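import Pool.Agent.SMP.FIN
import Pool.Agent.SMP.COR
import Pool.Agent.SMP.PSI
import Pool.Agent.SMP.FRC
import Pool.Agent.SMP.DWN
import Pool.Agent.SMP.SHF
import Pool.Agent.SMP.KER
import Pool.Agent.SMP.WLK
import Pool.Agent.SMP.DCA
import Pool.Agent.SMP.DCB
import Pool.Agent.SMP.DCC
import Pool.Agent.SMP.SUM
import Pool.Agent.SMP.CHO
import Pool.Agent.SMP.DSC
import Pool.Agent.SMP.TYA
import Pool.Agent.SMP.TYB
import Pool.Agent.SMP.TYC
import Pool.Agent.SMP.CHB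
import Pool.Agent.SMP.IRA
import Pool.Agent.SMP.IRB
import Pool.Agent.SMP.DG1
import Pool.Agent.SMP.DG2
import Pool.Agent.SMP.DG3
import Pool.Agent.SMP.DG4
import Pool.Agent.TWB.MEAS

set_option autoImplicit false

namespace Pool.Agent.SMP

/-- the exponential sums for every number of finite irrationality exponent -/
theorem conc (x : ℝ) (μ : ℕ) (hx : Ms x μ) (hμ : 1 ≤ μ) : Conc x := by
  have hfrc := frc_proof psi_proof
  exact cor_proof (dwn_proof hfrc) (ker_proof shf_proof) wlk_proof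
    (dsc_proof dca_proof dcb_proof dcc_proof sum_proof cho_proof) (tya_proof hfrc)
    (tyb_proof hfrc) (tyc_proof hfrc) chb_proof (irb_proof ira_proof chb_proof) x μ hx hμ

theorem main : ∀ (ε : ℝ) (B l : ℕ), 0 < ε → 2 ≤ B →
    ∃ C : ℝ, 0 < C ∧ ∀ (y : ℕ) (X : ℝ), C ≤ y → Real.exp ((y : ℝ) ^ 3) ≤ X →
      C * Real.log (Real.log (Real.log X)) ≤ (PR 0 y).card →
      ∀ (z : ℝ) (u W : ℕ), C ≤ W →
        ((u : ℝ) + W) * Real.log (2 * B) * (PR 0 y).card * Real.log y ≤ Real.log X →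
        ∃ E ⊆ SP (PR 0 y) X, (E.card : ℝ) ≤ ε * (SP (PR 0 y) X).card ∧
          ∀ m ∈ SP (PR 0 y) X, m ∉ E → ∀ b n : ℕ, ∀ w : ℕ → ℕ, 2 ≤ b → b ≤ B → n ≤ l →
            (∀ t < n, w t < b) →
            |frq b ((b : ℝ) ^ u * (m * Real.pi + z)) W n w - 1 / (b : ℝ) ^ n| ≤ ε :=
  fin_proof (dg4_proof dg1_proof dg2_proof dg3_proof) Real.pi
    (conc Real.pi 9 TWB.meas_proof (by norm_num))

end Pool.Agent.SMP
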