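import Pool.Agent.SMP.Defs

set_option autoImplicit false

namespace Pool.Agent.SMP

open Finset

/-- PSI: the number of integers `m ≤ X` composed of the primes in `P` -/
def Stmt_PSI : Prop :=
  ∀ (P : Finset ℕ) (X : ℝ), (∀ p ∈ P, p.Prime) → 1 ≤ X →
    Real.log X ^ P.card ≤
      ((SP P X).card : ℝ) * ((P.card.factorial : ℝ) * ∏ p ∈ P, Real.log p) ∧
    ((SP P X).card : ℝ) * ((P.card.factorial : ℝ) * ∏ p ∈ P, Real.log p) ≤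
      (Real.log X + Th P) ^ P.card

/-- FRC: the distribution of the exponent of `p` -/
def Stmt_FRC : Prop :=
  ∀ (P : Finset ℕ) (X : ℝ) (p t : ℕ), (∀ q ∈ P, q.Prime) → 1 < X → p ∈ P →
    (((SP P X).filter (fun m => m.factorization p < t)).card : ℝ) ≤
      P.card * (Th P + t * Real.log p) / Real.log X * (SP P X).card ∧
    (((SP P X).filter (fun m => t ≤ m.factorization p)).card : ℝ) ≤
      Real.exp (-(P.card * (t * Real.log p - Th P)) / Real.log X) * (SP P X).card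

/-- DWN -/
def Stmt_DWN : Prop :=
  ∀ (y : ℕ) (X : ℝ), 1 < X →
    Down (SP (PR 0 y) X) y (2 * (PR 0 y).card * Th (PR 0 y) / Real.log X)

/-- SHF: shift by a smooth number -/
def Stmt_SHF : Prop :=
  ∀ (S : Finset ℕ) (y : ℕ) (β : ℝ) (F : ℕ → ℂ) (q : ℕ), Down S y β → 1 ≤ q →
    (∀ p : ℕ, p.Prime → p ∣ q → p ≤ y) → (∀ m, ‖F m‖ ≤ 1) →
    ‖∑ m ∈ S, F (q * m) - ∑ m ∈ S, F m‖ ≤ 2 * Nat.log 2 q * β * S.card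

/-- KER: from exponential sums to counting -/
def Stmt_KER : Prop :=
  ∀ (S : Finset ℕ) (y M : ℕ) (β θ η : ℝ), Down S y β → 1 ≤ M → M ≤ y → 0 < η →
    ‖∑ m ∈ S, ex (m * θ)‖ ≤
      (2 * Nat.log 2 M * β + η) * S.card + (Z S θ (1 / (2 * η * M))).card

/-- WLK: one step of the walk -/
def Stmt_WLK : Prop :=
  ∀ (S Q : Finset ℕ) (y y0 y1 : ℕ) (β θ δ : ℝ), Down S y β → 1 ≤ y0 → y1 ≤ y → Q.Nonempty →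
    (∀ p ∈ Q, p.Prime ∧ y0 ≤ p ∧ p ≤ y1) → 2 * y1 * δ ≤ 1 →
    ((Z S θ δ).card : ℝ) ≤ (β + 1 / Q.card) * S.card + (Z S θ (δ / y0)).card

/-- DCA: descent, first part -/
def Stmt_DCA : Prop :=
  ∀ (S Q : Finset ℕ) (y y0 j B V : ℕ) (β θ r : ℝ) (U : ℕ → ℕ), Down S y β → 1 ≤ y0 →
    (∀ p ∈ Q, p.Prime ∧ y0 ≤ p ∧ p ≤ y) → 1 ≤ j → 1 ≤ B → r ≤ 1 / 2 → (∀ n, U n ≤ B) →
    ((FF S Q θ r B V j).card : ℝ) ≤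
      ∑ n ∈ range (j * V), ((n + j - 1).choose (j - 1) : ℝ) *
        (EE S Q θ (r / (y0 : ℝ) ^ n) (U n) j).card

/-- DCB: descent, second part -/
def Stmt_DCB : Prop :=
  ∀ (S Q : Finset ℕ) (y j U : ℕ) (β θ ρ : ℝ), Down S y β → (∀ p ∈ Q, p.Prime ∧ p ≤ y) →
    1 ≤ j → 1 ≤ U → 2 * ρ * (y : ℝ) ^ (j * U) ≤ 1 →
    ((EE S Q θ ρ U j).card : ℝ) * (U : ℝ) ^ j ≤ S.card

/-- DCC: pairs and elements -/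
def Stmt_DCC : Prop :=
  ∀ (S Q : Finset ℕ) (θ r : ℝ) (B V j N : ℕ),
    (((Z S θ r).filter (fun m => N ≤ (Gd Q B V θ m).card)).card : ℝ) * (N.choose j : ℝ) ≤
      (FF S Q θ r B V j).card

/-- SUM -/
def Stmt_SUM : Prop :=
  ∀ (j B V : ℕ) (K : ℝ), 1 ≤ j → 1 ≤ B → 1 ≤ V → (V : ℝ) ≤ K * B →
    (∑ n ∈ range (j * V), ((n + j - 1).choose (j - 1) : ℝ) / (Uf j B n : ℝ) ^ j) *
      ((j - 1).factorial : ℝ) ≤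
      (3 * (j : ℝ)) ^ j * (1 + Real.log (V + 1)) + (2 * j * K) ^ j

/-- CHO -/
def Stmt_CHO : Prop :=
  ∀ N j : ℕ, j ≤ N → ((N : ℝ) - j) ^ j ≤ (N.choose j : ℝ) * (j.factorial : ℝ)

/-- DSC: the descent (from DCA, DCB, DCC, SUM, CHO) -/
def Stmt_DSC : Prop :=
  ∀ (S Q : Finset ℕ) (y y0 j B V N : ℕ) (β θ r K : ℝ), Down S y β → 1 ≤ y → 1 ≤ y0 → y ≤ y0 ^ 3 →
    (∀ p ∈ Q, p.Prime ∧ y0 ≤ p ∧ p ≤ y) → 1 ≤ j → 1 ≤ B → 1 ≤ V → (V : ℝ) ≤ K * B → j ≤ N →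
    0 < r → 2 * r * (y : ℝ) ^ (3 * j) ≤ 1 →
    (((Z S θ r).filter (fun m => N ≤ (Gd Q B V θ m).card)).card : ℝ) * ((N : ℝ) - j) ^ j ≤
      j * ((3 * (j : ℝ)) ^ j * (1 + Real.log (V + 1)) + (2 * j * K) ^ j) * S.card

/-- TYA -/
def Stmt_TYA : Prop :=
  ∀ (y0 y : ℕ) (X e : ℝ), y0 ≤ y → 8 ≤ y → Real.exp ((y : ℝ) ^ 3) ≤ X → 0 < e →
    Th (PR 0 y) ≤ 2 * y →
    (((SP (PR 0 y) X).filter (fun m => ¬ (4 * ((PR y0 y).filter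
      (fun p => (m.factorization p : ℝ) < e * HH y X)).card ≤ (PR y0 y).card))).card : ℝ) ≤
      4 * (e + 4 / y) * (SP (PR 0 y) X).card

/-- TYB -/
def Stmt_TYB : Prop :=
  ∀ (y0 y : ℕ) (X e : ℝ), y0 ≤ y → 8 ≤ y → Real.exp ((y : ℝ) ^ 3) ≤ X → 0 < e →
    Th (PR 0 y) ≤ 2 * y →
    (((SP (PR 0 y) X).filter (fun m => e * Real.log X <
      ∑ p ∈ PR 0 y0, (m.factorization p : ℝ) * Real.log p)).card : ℝ) ≤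
      3 * y0 / ((PR 0 y).card * e) * (SP (PR 0 y) X).card

/-- TYC -/
def Stmt_TYC : Prop :=
  ∀ (y0 y V : ℕ) (X e c : ℝ), y0 ≤ y → y ≤ y0 ^ 3 → 8 ≤ y → Real.exp ((y : ℝ) ^ 3) ≤ X →
    0 < e → 1 ≤ c → c * HH y X ≤ V → Th (PR 0 y) ≤ 2 * y →
    (((SP (PR 0 y) X).filter (fun m => e * Real.log X <
      ∑ p ∈ (PR y0 y).filter (fun p => V ≤ m.factorization p),
        (m.factorization p : ℝ) * Real.log p)).card : ℝ) ≤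
      3 * (c / 3 + 1) * Real.exp (-c / 3) / e * (SP (PR 0 y) X).card

/-- CHB: Chebyshev -/
def Stmt_CHB : Prop :=
  ∀ (η : ℝ) (K : ℕ), 0 < η → η ≤ 1 → ∃ C : ℕ, 8 ≤ C ∧ ∀ y : ℕ, C ≤ y →
    1 ≤ Nat.sqrt y ∧ y ≤ Nat.sqrt y ^ 3 ∧ (Nat.sqrt y : ℝ) ≤ η * y ∧
    K * Nat.sqrt y ≤ (PR (Nat.sqrt y) y).card ∧
    (PR 0 y).card ≤ 2 * (PR (Nat.sqrt y) y).card ∧
    η * (PR 0 y).card ≤ 4 * (PR (Nat.sqrt y) ⌊η * y⌋₊).card ∧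
    Th (PR 0 y) ≤ 2 * y

/-- IRA: the gcd of `m` and `round (m h x)` -/
def Stmt_IRA : Prop :=
  ∀ (x : ℝ) (μ : ℕ), Ms x μ → 1 ≤ μ → ∃ C : ℝ, ∀ (h : ℤ) (m : ℕ), h ≠ 0 → 0 < m →
    nd (m * (h * x)) < 1 / 2 →
    Real.log m ≤ μ * Real.log
        ((m / Nat.gcd m (round ((m : ℝ) * (h * x))).natAbs : ℕ) : ℝ) +
      (μ - 1) * Real.log |(h : ℝ)| + C

/-- IRB: typical `m` with `m h x` close to an integer have many good primes -/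
def Stmt_IRB : Prop :=
  ∀ (x : ℝ) (μ : ℕ) (e c : ℝ), Ms x μ → 1 ≤ μ → 0 < e → e ≤ 1 → 1 ≤ c →
    ∃ C : ℕ, ∀ (y : ℕ) (X : ℝ) (h : ℤ) (m : ℕ), C ≤ y → Real.exp ((y : ℝ) ^ 3) ≤ X →
      h ≠ 0 → |(h : ℝ)| ≤ Real.exp (HH y X) → m ∈ SP (PR 0 y) X →
      nd (m * (h * x)) < 1 / 2 →
      Typ (Nat.sqrt y) y (e * HH y X) (e / (400 * μ) * Real.log X) ⌈c * HH y X⌉₊ m →
      e / (400 * μ * c) * (PR (Nat.sqrt y) y).card ≤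
        (Gd (PR (Nat.sqrt y) y) ⌊e / (400 * μ) * HH y X⌋₊ ⌈c * HH y X⌉₊ (h * x) m).card

/-- COR -/
def Stmt_COR : Prop := ∀ (x : ℝ) (μ : ℕ), Ms x μ → 1 ≤ μ → Conc x

/-- DG1: second moments -/
def Stmt_DG1 : Prop :=
  ∀ (S : Finset ℕ) (α : ℕ → ℝ) (b W : ℕ) (h : ℤ) (η l : ℝ), 1 ≤ W → 0 < l → 0 ≤ η →
    (∀ i < W, ∀ i' < W, i ≠ i' →
      ‖∑ m ∈ S, ex (h * ((b : ℝ) ^ i - (b : ℝ) ^ i') * α m)‖ ≤ η * S.card) →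
    ((S.filter (fun m => l * W < ‖∑ i ∈ range W, ex (h * ((b : ℝ) ^ i * α m))‖)).card : ℝ) ≤
      (1 / W + η) / l ^ 2 * S.card

/-- DG2: from Weyl sums to intervals -/
def Stmt_DG2 : Prop :=
  ∀ (N : ℕ) (ε : ℝ), 1 ≤ N → 0 < ε → ∃ (h0 : ℕ) (l : ℝ), 0 < l ∧
    ∀ (W : ℕ) (t : ℕ → ℝ), 1 ≤ W →
      (∀ h : ℤ, h ≠ 0 → |h| ≤ h0 → ‖∑ i ∈ range W, ex (h * t i)‖ ≤ l * W) →
      ∀ w < N, |(((range W).filter (fun i => ⌊N * Int.fract (t i)⌋ = (w : ℤ))).card : ℝ) / W -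
        1 / N| ≤ ε

/-- DG3: digits and intervals -/
def Stmt_DG3 : Prop :=
  ∀ (b n : ℕ) (w : ℕ → ℕ), 2 ≤ b → (∀ t < n, w t < b) → ∃ v < b ^ n, ∀ (x : ℝ) (i : ℕ),
    (∀ t < n, dig b x (i + 1 + t) = w t) ↔
      ⌊((b ^ n : ℕ) : ℝ) * Int.fract ((b : ℝ) ^ i * x)⌋ = (v : ℤ)

/-- DG4: from exponential sums to digits (from DG1, DG2, DG3) -/
def Stmt_DG4 : Prop :=
  ∀ (B l : ℕ) (ε : ℝ), 0 < ε → ∃ (h0 : ℕ) (η : ℝ) (C : ℕ), 0 < η ∧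
    ∀ (S : Finset ℕ) (α : ℕ → ℝ) (W : ℕ), C ≤ W →
      (∀ g : ℤ, g ≠ 0 → |(g : ℝ)| ≤ h0 * (B : ℝ) ^ W →
        ‖∑ m ∈ S, ex (g * α m)‖ ≤ η * S.card) →
      ∃ E ⊆ S, (E.card : ℝ) ≤ ε * S.card ∧ ∀ m ∈ S, m ∉ E → Eqd B l W ε (α m)

/-- CNT: the size of the family -/
def Stmt_CNT : Prop :=
  ∃ C : ℕ, ∀ (y : ℕ) (X : ℝ), C ≤ y → Real.exp ((y : ℝ) ^ 3) ≤ X →
    ((SP (PR 0 y) X).card : ℝ) ≤ (2 * Real.log X) ^ (PR 0 y).card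

end Pool.Agent.SMP
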